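import Pool.Agent.H420.Gr

/-!
# Core and nucleus of a graph: the reduction from 3SAT
-/

namespace Pool.Agent.H420.CoreNuc

open Pool.Agent.NPC Pool.Agent.H420.Gr

section Defs

variable {V : Type} [Fintype V] (G : SimpleGraph V)

/-- The intersection of all maximum independent sets. -/
def core : Set V := {v | ∀ S : Finset V, G.IsMaximumIndepSet S → v ∈ S}

/-- The set of all vertices adjacent to some vertex of `X`. -/
def nbhd (X : Finset V) : Set V := {v | ∃ u ∈ X, G.Adj u v}

/-- The difference `d(X) = |X| - |N(X)|`. -/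
noncomputable def diff (X : Finset V) : ℤ := (X.card : ℤ) - ((nbhd G X).ncard : ℤ)

/-- Critical independent sets: independent sets with maximum difference. -/
def IsCritical (I : Finset V) : Prop :=
  G.IsIndepSet (I : Set V) ∧ ∀ J : Finset V, G.IsIndepSet (J : Set V) → diff G J ≤ diff G I

/-- Critical independent sets of the largest cardinality. -/
def IsMaximumCritical (I : Finset V) : Prop :=
  IsCritical G I ∧ ∀ J : Finset V, IsCritical G J → J.card ≤ I.card

/-- The intersection of all maximum critical independent sets. -/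
def nucleus : Set V := {v | ∀ I : Finset V, IsMaximumCritical G I → v ∈ I}

end Defs

/-- If every nonempty independent set has more neighbours than elements, the nucleus is empty. -/
theorem nucleus_eq_empty {V : Type} [Fintype V] {G : SimpleGraph V}
    (h : ∀ J : Finset V, G.IsIndepSet (J : Set V) → J.Nonempty → J.card < (nbhd G J).ncard) :
    nucleus G = ∅ := by
  have h0 : diff G ∅ = 0 := by simp [diff, nbhd]
  have hc : IsCritical G ∅ := by
    refine ⟨by simp, fun J hJ => ?_⟩
    rw [h0]
    rcases J.eq_empty_or_nonempty with rfl | hne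
    · rw [h0]
    · have := h J hJ hne
      unfold diff
      omega
  have hm : IsMaximumCritical G ∅ := by
    refine ⟨hc, fun J hJ => ?_⟩
    rcases J.eq_empty_or_nonempty with rfl | hne
    · exact le_rfl
    · exfalso
      have h1 := h J hJ.1 hne
      have h2 := hJ.2 ∅ hc.1
      rw [h0] at h2
      unfold diff at h2
      omega
  rw [Set.eq_empty_iff_forall_notMem]
  intro v hv
  exact absurd (hv ∅ hm) (by simp)

/-! ### The graph -/

/-- Two literal occurrences are in conflict. -/
def adj (m : ℕ) (var : ℕ → ℕ) (sgn : ℕ → Bool) (i j : ℕ) : Bool :=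
  (decide (i % 2 ≠ j % 2) || decide (i / 6 = j / 6)) ||
    ((decide (i % 2 = 0) && (decide (i < 6 * m) && decide (j < 6 * m))) &&
      (decide (var (i / 2) = var (j / 2)) && !decide (sgn (i / 2) = sgn (j / 2))))

theorem adj_iff {m : ℕ} {var : ℕ → ℕ} {sgn : ℕ → Bool} {i j : ℕ} :
    adj m var sgn i j = true ↔ (i % 2 ≠ j % 2 ∨ i / 6 = j / 6) ∨
      ((i % 2 = 0 ∧ i < 6 * m ∧ j < 6 * m) ∧ var (i / 2) = var (j / 2) ∧
        sgn (i / 2) ≠ sgn (j / 2)) := by
  unfold adj
  simp only [Bool.or_eq_true, Bool.and_eq_true, decide_eq_true_eq, Bool.not_eq_true',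
    decide_eq_false_iff_not]

variable {m b : ℕ} {var : ℕ → ℕ} {sgn : ℕ → Bool}

/-- The graph of the reduction, with `6 m + 1 + b` vertices. -/
abbrev GG (m b : ℕ) (var : ℕ → ℕ) (sgn : ℕ → Bool) : SimpleGraph (Fin (6 * m + 1 + b)) :=
  eGraph (6 * m + 1 + b) (adj m var sgn)

theorem gg_adj_parity {i j : Fin (6 * m + 1 + b)} (h : i.val % 2 ≠ j.val % 2) :
    (GG m b var sgn).Adj i j := by
  refine ⟨fun e => h (by rw [e]), Or.inl ?_⟩
  rw [adj_iff]
  exact Or.inl (Or.inl h)

theorem gg_adj_group {i j : Fin (6 * m + 1 + b)} (hne : i ≠ j) (h : i.val / 6 = j.val / 6) :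
    (GG m b var sgn).Adj i j := by
  refine ⟨hne, Or.inl ?_⟩
  rw [adj_iff]
  exact Or.inl (Or.inr h)

variable {S : Finset (Fin (6 * m + 1 + b))}

theorem indep_parity (hS : (GG m b var sgn).IsIndepSet (S : Set _)) {i j} (hi : i ∈ S)
    (hj : j ∈ S) : i.val % 2 = j.val % 2 := by
  by_contra h
  have hne : i ≠ j := fun e => h (by rw [e])
  exact hS (by simpa using hi) (by simpa using hj) hne (gg_adj_parity h)

theorem indep_group (hS : (GG m b var sgn).IsIndepSet (S : Set _)) {i j} (hi : i ∈ S)
    (hj : j ∈ S) (h : i.val / 6 = j.val / 6) : i = j := by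
  by_contra hne
  exact hS (by simpa using hi) (by simpa using hj) hne (gg_adj_group hne h)

/-- The set of groups met by a set. -/
theorem card_image_group (hS : (GG m b var sgn).IsIndepSet (S : Set _)) :
    (S.image (fun i => i.val / 6)).card = S.card := by
  refine Finset.card_image_of_injOn ?_
  intro i hi j hj h
  exact indep_group hS (by simpa using hi) (by simpa using hj) h

theorem card_le (hb : b ≤ 1) (hS : (GG m b var sgn).IsIndepSet (S : Set _)) : S.card ≤ m + 1 := by
  rw [← card_image_group hS, ← Finset.card_range (m + 1)]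
  refine Finset.card_le_card ?_
  intro g hg
  rw [Finset.mem_image] at hg
  obtain ⟨i, _, rfl⟩ := hg
  have := i.2
  rw [Finset.mem_range]
  omega


/-- The groups met by an independent set of size `m + 1`. -/
theorem exists_group (hb : b ≤ 1) (hS : (GG m b var sgn).IsIndepSet (S : Set _))
    (hc : S.card = m + 1) {g : ℕ} (hg : g < m + 1) : ∃ i ∈ S, i.val / 6 = g := by
  have h1 : S.image (fun i => i.val / 6) = Finset.range (m + 1) := by
    refine Finset.eq_of_subset_of_card_le ?_ ?_
    · intro g hg
      rw [Finset.mem_image] at hg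
      obtain ⟨i, _, rfl⟩ := hg
      have := i.2
      rw [Finset.mem_range]
      omega
    · rw [card_image_group hS, hc, Finset.card_range]
  have h2 : g ∈ S.image (fun i => i.val / 6) := by
    rw [h1, Finset.mem_range]
    exact hg
  rw [Finset.mem_image] at h2
  exact h2

theorem parity_cases (hS : (GG m b var sgn).IsIndepSet (S : Set _)) :
    (∀ i ∈ S, i.val % 2 = 0) ∨ (∀ i ∈ S, i.val % 2 = 1) := by
  rcases S.eq_empty_or_nonempty with rfl | ⟨i, hi⟩
  · left; simp
  · rcases Nat.mod_two_eq_zero_or_one i.val with h | h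
    · left; intro j hj; exact (indep_parity hS hj hi).trans h
    · right; intro j hj; exact (indep_parity hS hj hi).trans h

/-- An independent set of size `m + 1` in the even side gives a satisfying assignment. -/
theorem sat_of_card (hb : b ≤ 1) (hS : (GG m b var sgn).IsIndepSet (S : Set _))
    (he : ∀ i ∈ S, i.val % 2 = 0) (hc : S.card = m + 1) :
    ∃ τ : ℕ → Bool, ∀ j < m, ∃ r < 3, τ (var (3 * j + r)) = sgn (3 * j + r) := by
  classical
  refine ⟨fun x => decide (∃ i ∈ S, i.val < 6 * m ∧ var (i.val / 2) = x ∧ sgn (i.val / 2) = true),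
    fun j hj => ?_⟩
  obtain ⟨i, hi, hij⟩ := exists_group hb hS hc (g := j) (by omega)
  have hev := he i hi
  refine ⟨i.val / 2 - 3 * j, by omega, ?_⟩
  have e : 3 * j + (i.val / 2 - 3 * j) = i.val / 2 := by omega
  rw [e]
  cases hs : sgn (i.val / 2) with
  | true =>
    rw [decide_eq_true_eq]
    exact ⟨i, hi, by omega, rfl, hs⟩
  | false =>
    rw [decide_eq_false_iff_not]
    rintro ⟨i', hi', hlt, hv, hs'⟩
    have hne : i' ≠ i := fun e => by rw [e, hs] at hs'; exact absurd hs' (by simp)
    refine hS (by simpa using hi') (by simpa using hi) hne ⟨hne, Or.inl ?_⟩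
    rw [adj_iff]
    exact Or.inr ⟨⟨he i' hi', hlt, by omega⟩, hv, by rw [hs, hs']; simp⟩

/-- A family of vertices, one per group, on one side. -/
theorem exists_indep (f : ℕ → ℕ) (k : ℕ) (p : ℕ) (hf : ∀ g < k, f g / 6 = g)
    (hp : ∀ g < k, f g % 2 = p) (hlt : ∀ g < k, f g < 6 * m + 1 + b)
    (hcon : p = 0 → ∀ g < k, ∀ g' < k, f g < 6 * m → f g' < 6 * m →
      var (f g / 2) = var (f g' / 2) → sgn (f g / 2) = sgn (f g' / 2)) :
    ∃ T : Finset (Fin (6 * m + 1 + b)), (GG m b var sgn).IsIndepSet (T : Set _) ∧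
      (∀ i ∈ T, ∃ g < k, i.val = f g) ∧ T.card = k := by
  classical
  let F : Fin k → Fin (6 * m + 1 + b) := fun g => ⟨f g, hlt g g.2⟩
  have hF : Function.Injective F := by
    intro g g' h
    have h1 : f g = f g' := congrArg Fin.val h
    have h2 := hf g g.2
    rw [h1, hf g' g'.2] at h2
    exact Fin.ext h2.symm
  refine ⟨Finset.univ.image F, ?_, ?_, ?_⟩
  · intro i hi j hj hne hadj
    simp only [Finset.coe_image, Finset.coe_univ, Set.image_univ, Set.mem_range] at hi hj
    obtain ⟨g, rfl⟩ := hi
    obtain ⟨g', rfl⟩ := hj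
    obtain ⟨-, h⟩ := hadj
    rw [adj_iff, adj_iff] at h
    have e1 : (F g).val = f g := rfl
    have e2 : (F g').val = f g' := rfl
    rw [e1, e2] at h
    have hgg : g.val ≠ g'.val := fun e => hne (by rw [Fin.ext e])
    have h1 := hp g g.2
    have h2 := hp g' g'.2
    have h3 := hf g g.2
    have h4 := hf g' g'.2
    rcases h with h | h
    · rcases h with (h | h) | ⟨⟨h5, h6, h7⟩, h8, h9⟩
      · omega
      · omega
      · exact h9 (hcon (by omega) g g.2 g' g'.2 h6 h7 h8)
    · rcases h with (h | h) | ⟨⟨h5, h6, h7⟩, h8, h9⟩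
      · omega
      · omega
      · exact h9 (hcon (by omega) g' g'.2 g g.2 h6 h7 h8)
  · intro i hi
    rw [Finset.mem_image] at hi
    obtain ⟨g, _, rfl⟩ := hi
    exact ⟨g, g.2, rfl⟩
  · rw [Finset.card_image_of_injective _ hF, Finset.card_univ, Fintype.card_fin]

theorem exists_even (h : ∃ τ : ℕ → Bool, ∀ j < m, ∃ r < 3, τ (var (3 * j + r)) = sgn (3 * j + r)) :
    ∃ T : Finset (Fin (6 * m + 1 + b)), (GG m b var sgn).IsIndepSet (T : Set _) ∧
      (∀ i ∈ T, i.val % 2 = 0) ∧ T.card = m + 1 := by
  classical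
  obtain ⟨τ, hτ⟩ := h
  choose! r hr hr' using hτ
  obtain ⟨T, h1, h2, h3⟩ := exists_indep (m := m) (b := b) (var := var) (sgn := sgn)
    (fun g => if g < m then 2 * (3 * g + r g) else 6 * m) (m + 1) 0 (by
      intro g hg
      split_ifs with h
      · have := hr g h; omega
      · omega) (by
      intro g hg
      split_ifs with h
      · omega
      · omega) (by
      intro g hg
      split_ifs with h
      · have := hr g h; omega
      · omega) (by
      intro _ g hg g' hg' hlt hlt' hv
      by_cases h : g < m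
      · by_cases h' : g' < m
        · simp only [h, h', if_true] at hv ⊢
          have e1 : 2 * (3 * g + r g) / 2 = 3 * g + r g := by omega
          have e2 : 2 * (3 * g' + r g') / 2 = 3 * g' + r g' := by omega
          rw [e1, e2] at hv ⊢
          rw [← hr' g h, ← hr' g' h', hv]
        · simp only [h', if_false] at hlt'
          omega
      · simp only [h, if_false] at hlt
        omega)
  refine ⟨T, h1, fun i hi => ?_, h3⟩
  obtain ⟨g, hg, e⟩ := h2 i hi
  rw [e]
  split_ifs <;> omega

theorem exists_odd (hb : b ≤ 1) {r : ℕ} (hr : r < 3) :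
    ∃ T : Finset (Fin (6 * m + 1 + b)), (GG m b var sgn).IsIndepSet (T : Set _) ∧
      (∀ i ∈ T, i.val % 2 = 1) ∧ (∀ i ∈ T, i.val < 6 * m → i.val % 6 = 2 * r + 1) ∧
      T.card = m + b := by
  obtain ⟨T, h1, h2, h3⟩ := exists_indep (m := m) (b := b) (var := var) (sgn := sgn)
    (fun g => if g < m then 6 * g + (2 * r + 1) else 6 * m + 1) (m + b) 1 (by
      intro g hg
      split_ifs with h
      · omega
      · omega) (by
      intro g hg
      split_ifs with h
      · omega
      · omega) (by
      intro g hg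
      split_ifs with h
      · omega
      · omega) (by
      intro h
      exact absurd h (by norm_num))
  refine ⟨T, h1, fun i hi => ?_, fun i hi hlt => ?_, h3⟩
  · obtain ⟨g, hg, e⟩ := h2 i hi
    rw [e]
    split_ifs <;> omega
  · obtain ⟨g, hg, e⟩ := h2 i hi
    rw [e] at hlt ⊢
    split_ifs at hlt ⊢ <;> omega

theorem nucleus_gg (hm : 0 < m) (hb : b ≤ 1) : nucleus (GG m b var sgn) = ∅ := by
  refine nucleus_eq_empty fun J hJ hne => ?_
  obtain ⟨i, hi⟩ := hne
  have h1 := card_le hb hJ
  have h2 : 3 * m ≤ (nbhd (GG m b var sgn) J).ncard := by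
    let F : Fin (3 * m) → Fin (6 * m + 1 + b) := fun k => ⟨2 * k + (1 - i.val % 2), by omega⟩
    have hF : Function.Injective F := by
      intro k k' h
      have h1 : 2 * k.val + (1 - i.val % 2) = 2 * k'.val + (1 - i.val % 2) := congrArg Fin.val h
      exact Fin.ext (by omega)
    have h3 : Set.range F ⊆ nbhd (GG m b var sgn) J := by
      rintro _ ⟨k, rfl⟩
      refine ⟨i, hi, gg_adj_parity ?_⟩
      have e : (F k).val = 2 * k + (1 - i.val % 2) := rfl
      rw [e]
      omega
    calc 3 * m = (Set.range F).ncard := by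
          rw [← Set.image_univ, Set.ncard_image_of_injective _ hF, Set.ncard_univ,
            Nat.card_eq_fintype_card, Fintype.card_fin]
      _ ≤ _ := Set.ncard_le_ncard h3 (Set.toFinite _)
  omega

/-- For `b = 1` the core is empty iff the formula is satisfiable. -/
theorem core_one : core (GG m 1 var sgn) = ∅ ↔
    ∃ τ : ℕ → Bool, ∀ j < m, ∃ r < 3, τ (var (3 * j + r)) = sgn (3 * j + r) := by
  constructor
  · intro h
    by_contra hsat
    have : (⟨6 * m + 1, by omega⟩ : Fin (6 * m + 1 + 1)) ∈ core (GG m 1 var sgn) := by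
      intro S hS
      have hind := hS.1
      have hc : S.card = m + 1 := by
        obtain ⟨T, hT, -, -, hTc⟩ := exists_odd (m := m) (b := 1) (var := var) (sgn := sgn) le_rfl
          (r := 0) (by norm_num)
        have h1 := hS.2 T hT
        have h2 := card_le (b := 1) le_rfl hind
        omega
      obtain ⟨i, hi, hg⟩ := exists_group le_rfl hind hc (g := m) (by omega)
      rcases parity_cases hind with hp | hp
      · exact absurd (sat_of_card le_rfl hind hp hc) hsat
      · have h1 := hp i hi
        have h2 := i.2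
        have e : i = ⟨6 * m + 1, by omega⟩ := Fin.ext (by simp only; omega)
        rwa [e] at hi
    rw [h] at this
    exact this
  · intro hsat
    rw [Set.eq_empty_iff_forall_notMem]
    intro v hv
    obtain ⟨T, hT, hTe, hTc⟩ := exists_even (b := 1) hsat
    obtain ⟨T', hT', hTo, -, hTc'⟩ := exists_odd (m := m) (b := 1) (var := var) (sgn := sgn) le_rfl
      (r := 0) (by norm_num)
    have h1 := hv T ⟨hT, fun U hU => by rw [hTc]; exact card_le le_rfl hU⟩
    have h2 := hv T' ⟨hT', fun U hU => by rw [hTc']; exact card_le le_rfl hU⟩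
    have h3 := hTe v h1
    have h4 := hTo v h2
    omega

/-- For `b = 0` the core is empty iff the formula is not satisfiable. -/
theorem core_zero : core (GG m 0 var sgn) = ∅ ↔
    ¬ ∃ τ : ℕ → Bool, ∀ j < m, ∃ r < 3, τ (var (3 * j + r)) = sgn (3 * j + r) := by
  have hodd : ∀ T : Finset (Fin (6 * m + 1 + 0)), (GG m 0 var sgn).IsIndepSet (T : Set _) →
      (∀ i ∈ T, i.val % 2 = 1) → T.card ≤ m := by
    intro T hT ho
    by_contra hlt
    have h1 := card_le (b := 0) (by norm_num) hT
    obtain ⟨i, hi, hg⟩ := exists_group (by norm_num) hT (by omega) (g := m) (by omega)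
    have h2 := ho i hi
    have h3 := i.2
    omega
  constructor
  · intro h hsat
    have : (⟨6 * m, by omega⟩ : Fin (6 * m + 1 + 0)) ∈ core (GG m 0 var sgn) := by
      intro S hS
      have hind := hS.1
      have hc : S.card = m + 1 := by
        obtain ⟨T, hT, -, hTc⟩ := exists_even (b := 0) hsat
        have h1 := hS.2 T hT
        have h2 := card_le (b := 0) (by norm_num) hind
        omega
      obtain ⟨i, hi, hg⟩ := exists_group (by norm_num) hind hc (g := m) (by omega)
      rcases parity_cases hind with hp | hp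
      · have h2 := i.2
        have e : i = ⟨6 * m, by omega⟩ := Fin.ext (by simp only; omega)
        rwa [e] at hi
      · have := hodd S hind hp
        omega
    rw [h] at this
    exact this
  · intro hsat
    rw [Set.eq_empty_iff_forall_notMem]
    intro v hv
    have hle : ∀ U : Finset (Fin (6 * m + 1 + 0)), (GG m 0 var sgn).IsIndepSet (U : Set _) →
        U.card ≤ m := by
      intro U hU
      rcases parity_cases hU with hp | hp
      · by_contra hlt
        have h1 := card_le (b := 0) (by norm_num) hU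
        exact hsat (sat_of_card (by norm_num) hU hp (by omega))
      · exact hodd U hU hp
    obtain ⟨T, hT, hTo, hT6, hTc⟩ := exists_odd (m := m) (b := 0) (var := var) (sgn := sgn)
      (by norm_num) (r := 0) (by norm_num)
    obtain ⟨T', hT', hTo', hT6', hTc'⟩ := exists_odd (m := m) (b := 0) (var := var) (sgn := sgn)
      (by norm_num) (r := 1) (by norm_num)
    have h1 := hv T ⟨hT, fun U hU => by rw [hTc]; exact hle U hU⟩
    have h2 := hv T' ⟨hT', fun U hU => by rw [hTc']; exact hle U hU⟩
    have h3 := hTo v h1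
    have h4 := v.2
    have h5 := hT6 v h1 (by omega)
    have h6 := hT6' v h2 (by omega)
    omega

/-! ### The decision problem -/

/-- The decision problem: do core and nucleus of the graph with adjacency matrix `M` coincide? -/
def CoreEqNucleus (M : List (List Bool)) : Prop := core (graphOf M) = nucleus (graphOf M)

/-- The reduction. -/
def red (b : ℕ) (φ : List (Lit ℕ × Lit ℕ × Lit ℕ)) : List (List Bool) :=
  mat (6 * φ.length + 1 + b) (adj φ.length (vr φ) (sg φ))

theorem red_poly (b : ℕ) : Poly (red b) := by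
  unfold red
  refine poly_mat (n := fun φ : List (Lit ℕ × Lit ℕ × Lit ℕ) => 6 * φ.length + 1 + b)
    (A := fun φ i j => adj φ.length (vr φ) (sg φ) i j)
    (UPoly.add (UPoly.add (UPoly.mul (UPoly.const 6) (UPoly.length Poly.id)) (UPoly.const 1))
      (UPoly.const b)) ?_
  unfold adj
  have hφ : Poly (fun x : (List (Lit ℕ × Lit ℕ × Lit ℕ) × ℕ) × ℕ => x.1.1) :=
    Poly.fst (Poly.fst Poly.id)
  have hi : Poly (fun x : (List (Lit ℕ × Lit ℕ × Lit ℕ) × ℕ) × ℕ => x.1.2) :=
    Poly.snd (Poly.fst Poly.id)
  have hj : Poly (fun x : (List (Lit ℕ × Lit ℕ × Lit ℕ) × ℕ) × ℕ => x.2) := Poly.snd Poly.id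
  have c2 : Poly (fun _ : (List (Lit ℕ × Lit ℕ × Lit ℕ) × ℕ) × ℕ => 2) := NPC.Poly.const 2
  have c6 : Poly (fun _ : (List (Lit ℕ × Lit ℕ × Lit ℕ) × ℕ) × ℕ => 6) := NPC.Poly.const 6
  have hm : Poly (fun x : (List (Lit ℕ × Lit ℕ × Lit ℕ) × ℕ) × ℕ => 6 * x.1.1.length) :=
    Poly.mul c6 (Poly.length hφ)
  refine NPC.Poly.or (NPC.Poly.or (Poly.decide_not (Poly.decide_eq (Poly.mod hi c2)
    (Poly.mod hj c2))) (Poly.decide_eq (Poly.div hi c6) (Poly.div hj c6))) ?_
  refine NPC.Poly.and (NPC.Poly.and (Poly.decide_eq (Poly.mod hi c2) (NPC.Poly.const 0))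
    (NPC.Poly.and (Poly.decide_lt hi hm) (Poly.decide_lt hj hm))) ?_
  exact NPC.Poly.and (Poly.decide_eq (poly_vr hφ (Poly.div hi c2)) (poly_vr hφ (Poly.div hj c2)))
    (NPC.Poly.not (Poly.decide_eq (poly_sg hφ (Poly.div hi c2)) (poly_sg hφ (Poly.div hj c2))))

theorem red_iff {b : ℕ} (hb : b ≤ 1) {φ : List (Lit ℕ × Lit ℕ × Lit ℕ)} (hφ : φ ≠ []) :
    CoreEqNucleus (red b φ) ↔ core (GG φ.length b (vr φ) (sg φ)) = ∅ := by
  have h := graphOf_mat (fun k G => core G = nucleus G) (6 * φ.length + 1 + b)
    (adj φ.length (vr φ) (sg φ))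
  unfold CoreEqNucleus red
  rw [h, nucleus_gg (List.length_pos_iff.2 hφ) hb]

theorem npHard : NPHardP CoreEqNucleus :=
  (HardPr.trans (Pr' := fun _ => True) hardPr_SAT3b (red_poly 1) (fun _ _ => trivial)
    (Q := CoreEqNucleus) (fun φ hφ => by
      rw [red_iff le_rfl hφ.2.2, core_one, sat_iff])).toHardI.toNPHardP

theorem coNPHard : CoNPHardP CoreEqNucleus :=
  (HardPr.trans (Pr' := fun _ => True) hardPr_SAT3b (red_poly 0) (fun _ _ => trivial)
    (Q := fun M => ¬ CoreEqNucleus M) (fun φ hφ => by
      rw [red_iff (by norm_num) hφ.2.2, core_zero, not_not, sat_iff])).toHardI.toCoNPHardP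

end Pool.Agent.H420.CoreNuc
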