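import Pool.Agent.NPC.Sat2
import Pool.Agent.NPC.Dec

/-!
# Graphs given by adjacency matrices, and literals of 3-CNF formulas
-/

namespace Pool.Agent.H420.Gr

open Pool.Agent.NPC

/-- The entry in row `i` and column `j` of a matrix given by its list of rows (`false` outside the
matrix). -/
def entry (M : List (List Bool)) (i j : ℕ) : Bool := (M.getD i []).getD j false

/-- The simple graph on the vertices `0, ..., n-1` in which two distinct vertices `i`, `j` are
adjacent if and only if `E i j` or `E j i` is true. -/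
def eGraph (n : ℕ) (E : ℕ → ℕ → Bool) : SimpleGraph (Fin n) where
  Adj i j := i ≠ j ∧ (E i j = true ∨ E j i = true)
  symm := ⟨fun _ _ h => ⟨h.1.symm, h.2.symm⟩⟩
  loopless := ⟨fun _ h => h.1 rfl⟩

/-- The finite simple graph given by the adjacency matrix `M` (a list of rows): its vertices are
`0, ..., n-1`, where `n` is the number of rows, and two distinct vertices `i`, `j` are adjacent if
and only if one of the entries `(i, j)`, `(j, i)` is true. -/
def graphOf (M : List (List Bool)) : SimpleGraph (Fin M.length) := eGraph M.length (entry M)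

/-- The matrix of size `n` with entries `A i j`. -/
def mat (n : ℕ) (A : ℕ → ℕ → Bool) : List (List Bool) :=
  (List.range n).map (fun i => (List.range n).map (fun j => A i j))

theorem length_mat (n : ℕ) (A : ℕ → ℕ → Bool) : (mat n A).length = n := by simp [mat]

theorem entry_mat {n : ℕ} {A : ℕ → ℕ → Bool} {i j : ℕ} (hi : i < n) (hj : j < n) :
    entry (mat n A) i j = A i j := by
  simp [entry, mat, List.getD_eq_getElem?_getD, hi, hj]

/-- A property of the graph given by the matrix `mat n A` is a property of `eGraph n A`. -/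
theorem graphOf_mat (P : ∀ k, SimpleGraph (Fin k) → Prop) (n : ℕ) (A : ℕ → ℕ → Bool) :
    P _ (graphOf (mat n A)) ↔ P n (eGraph n A) := by
  have key : ∀ k, k = n → ∀ E : ℕ → ℕ → Bool, (∀ i j, i < n → j < n → E i j = A i j) →
      (P k (eGraph k E) ↔ P n (eGraph n A)) := by
    rintro k rfl E hE
    have : eGraph k E = eGraph k A := by
      ext i j
      simp only [eGraph]
      rw [hE i j i.2 j.2, hE j i j.2 i.2]
    rw [this]
  exact key _ (length_mat n A) _ (fun i j hi hj => entry_mat hi hj)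

theorem poly_mat {α : Type} [TEnc α] {n : α → ℕ} {A : α → ℕ → ℕ → Bool} (hn : UPoly n)
    (hA : Poly (fun x : (α × ℕ) × ℕ => A x.1.1 x.1.2 x.2)) :
    Poly (fun a => mat (n a) (A a)) := by
  unfold mat
  refine NPC.Poly.map (F := fun a i => (List.range (n a)).map (fun j => A a i j)) hn.range ?_
  exact NPC.Poly.map (F := fun (x : α × ℕ) j => A x.1 x.2 j)
    (hn.range.comp (Poly.fst Poly.id)) hA

theorem poly_entry {α : Type} [TEnc α] {M : α → List (List Bool)} {i j : α → ℕ} (hM : Poly M)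
    (hi : Poly i) (hj : Poly j) : Poly (fun a => entry (M a) (i a) (j a)) :=
  Poly.getD (Poly.getD hM hi (NPC.Poly.const _)) hj (NPC.Poly.const _)

/-! ### Literals -/

/-- The list of literals of a 3-CNF. -/
def lits (φ : List (Lit ℕ × Lit ℕ × Lit ℕ)) : List (Bool × ℕ) :=
  φ.flatMap (fun c => [c.1, c.2.1, c.2.2])

/-- The variable of the literal number `o`. -/
def vr (φ : List (Lit ℕ × Lit ℕ × Lit ℕ)) (o : ℕ) : ℕ := ((lits φ).getD o (false, 0)).2

/-- The sign of the literal number `o`. -/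
def sg (φ : List (Lit ℕ × Lit ℕ × Lit ℕ)) (o : ℕ) : Bool := ((lits φ).getD o (false, 0)).1

theorem poly_lits : Poly lits :=
  Poly.flatMap (F := fun _ (c : Lit ℕ × Lit ℕ × Lit ℕ) =>
      [c.1, c.2.1, c.2.2]) Poly.id
    (Poly.cons (Poly.fst (Poly.snd Poly.id)) (Poly.cons (Poly.fst (Poly.snd (Poly.snd Poly.id)))
      (Poly.cons (Poly.snd (Poly.snd (Poly.snd Poly.id))) (NPC.Poly.const _))))

theorem poly_vr {α : Type} [TEnc α] {φ : α → List (Lit ℕ × Lit ℕ × Lit ℕ)} {o : α → ℕ}
    (hφ : Poly φ) (ho : Poly o) : Poly (fun a => vr (φ a) (o a)) :=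
  Poly.snd (Poly.getD (poly_lits.comp hφ) ho (NPC.Poly.const _))

theorem poly_sg {α : Type} [TEnc α] {φ : α → List (Lit ℕ × Lit ℕ × Lit ℕ)} {o : α → ℕ}
    (hφ : Poly φ) (ho : Poly o) : Poly (fun a => sg (φ a) (o a)) :=
  Poly.fst (Poly.getD (poly_lits.comp hφ) ho (NPC.Poly.const _))

theorem lits_getD (φ : List (Lit ℕ × Lit ℕ × Lit ℕ)) (j : ℕ) (hj : j < φ.length) :
    (lits φ).getD (3 * j) (false, 0) = φ[j].1 ∧ (lits φ).getD (3 * j + 1) (false, 0) = φ[j].2.1 ∧
      (lits φ).getD (3 * j + 2) (false, 0) = φ[j].2.2 := by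
  induction φ generalizing j with
  | nil => simp at hj
  | cons c φ ih =>
    cases j with
    | zero => simp [lits]
    | succ j =>
      have := ih j (by simpa using hj)
      have e : lits (c :: φ) = c.1 :: c.2.1 :: c.2.2 :: lits φ := by simp [lits]
      rw [e]
      have e0 : 3 * (j + 1) = 3 * j + 1 + 1 + 1 := by ring
      rw [e0]
      simpa using this

/-- Satisfiability in terms of numbered literals. -/
theorem sat_iff (φ : List (Lit ℕ × Lit ℕ × Lit ℕ)) :
    SAT3 φ ↔ ∃ τ : ℕ → Bool, ∀ j < φ.length, ∃ r < 3, τ (vr φ (3 * j + r)) = sg φ (3 * j + r) := by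
  unfold SAT3 Sat3V vr sg
  refine exists_congr fun τ => ?_
  constructor
  · intro h j hj
    obtain ⟨h0, h1, h2⟩ := lits_getD φ j hj
    rcases h _ (List.getElem_mem hj) with h | h | h
    · exact ⟨0, by omega, by rw [Nat.add_zero, h0]; exact h⟩
    · exact ⟨1, by omega, by rw [h1]; exact h⟩
    · exact ⟨2, by omega, by rw [h2]; exact h⟩
  · intro h c hc
    obtain ⟨j, hj, rfl⟩ := List.getElem_of_mem hc
    obtain ⟨h0, h1, h2⟩ := lits_getD φ j hj
    obtain ⟨r, hr, hrs⟩ := h j hj
    have : r = 0 ∨ r = 1 ∨ r = 2 := by omega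
    rcases this with rfl | rfl | rfl
    · rw [Nat.add_zero, h0] at hrs; exact Or.inl hrs
    · rw [h1] at hrs; exact Or.inr (Or.inl hrs)
    · rw [h2] at hrs; exact Or.inr (Or.inr hrs)

theorem vr_lt {φ : List (Lit ℕ × Lit ℕ × Lit ℕ)} (hφ : Bounded3 φ) {o : ℕ}
    (ho : o < 3 * φ.length) : vr φ o < 3 * φ.length := by
  have hj : o / 3 < φ.length := by omega
  obtain ⟨h0, h1, h2⟩ := lits_getD φ (o / 3) hj
  obtain ⟨g0, g1, g2⟩ := hφ _ (List.getElem_mem hj)
  unfold vr
  have : o = 3 * (o / 3) ∨ o = 3 * (o / 3) + 1 ∨ o = 3 * (o / 3) + 2 := by omega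
  rcases this with h | h | h
  · rw [h, h0]; exact g0
  · rw [h, h1]; exact g1
  · rw [h, h2]; exact g2

end Pool.Agent.H420.Gr
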