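import Pool.Agent.H420.Gr

/-!
# Hospitals/residents with lower quotas at most 2: the reduction from 3SAT
-/

namespace Pool.Agent.H420.HRLQ

open Pool.Agent.NPC Pool.Agent.H420.Gr

/-- An instance: the preference lists of the residents `0, 1, ...` (lists of hospitals), the
preference lists of the hospitals `0, 1, ...` (lists of residents), both from best to worst, and the
list of the pairs (lower quota, upper quota) of the hospitals. -/
abbrev Inst : Type := List (List ℕ) × List (List ℕ) × List (ℕ × ℕ)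

/-- The number of residents. -/
def nR (I : Inst) : ℕ := I.1.length

/-- The number of hospitals. -/
def nH (I : Inst) : ℕ := I.2.1.length

/-- The preference list of the resident `i`. -/
def rl (I : Inst) (i : ℕ) : List ℕ := I.1.getD i []

/-- The preference list of the hospital `j`. -/
def hl (I : Inst) (j : ℕ) : List ℕ := I.2.1.getD j []

/-- The lower quota of the hospital `j`. -/
def lq (I : Inst) (j : ℕ) : ℕ := (I.2.2.getD j (0, 0)).1

/-- The upper quota of the hospital `j`. -/
def uq (I : Inst) (j : ℕ) : ℕ := (I.2.2.getD j (0, 0)).2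

/-- Well-formed instances with all lower quotas at most 2: the preference lists are strict orders of
existing hospitals or residents, acceptability is mutual, `l ≤ u`, `1 ≤ u` and `l ≤ 2`. -/
structure WF (I : Inst) : Prop where
  qlen : I.2.2.length = nH I
  rnodup : ∀ i < nR I, (rl I i).Nodup
  hnodup : ∀ j < nH I, (hl I j).Nodup
  racc : ∀ i < nR I, ∀ j ∈ rl I i, j < nH I ∧ i ∈ hl I j
  hacc : ∀ j < nH I, ∀ i ∈ hl I j, i < nR I ∧ j ∈ rl I i
  quota : ∀ j < nH I, lq I j ≤ uq I j ∧ 1 ≤ uq I j
  low : ∀ j < nH I, lq I j ≤ 2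

/-- The number of residents assigned to the hospital `j`. -/
def load (M : Finset (ℕ × ℕ)) (j : ℕ) : ℕ := (M.filter (fun p => p.2 = j)).card

/-- A set of acceptable resident-hospital pairs in which each resident occurs at most once. -/
def IsAssignment (I : Inst) (M : Finset (ℕ × ℕ)) : Prop :=
  (∀ p ∈ M, p.1 < nR I ∧ p.2 ∈ rl I p.1) ∧ ∀ p ∈ M, ∀ q ∈ M, p.1 = q.1 → p = q

/-- Matchings: each hospital is closed (has no resident) or respects both quotas. -/
def IsMatching (I : Inst) (M : Finset (ℕ × ℕ)) : Prop :=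
  IsAssignment I M ∧ ∀ j < nH I, load M j = 0 ∨ (lq I j ≤ load M j ∧ load M j ≤ uq I j)

/-- The resident `i` is unassigned or prefers `j` to her hospital. -/
def Wants (I : Inst) (M : Finset (ℕ × ℕ)) (i j : ℕ) : Prop :=
  ∀ j', (i, j') ∈ M → (rl I i).idxOf j < (rl I i).idxOf j'

/-- The hospital `j` is undersubscribed or prefers `i` to one of its residents. -/
def Accepts (I : Inst) (M : Finset (ℕ × ℕ)) (i j : ℕ) : Prop :=
  load M j < uq I j ∨ ∃ i', (i', j) ∈ M ∧ (hl I j).idxOf i < (hl I j).idxOf i'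

/-- Pairwise stable matchings: no acceptable pair `(i, j)` with `j` open is blocking. -/
def PairwiseStable (I : Inst) (M : Finset (ℕ × ℕ)) : Prop :=
  IsMatching I M ∧ ∀ i < nR I, ∀ j ∈ rl I i, load M j ≠ 0 → Wants I M i j → ¬ Accepts I M i j

/-- Stable matchings of the classical instance, in which the lower quotas are ignored. -/
def ClassicallyStable (I : Inst) (M : Finset (ℕ × ℕ)) : Prop :=
  (IsAssignment I M ∧ ∀ j < nH I, load M j ≤ uq I j) ∧
    ∀ i < nR I, ∀ j ∈ rl I i, Wants I M i j → ¬ Accepts I M i j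

/-- The resident-optimal stable matching of the classical instance. -/
def ResidentOptimal (I : Inst) (M : Finset (ℕ × ℕ)) : Prop :=
  ClassicallyStable I M ∧ ∀ M', ClassicallyStable I M' → ∀ i j', (i, j') ∈ M' →
    ∃ j, (i, j) ∈ M ∧ (rl I i).idxOf j ≤ (rl I i).idxOf j'

/-- Popular hospitals. -/
def Popular (I : Inst) (j : ℕ) : Prop := ∃ M, ResidentOptimal I M ∧ lq I j ≤ load M j

/-- The decision version of Problem A, with lower quotas at most 2: is there a pairwise stable
matching of size at least `k`? -/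
def ProblemA (x : Inst × ℕ) : Prop := WF x.1 ∧ ∃ M, PairwiseStable x.1 M ∧ x.2 ≤ M.card

/-- The decision version of Problem B, with lower quotas at most 2: is there a pairwise stable
matching of size at least `k` in which every popular hospital is open? -/
def ProblemB (x : Inst × ℕ) : Prop :=
  WF x.1 ∧ ∃ M, PairwiseStable x.1 M ∧ (∀ j < nH x.1, Popular x.1 j → load M j ≠ 0) ∧
    x.2 ≤ M.card

/-! ### The instance -/

/-- Two literal occurrences are in conflict. -/
def cf (m : ℕ) (var : ℕ → ℕ) (sgn : ℕ → Bool) (p : ℕ) : Bool :=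
  decide (var (p / (3 * m)) = var (p % (3 * m))) && !decide (sgn (p / (3 * m)) = sgn (p % (3 * m)))

/-- The preference list of the resident `i`. -/
def rlist (m : ℕ) (var : ℕ → ℕ) (sgn : ℕ → Bool) (i : ℕ) : List ℕ :=
  if i < 3 * m then [i, 3 * m + i / 3]
  else if i < 4 * m then [i]
  else if i < 7 * m then [3 * m + i, i - 4 * m, i]
  else if cf m var sgn (i - 7 * m) = true then
    [3 * m + i, (i - 7 * m) / (3 * m), (i - 7 * m) % (3 * m)]
  else [3 * m + i, 3 * m + i + 3 * m * (3 * m)]

/-- The lower quotas. -/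
def lql (m : ℕ) (j : ℕ) : ℕ :=
  if 4 * m ≤ j ∧ j < 7 * m then 1 else if 10 * m + 3 * m * (3 * m) ≤ j then 1 else 2

/-- The instance of the reduction. -/
def inst (m : ℕ) (var : ℕ → ℕ) (sgn : ℕ → Bool) : Inst :=
  ((List.range (7 * m + 3 * m * (3 * m))).map (rlist m var sgn),
    (List.range (10 * m + 2 * (3 * m * (3 * m)))).map (fun j =>
      (List.range (7 * m + 3 * m * (3 * m))).filter (fun i => decide (j ∈ rlist m var sgn i))),
    (List.range (10 * m + 2 * (3 * m * (3 * m)))).map (fun j =>
      (lql m j, 7 * m + 3 * m * (3 * m) + 1)))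

variable {m : ℕ} {var : ℕ → ℕ} {sgn : ℕ → Bool}

theorem nR_inst : nR (inst m var sgn) = 7 * m + 3 * m * (3 * m) := by simp [nR, inst]

theorem nH_inst : nH (inst m var sgn) = 10 * m + 2 * (3 * m * (3 * m)) := by simp [nH, inst]

theorem rl_inst {i : ℕ} (hi : i < 7 * m + 3 * m * (3 * m)) :
    rl (inst m var sgn) i = rlist m var sgn i := by
  simp [rl, inst, List.getD_eq_getElem?_getD, hi]

theorem hl_inst {j : ℕ} (hj : j < 10 * m + 2 * (3 * m * (3 * m))) :
    hl (inst m var sgn) j =
      (List.range (7 * m + 3 * m * (3 * m))).filter (fun i => decide (j ∈ rlist m var sgn i)) := by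
  simp [hl, inst, List.getD_eq_getElem?_getD, hj]

theorem lq_inst {j : ℕ} (hj : j < 10 * m + 2 * (3 * m * (3 * m))) :
    lq (inst m var sgn) j = lql m j := by
  simp [lq, inst, List.getD_eq_getElem?_getD, hj]

theorem uq_inst {j : ℕ} (hj : j < 10 * m + 2 * (3 * m * (3 * m))) :
    uq (inst m var sgn) j = 7 * m + 3 * m * (3 * m) + 1 := by
  simp [uq, inst, List.getD_eq_getElem?_getD, hj]

theorem div_lt' {p : ℕ} (hp : p < 3 * m * (3 * m)) : p / (3 * m) < 3 * m :=
  Nat.div_lt_of_lt_mul hp

theorem mod_lt' {p : ℕ} (hp : p < 3 * m * (3 * m)) : p % (3 * m) < 3 * m := by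
  refine Nat.mod_lt _ ?_
  rcases Nat.eq_zero_or_pos (3 * m) with h | h
  · rw [h] at hp
    simp at hp
  · exact h

theorem cf_iff {p : ℕ} : cf m var sgn p = true ↔ var (p / (3 * m)) = var (p % (3 * m)) ∧
    sgn (p / (3 * m)) ≠ sgn (p % (3 * m)) := by
  unfold cf
  rw [Bool.and_eq_true, decide_eq_true_eq, Bool.not_eq_true', decide_eq_false_iff_not]

/-- The members of the lists. -/
theorem mem_rlist {i j : ℕ} (h : j ∈ rlist m var sgn i) :
    (i < 3 * m ∧ (j = i ∨ j = 3 * m + i / 3)) ∨ (3 * m ≤ i ∧ i < 4 * m ∧ j = i) ∨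
    (4 * m ≤ i ∧ i < 7 * m ∧ (j = 3 * m + i ∨ j = i - 4 * m ∨ j = i)) ∨
    (7 * m ≤ i ∧ cf m var sgn (i - 7 * m) = true ∧ (j = 3 * m + i ∨ j = (i - 7 * m) / (3 * m) ∨
      j = (i - 7 * m) % (3 * m))) ∨
    (7 * m ≤ i ∧ (j = 3 * m + i ∨ j = 3 * m + i + 3 * m * (3 * m))) := by
  unfold rlist at h
  split_ifs at h with h1 h2 h3 h4
  · simp only [List.mem_cons, List.not_mem_nil, or_false] at h
    exact Or.inl ⟨h1, h⟩
  · simp only [List.mem_cons, List.not_mem_nil, or_false] at h
    exact Or.inr (Or.inl ⟨by omega, h2, h⟩)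
  · simp only [List.mem_cons, List.not_mem_nil, or_false] at h
    exact Or.inr (Or.inr (Or.inl ⟨by omega, h3, h⟩))
  · simp only [List.mem_cons, List.not_mem_nil, or_false] at h
    exact Or.inr (Or.inr (Or.inr (Or.inl ⟨by omega, h4, h⟩)))
  · simp only [List.mem_cons, List.not_mem_nil, or_false] at h
    exact Or.inr (Or.inr (Or.inr (Or.inr ⟨by omega, h⟩)))

theorem mem_lt {i j : ℕ} (hi : i < 7 * m + 3 * m * (3 * m)) (h : j ∈ rlist m var sgn i) :
    j < 10 * m + 2 * (3 * m * (3 * m)) := by
  rcases mem_rlist h with h | h | h | h | h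
  · omega
  · omega
  · omega
  · obtain ⟨h1, -, h2⟩ := h
    have e1 := div_lt' (m := m) (p := i - 7 * m) (by omega)
    have e2 := mod_lt' (m := m) (p := i - 7 * m) (by omega)
    omega
  · omega

theorem wf_inst (hm : 0 < m) : WF (inst m var sgn) where
  qlen := by simp [nH, inst]
  rnodup i hi := by
    rw [nR_inst] at hi
    rw [rl_inst hi]
    unfold rlist
    split_ifs with h1 h2 h3 h4
    · rw [List.nodup_cons]
      simp only [List.mem_cons, List.not_mem_nil, or_false, List.nodup_cons, not_false_eq_true,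
        List.nodup_nil, and_self, and_true]
      omega
    · simp
    · simp only [List.nodup_cons, List.mem_cons, List.not_mem_nil, or_false, not_or,
        not_false_eq_true, List.nodup_nil, and_self, and_true]
      omega
    · have e1 := div_lt' (m := m) (p := i - 7 * m) (by omega)
      have e2 := mod_lt' (m := m) (p := i - 7 * m) (by omega)
      have e3 : (i - 7 * m) / (3 * m) ≠ (i - 7 * m) % (3 * m) := by
        intro e
        rw [cf_iff, e] at h4
        exact h4.2 rfl
      simp only [List.nodup_cons, List.mem_cons, List.not_mem_nil, or_false, not_or,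
        not_false_eq_true, List.nodup_nil, and_self, and_true]
      exact ⟨⟨by omega, by omega⟩, e3⟩
    · have : 0 < 3 * m * (3 * m) := Nat.mul_pos (by omega) (by omega)
      simp only [List.nodup_cons, List.mem_cons, List.not_mem_nil, or_false,
        not_false_eq_true, List.nodup_nil, and_self, and_true]
      omega
  hnodup j hj := by
    rw [nH_inst] at hj
    rw [hl_inst hj]
    exact List.nodup_range.filter _
  racc i hi j hj := by
    rw [nR_inst] at hi
    rw [rl_inst hi] at hj
    have h1 := mem_lt hi hj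
    rw [nH_inst, hl_inst h1]
    refine ⟨h1, ?_⟩
    rw [List.mem_filter, List.mem_range, decide_eq_true_eq]
    exact ⟨hi, hj⟩
  hacc j hj i hi := by
    rw [nH_inst] at hj
    rw [hl_inst hj, List.mem_filter, List.mem_range, decide_eq_true_eq] at hi
    rw [nR_inst, rl_inst hi.1]
    exact hi
  quota j hj := by
    rw [nH_inst] at hj
    rw [lq_inst hj, uq_inst hj]
    unfold lql
    split_ifs <;> omega
  low j hj := by
    rw [nH_inst] at hj
    rw [lq_inst hj]
    unfold lql
    split_ifs <;> omega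

/-! ### Matchings given by functions -/

/-- The assignment of `a i` to `i`. -/
def ofFun (n : ℕ) (a : ℕ → ℕ) : Finset (ℕ × ℕ) := (Finset.range n).image (fun i => (i, a i))

theorem mem_ofFun {n : ℕ} {a : ℕ → ℕ} {i j : ℕ} : (i, j) ∈ ofFun n a ↔ i < n ∧ j = a i := by
  unfold ofFun
  rw [Finset.mem_image]
  constructor
  · rintro ⟨i', hi', h⟩
    rw [Prod.mk.injEq] at h
    obtain ⟨rfl, rfl⟩ := h
    exact ⟨Finset.mem_range.1 hi', rfl⟩
  · rintro ⟨h1, rfl⟩
    exact ⟨i, Finset.mem_range.2 h1, rfl⟩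

theorem card_ofFun {n : ℕ} {a : ℕ → ℕ} : (ofFun n a).card = n := by
  unfold ofFun
  rw [Finset.card_image_of_injective, Finset.card_range]
  intro i j h
  exact (Prod.mk.inj h).1

theorem load_eq_zero {M : Finset (ℕ × ℕ)} {j : ℕ} : load M j = 0 ↔ ∀ i, (i, j) ∉ M := by
  unfold load
  rw [Finset.card_eq_zero, Finset.filter_eq_empty_iff]
  constructor
  · intro h i hi
    exact h hi rfl
  · rintro h ⟨i, j'⟩ hp rfl
    exact h i hp

theorem two_le_load {M : Finset (ℕ × ℕ)} {i i' j : ℕ} (hne : i ≠ i') (h : (i, j) ∈ M)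
    (h' : (i', j) ∈ M) : 2 ≤ load M j := by
  unfold load
  have : ({(i, j), (i', j)} : Finset (ℕ × ℕ)) ⊆ M.filter (fun p => p.2 = j) := by
    intro p hp
    rw [Finset.mem_insert, Finset.mem_singleton] at hp
    rw [Finset.mem_filter]
    rcases hp with rfl | rfl
    · exact ⟨h, rfl⟩
    · exact ⟨h', rfl⟩
  have h2 := Finset.card_le_card this
  rwa [Finset.card_pair (fun e => hne (Prod.mk.inj e).1)] at h2

theorem load_le_card {M : Finset (ℕ × ℕ)} {j : ℕ} : load M j ≤ M.card :=
  Finset.card_filter_le _ _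

theorem load_le_one {M : Finset (ℕ × ℕ)} {j : ℕ} (h : ∀ i i', (i, j) ∈ M → (i', j) ∈ M → i = i') :
    load M j ≤ 1 := by
  unfold load
  rw [Finset.card_le_one]
  rintro ⟨i, a⟩ hp ⟨i', a'⟩ hp'
  rw [Finset.mem_filter] at hp hp'
  obtain ⟨hp, rfl⟩ := hp
  obtain ⟨hp', h2⟩ := hp'
  simp only at h2
  subst h2
  rw [h i i' hp hp']

theorem card_le_of_assignment {I : Inst} {M : Finset (ℕ × ℕ)} (h : IsAssignment I M) :
    M.card ≤ nR I := by
  have h1 : (M.image Prod.fst).card = M.card :=
    Finset.card_image_of_injOn fun p hp q hq e => h.2 p (by simpa using hp) q (by simpa using hq) e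
  have h2 : M.image Prod.fst ⊆ Finset.range (nR I) := by
    intro i hi
    rw [Finset.mem_image] at hi
    obtain ⟨p, hp, rfl⟩ := hi
    exact Finset.mem_range.2 (h.1 p hp).1
  rw [← h1]
  simpa using Finset.card_le_card h2

theorem exists_of_card {I : Inst} {M : Finset (ℕ × ℕ)} (h : IsAssignment I M)
    (hc : nR I ≤ M.card) {i : ℕ} (hi : i < nR I) : ∃ j, (i, j) ∈ M := by
  have h1 : (M.image Prod.fst).card = M.card :=
    Finset.card_image_of_injOn fun p hp q hq e => h.2 p (by simpa using hp) q (by simpa using hq) e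
  have h2 : M.image Prod.fst ⊆ Finset.range (nR I) := by
    intro i hi
    rw [Finset.mem_image] at hi
    obtain ⟨p, hp, rfl⟩ := hi
    exact Finset.mem_range.2 (h.1 p hp).1
  have h3 : M.image Prod.fst = Finset.range (nR I) :=
    Finset.eq_of_subset_of_card_le h2 (by rw [h1, Finset.card_range]; exact hc)
  have h4 : i ∈ M.image Prod.fst := by
    rw [h3]
    exact Finset.mem_range.2 hi
  rw [Finset.mem_image] at h4
  obtain ⟨⟨i', j⟩, hp, rfl⟩ := h4
  exact ⟨j, hp⟩

/-! ### From a satisfying assignment to a matching -/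

/-- The hospital of the resident `i`, for a truth assignment. -/
def asg (m : ℕ) (var : ℕ → ℕ) (sgn : ℕ → Bool) (τ : ℕ → Bool) (i : ℕ) : ℕ :=
  if i < 3 * m then (if τ (var i) = sgn i then 3 * m + i / 3 else i)
  else if i < 4 * m then i
  else if i < 7 * m then (if τ (var (i - 4 * m)) = sgn (i - 4 * m) then i else i - 4 * m)
  else if cf m var sgn (i - 7 * m) = true then
    (if τ (var ((i - 7 * m) / (3 * m))) = sgn ((i - 7 * m) / (3 * m)) then
      (i - 7 * m) % (3 * m) else (i - 7 * m) / (3 * m))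
  else 3 * m + i + 3 * m * (3 * m)

variable {τ : ℕ → Bool}

theorem asg_mem (i : ℕ) : asg m var sgn τ i ∈ rlist m var sgn i := by
  unfold asg rlist
  split_ifs <;> simp

/-- True occurrences and dummy hospitals get nobody. -/
theorem asg_ne {i j : ℕ} (hi : i < 7 * m + 3 * m * (3 * m))
    (hj : (j < 3 * m ∧ τ (var j) = sgn j) ∨ (7 * m ≤ j ∧ j < 10 * m + 3 * m * (3 * m))) :
    asg m var sgn τ i ≠ j := by
  unfold asg
  split_ifs with h1 h2 h3 h4 h5 h6 h7
  · omega
  · rintro rfl
    rcases hj with hj | hj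
    · exact h2 hj.2
    · omega
  · omega
  · omega
  · rintro rfl
    rcases hj with hj | hj
    · exact h5 hj.2
    · omega
  · -- conflict, first true
    rintro rfl
    have e2 := mod_lt' (m := m) (p := i - 7 * m) (by omega)
    rcases hj with hj | hj
    · rw [cf_iff] at h6
      apply h6.2
      rw [← h7, ← hj.2, h6.1]
    · omega
  · rintro rfl
    have e1 := div_lt' (m := m) (p := i - 7 * m) (by omega)
    rcases hj with hj | hj
    · exact h7 hj.2
    · omega
  · rcases hj with hj | hj
    · omega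
    · omega

theorem stable_of_sat (hm : 0 < m)
    (h : ∀ j < m, ∃ r < 3, τ (var (3 * j + r)) = sgn (3 * j + r)) :
    PairwiseStable (inst m var sgn) (ofFun (7 * m + 3 * m * (3 * m)) (asg m var sgn τ)) := by
  have hload : ∀ j, ((j < 3 * m ∧ τ (var j) = sgn j) ∨
      (7 * m ≤ j ∧ j < 10 * m + 3 * m * (3 * m))) →
      load (ofFun (7 * m + 3 * m * (3 * m)) (asg m var sgn τ)) j = 0 := by
    intro j hj
    rw [load_eq_zero]
    intro i hi
    rw [mem_ofFun] at hi
    exact asg_ne hi.1 hj hi.2.symm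
  refine ⟨⟨⟨?_, ?_⟩, ?_⟩, ?_⟩
  · rintro ⟨i, j⟩ hp
    rw [mem_ofFun] at hp
    obtain ⟨hi, rfl⟩ := hp
    rw [nR_inst]
    refine ⟨hi, ?_⟩
    rw [rl_inst hi]
    exact asg_mem i
  · rintro ⟨i, j⟩ hp ⟨i', j'⟩ hq e
    rw [mem_ofFun] at hp hq
    simp only at e
    subst e
    rw [hp.2, hq.2]
  · intro j hj
    rw [nH_inst] at hj
    rw [lq_inst hj, uq_inst hj]
    have hub : load (ofFun (7 * m + 3 * m * (3 * m)) (asg m var sgn τ)) j ≤
        7 * m + 3 * m * (3 * m) + 1 := by
      have := load_le_card (M := ofFun (7 * m + 3 * m * (3 * m)) (asg m var sgn τ)) (j := j)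
      rw [card_ofFun] at this
      omega
    by_cases h0 : load (ofFun (7 * m + 3 * m * (3 * m)) (asg m var sgn τ)) j = 0
    · exact Or.inl h0
    · right
      refine ⟨?_, hub⟩
      unfold lql
      split_ifs with h1 h2
      · omega
      · omega
      · -- lower quota 2
        have hj1 : ¬ ((j < 3 * m ∧ τ (var j) = sgn j) ∨
            (7 * m ≤ j ∧ j < 10 * m + 3 * m * (3 * m))) := fun h => h0 (hload j h)
        by_cases hj2 : j < 3 * m
        · have ht : ¬ τ (var j) = sgn j := fun e => hj1 (Or.inl ⟨hj2, e⟩)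
          refine two_le_load (i := j) (i' := 4 * m + j) (by omega) (mem_ofFun.2 ⟨by omega, ?_⟩)
            (mem_ofFun.2 ⟨by omega, ?_⟩)
          · unfold asg
            rw [if_pos hj2, if_neg ht]
          · unfold asg
            have e : 4 * m + j - 4 * m = j := by omega
            rw [if_neg (by omega), if_neg (by omega), if_pos (by omega), e, if_neg ht]
        · have hj3 : j < 4 * m := by omega
          obtain ⟨r, hr, hr'⟩ := h (j - 3 * m) (by omega)
          refine two_le_load (i := j) (i' := 3 * (j - 3 * m) + r) (by omega)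
            (mem_ofFun.2 ⟨by omega, ?_⟩) (mem_ofFun.2 ⟨by omega, ?_⟩)
          · unfold asg
            rw [if_neg hj2, if_pos hj3]
          · unfold asg
            rw [if_pos (by omega), if_pos hr']
            omega
  · intro i hi j hj hopen hw
    exfalso
    rw [nR_inst] at hi
    have hw' := hw _ (mem_ofFun.2 ⟨hi, rfl⟩)
    rw [rl_inst hi] at hj hw'
    have key : ∀ a b : ℕ, ∀ l : List ℕ, (a :: l).idxOf b < (a :: l).idxOf a → False := by
      intro a b l h
      rw [List.idxOf_cons_self] at h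
      omega
    have key2 : ∀ a b c : ℕ, ∀ l : List ℕ, a ≠ b → (a :: b :: l).idxOf c < (a :: b :: l).idxOf b →
        c = a := by
      intro a b c l hab h
      by_contra hne
      rw [List.idxOf_cons_ne _ (Ne.symm hne), List.idxOf_cons_ne _ hab, List.idxOf_cons_self] at h
      omega
    have key3 : ∀ a b c d : ℕ, a ≠ c → b ≠ c → ([a, b, c] : List ℕ).idxOf d <
        ([a, b, c] : List ℕ).idxOf c → d = a ∨ d = b := by
      intro a b c d hac hbc h
      by_contra hne
      push Not at hne
      rw [List.idxOf_cons_ne _ (Ne.symm hne.1), List.idxOf_cons_ne _ (Ne.symm hne.2),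
        List.idxOf_cons_ne _ hac, List.idxOf_cons_ne _ hbc, List.idxOf_cons_self] at h
      omega
    unfold asg rlist at hw'
    split_ifs at hw' with h1 h2 h3 h4 h5 h6 h7
    · have := key2 _ _ _ _ (by omega) hw'
      exact hopen (hload j (Or.inl ⟨by omega, by rw [this]; exact h2⟩))
    · exact key _ _ _ hw'
    · exact key _ _ _ hw'
    · rcases key3 _ _ _ _ (by omega) (by omega) hw' with h | h
      · exact hopen (hload j (Or.inr (by omega)))
      · exact hopen (hload j (Or.inl ⟨by omega, by rw [h]; exact h5⟩))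
    · have := key2 _ _ _ _ (by omega) hw'
      exact hopen (hload j (Or.inr (by omega)))
    · have e1 := div_lt' (m := m) (p := i - 7 * m) (by omega)
      have e2 := mod_lt' (m := m) (p := i - 7 * m) (by omega)
      have e3 : (i - 7 * m) / (3 * m) ≠ (i - 7 * m) % (3 * m) := by
        intro e
        rw [cf_iff, e] at h6
        exact h6.2 rfl
      rcases key3 _ _ _ _ (by omega) e3 hw' with h | h
      · exact hopen (hload j (Or.inr (by omega)))
      · exact hopen (hload j (Or.inl ⟨by omega, by rw [h]; exact h7⟩))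
    · have e1 := div_lt' (m := m) (p := i - 7 * m) (by omega)
      have := key2 _ _ _ _ (by omega) hw'
      exact hopen (hload j (Or.inr (by omega)))
    · have : 0 < 3 * m * (3 * m) := Nat.mul_pos (by omega) (by omega)
      have := key2 _ _ _ _ (by omega) hw'
      exact hopen (hload j (Or.inr (by omega)))

/-! ### From a matching to a satisfying assignment -/

theorem exists_other {M : Finset (ℕ × ℕ)} {j : ℕ} (h : 2 ≤ load M j) (i : ℕ) :
    ∃ i', i' ≠ i ∧ (i', j) ∈ M := by
  by_contra hne
  push Not at hne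
  have : load M j ≤ 1 := load_le_one fun a b ha hb => by
    have ha' : a = i := by
      by_contra hc
      exact hne a hc ha
    have hb' : b = i := by
      by_contra hc
      exact hne b hc hb
    rw [ha', hb']
  omega

theorem sat_of_stable {M : Finset (ℕ × ℕ)} (hM : PairwiseStable (inst m var sgn) M)
    (hc : 7 * m + 3 * m * (3 * m) ≤ M.card) :
    ∃ τ : ℕ → Bool, ∀ j < m, ∃ r < 3, τ (var (3 * j + r)) = sgn (3 * j + r) := by
  classical
  obtain ⟨⟨hA, hQ⟩, hS⟩ := hM
  have hcard := card_le_of_assignment hA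
  rw [nR_inst] at hcard
  have hlist : ∀ i j, (i, j) ∈ M → i < 7 * m + 3 * m * (3 * m) ∧ j ∈ rlist m var sgn i := by
    intro i j hij
    have h := hA.1 _ hij
    rw [nR_inst] at h
    obtain ⟨h1, h2⟩ := h
    simp only at h1 h2
    rw [rl_inst h1] at h2
    exact ⟨h1, h2⟩
  have hex : ∀ i, i < 7 * m + 3 * m * (3 * m) → ∃ j, (i, j) ∈ M := fun i hi =>
    exists_of_card hA (by rw [nR_inst]; exact hc) (by rw [nR_inst]; exact hi)
  have hlow : ∀ i j, (i, j) ∈ M → lql m j ≤ load M j := by
    intro i j hij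
    obtain ⟨h1, h2⟩ := hlist i j hij
    have hj := mem_lt h1 h2
    rcases hQ j (by rw [nH_inst]; exact hj) with h | h
    · exact absurd hij (load_eq_zero.1 h i)
    · rw [lq_inst hj] at h
      exact h.1
  -- an occurrence at the hospital of its clause closes its hospital
  have hclosed : ∀ o < 3 * m, (o, 3 * m + o / 3) ∈ M → load M o = 0 := by
    intro o ho hoM
    by_contra hne
    refine hS o (by rw [nR_inst]; omega) o ?_ hne ?_ (Or.inl ?_)
    · rw [rl_inst (by omega)]
      unfold rlist
      rw [if_pos ho]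
      simp
    · intro j' hj'
      have e : j' = 3 * m + o / 3 := by
        have := hA.2 _ hj' _ hoM rfl
        exact (Prod.mk.inj this).2
      rw [e, rl_inst (by omega)]
      unfold rlist
      rw [if_pos ho, List.idxOf_cons_self, List.idxOf_cons_ne _ (by omega)]
      omega
    · rw [uq_inst (by omega)]
      have := load_le_card (M := M) (j := o)
      omega
  -- every clause gets an occurrence
  have hclause : ∀ j < m, ∃ o, o / 3 = j ∧ (o, 3 * m + o / 3) ∈ M := by
    intro j hj
    obtain ⟨j', hj'⟩ := hex (3 * m + j) (by omega)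
    have e : j' = 3 * m + j := by
      have h := (hlist _ _ hj').2
      unfold rlist at h
      rw [if_neg (by omega), if_pos (by omega)] at h
      simpa using h
    rw [e] at hj'
    have h2 : 2 ≤ load M (3 * m + j) := by
      have h := hlow _ _ hj'
      unfold lql at h
      rw [if_neg (by omega), if_neg (by omega)] at h
      exact h
    obtain ⟨o, hne, ho⟩ := exists_other h2 (3 * m + j)
    obtain ⟨h3, h4⟩ := hlist _ _ ho
    have : o < 3 * m ∧ o / 3 = j := by
      rcases mem_rlist h4 with h | h | h | h | h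
      · omega
      · omega
      · omega
      · obtain ⟨h5, -, h6⟩ := h
        have e1 := div_lt' (m := m) (p := o - 7 * m) (by omega)
        have e2 := mod_lt' (m := m) (p := o - 7 * m) (by omega)
        omega
      · omega
    exact ⟨o, this.2, by rw [this.2]; exact ho⟩
  -- two occurrences in conflict
  have hconf : ∀ o o', o < 3 * m → o' < 3 * m → (o, 3 * m + o / 3) ∈ M →
      (o', 3 * m + o' / 3) ∈ M → var o = var o' → sgn o ≠ sgn o' → False := by
    intro o o' ho ho' hoM hoM' hv hs
    have hp : 3 * m * o + o' < 3 * m * (3 * m) := by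
      have : 3 * m * (o + 1) ≤ 3 * m * (3 * m) := Nat.mul_le_mul_left _ (by omega)
      rw [Nat.mul_add] at this
      omega
    have hdiv : (3 * m * o + o') / (3 * m) = o := by
      rw [Nat.mul_add_div (by omega), Nat.div_eq_of_lt ho', Nat.add_zero]
    have hmod : (3 * m * o + o') % (3 * m) = o' := by
      rw [Nat.mul_add_mod, Nat.mod_eq_of_lt ho']
    obtain ⟨j, hj⟩ := hex (7 * m + (3 * m * o + o')) (by omega)
    have e : 7 * m + (3 * m * o + o') - 7 * m = 3 * m * o + o' := by omega
    have hcf : cf m var sgn (7 * m + (3 * m * o + o') - 7 * m) = true := by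
      rw [cf_iff, e, hdiv, hmod]
      exact ⟨hv, hs⟩
    have hl := (hlist _ _ hj).2
    unfold rlist at hl
    rw [if_neg (by omega), if_neg (by omega), if_neg (by omega), if_pos hcf, e, hdiv, hmod] at hl
    simp only [List.mem_cons, List.not_mem_nil, or_false] at hl
    rcases hl with hl | hl | hl
    · have h2 : 2 ≤ load M j := by
        have h := hlow _ _ hj
        unfold lql at h
        rw [if_neg (by omega), if_neg (by omega)] at h
        exact h
      obtain ⟨i', hne, hi'⟩ := exists_other h2 (7 * m + (3 * m * o + o'))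
      obtain ⟨h3, h4⟩ := hlist _ _ hi'
      rcases mem_rlist h4 with h | h | h | h | h
      · omega
      · omega
      · omega
      · obtain ⟨h5, -, h6⟩ := h
        have e1 := div_lt' (m := m) (p := i' - 7 * m) (by omega)
        have e2 := mod_lt' (m := m) (p := i' - 7 * m) (by omega)
        omega
      · omega
    · rw [hl] at hj
      exact load_eq_zero.1 (hclosed o ho hoM) _ hj
    · rw [hl] at hj
      exact load_eq_zero.1 (hclosed o' ho' hoM') _ hj
  refine ⟨fun x => decide (∃ o < 3 * m, (o, 3 * m + o / 3) ∈ M ∧ var o = x ∧ sgn o = true), ?_⟩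
  intro j hj
  obtain ⟨o, ho, hoM⟩ := hclause j hj
  refine ⟨o % 3, Nat.mod_lt _ (by norm_num), ?_⟩
  have e : 3 * j + o % 3 = o := by omega
  have ho3 : o < 3 * m := by omega
  rw [e]
  cases hs : sgn o with
  | true => exact decide_eq_true ⟨o, ho3, hoM, rfl, hs⟩
  | false =>
    refine decide_eq_false ?_
    rintro ⟨o', ho', hoM', hv, hs'⟩
    exact hconf o o' ho3 ho' hoM hoM' hv.symm (by rw [hs, hs']; exact Bool.false_ne_true)

/-! ### No hospital is popular -/

/-- The first choice of the resident `i`. -/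
def first (m i : ℕ) : ℕ := if i < 4 * m then i else 3 * m + i

theorem rlist_first (i : ℕ) : ∃ l, rlist m var sgn i = first m i :: l := by
  unfold rlist first
  split_ifs <;> first | omega | exact ⟨_, rfl⟩

theorem first_inj {i i' : ℕ} (h : first m i = first m i') : i = i' := by
  unfold first at h
  split_ifs at h <;> omega

theorem classical_first : ClassicallyStable (inst m var sgn)
    (ofFun (7 * m + 3 * m * (3 * m)) (first m)) := by
  refine ⟨⟨⟨?_, ?_⟩, ?_⟩, ?_⟩
  · rintro ⟨i, j⟩ hp
    rw [mem_ofFun] at hp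
    obtain ⟨hi, rfl⟩ := hp
    rw [nR_inst]
    refine ⟨hi, ?_⟩
    obtain ⟨l, hl⟩ := rlist_first (m := m) (var := var) (sgn := sgn) i
    simp only
    rw [rl_inst hi, hl]
    exact List.mem_cons_self
  · rintro ⟨i, j⟩ hp ⟨i', j'⟩ hq e
    rw [mem_ofFun] at hp hq
    simp only at e
    subst e
    rw [hp.2, hq.2]
  · intro j hj
    rw [nH_inst] at hj
    rw [uq_inst hj]
    have := load_le_card (M := ofFun (7 * m + 3 * m * (3 * m)) (first m)) (j := j)
    rw [card_ofFun] at this
    omega
  · intro i hi j hj hw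
    exfalso
    rw [nR_inst] at hi
    have h := hw _ (mem_ofFun.2 ⟨hi, rfl⟩)
    obtain ⟨l, hl⟩ := rlist_first (m := m) (var := var) (sgn := sgn) i
    rw [rl_inst hi, hl, List.idxOf_cons_self] at h
    omega

theorem not_popular {j : ℕ} (hj : j < nH (inst m var sgn)) : ¬ Popular (inst m var sgn) j := by
  rintro ⟨M, ⟨hM, hopt⟩, hl⟩
  have hfirst : ∀ i j, (i, j) ∈ M → i < 7 * m + 3 * m * (3 * m) ∧ j = first m i := by
    intro i j hij
    have hi : i < 7 * m + 3 * m * (3 * m) := by
      have := (hM.1.1.1 _ hij).1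
      rw [nR_inst] at this
      exact this
    refine ⟨hi, ?_⟩
    obtain ⟨j', hj', hle⟩ := hopt _ classical_first i (first m i) (mem_ofFun.2 ⟨hi, rfl⟩)
    have e : j = j' := by
      have := hM.1.1.2 _ hij _ hj' rfl
      exact (Prod.mk.inj this).2
    obtain ⟨l, hl⟩ := rlist_first (m := m) (var := var) (sgn := sgn) i
    rw [rl_inst hi, hl, List.idxOf_cons_self] at hle
    by_contra hne
    rw [List.idxOf_cons_ne _ (by rw [← e]; exact fun h => hne h.symm)] at hle
    omega
  rw [nH_inst] at hj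
  rw [lq_inst hj] at hl
  have h1 : load M j ≤ 1 := load_le_one fun i i' hi hi' => by
    apply first_inj (m := m)
    rw [← (hfirst _ _ hi).2, ← (hfirst _ _ hi').2]
  have h0 : 4 * m ≤ j ∧ j < 7 * m ∨ 10 * m + 3 * m * (3 * m) ≤ j → load M j = 0 := by
    intro h
    rw [load_eq_zero]
    intro i hi
    obtain ⟨h2, h3⟩ := hfirst _ _ hi
    unfold first at h3
    split_ifs at h3 <;> omega
  unfold lql at hl
  split_ifs at hl with h2 h3
  · rw [h0 (Or.inl h2)] at hl
    omega
  · rw [h0 (Or.inr h3)] at hl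
    omega
  · omega

/-! ### The reduction -/

/-- The reduction. -/
def red (φ : List (Lit ℕ × Lit ℕ × Lit ℕ)) : Inst × ℕ :=
  (inst φ.length (vr φ) (sg φ), 7 * φ.length + 3 * φ.length * (3 * φ.length))

theorem problemA_red {φ : List (Lit ℕ × Lit ℕ × Lit ℕ)} (hφ : φ ≠ []) :
    ProblemA (red φ) ↔ SAT3 φ := by
  have hm : 0 < φ.length := List.length_pos_iff.2 hφ
  rw [sat_iff]
  unfold ProblemA red
  constructor
  · rintro ⟨-, M, hM, hc⟩
    exact sat_of_stable hM hc
  · rintro ⟨τ, hτ⟩
    exact ⟨wf_inst hm, _, stable_of_sat hm hτ, by rw [card_ofFun]⟩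

theorem problemB_red {φ : List (Lit ℕ × Lit ℕ × Lit ℕ)} (hφ : φ ≠ []) :
    ProblemB (red φ) ↔ SAT3 φ := by
  rw [← problemA_red hφ]
  unfold ProblemA ProblemB red
  refine and_congr_right fun _ => exists_congr fun M => and_congr_right fun _ => ?_
  constructor
  · exact fun h => h.2
  · exact fun h => ⟨fun j hj hp => absurd hp (not_popular hj), h⟩

theorem poly_cf {α : Type} [TEnc α] {φ : α → List (Lit ℕ × Lit ℕ × Lit ℕ)} {p : α → ℕ}
    (hφ : Poly φ) (hp : Poly p) :
    Poly (fun a => cf (φ a).length (vr (φ a)) (sg (φ a)) (p a)) := by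
  have h3 : Poly (fun a => 3 * (φ a).length) := Poly.mul (NPC.Poly.const 3) (Poly.length hφ)
  have hd := Poly.div hp h3
  have hm := Poly.mod hp h3
  unfold cf
  exact NPC.Poly.and (Poly.decide_eq (poly_vr hφ hd) (poly_vr hφ hm))
    (NPC.Poly.not (Poly.decide_eq (poly_sg hφ hd) (poly_sg hφ hm)))

theorem poly_rlist {α : Type} [TEnc α] {φ : α → List (Lit ℕ × Lit ℕ × Lit ℕ)} {i : α → ℕ}
    (hφ : Poly φ) (hi : Poly i) :
    Poly (fun a => rlist (φ a).length (vr (φ a)) (sg (φ a)) (i a)) := by
  have hc : ∀ c : ℕ, Poly (fun a => c * (φ a).length) := fun c =>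
    Poly.mul (NPC.Poly.const c) (Poly.length hφ)
  have h3 : Poly (fun a => 3 * (φ a).length + i a) := Poly.add (hc 3) hi
  have h7 : Poly (fun a => i a - 7 * (φ a).length) := Poly.sub hi (hc 7)
  have hn : ∀ {β : Type} [TEnc β], Poly (fun _ : α => ([] : List β)) := NPC.Poly.const _
  unfold rlist
  refine Poly.ite (Poly.decide_lt hi (hc 3)) (Poly.cons hi (Poly.cons
    (Poly.add (hc 3) (Poly.div hi (NPC.Poly.const 3))) hn)) ?_
  refine Poly.ite (Poly.decide_lt hi (hc 4)) (Poly.cons hi hn) ?_
  refine Poly.ite (Poly.decide_lt hi (hc 7)) (Poly.cons h3 (Poly.cons (Poly.sub hi (hc 4))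
    (Poly.cons hi hn))) ?_
  refine Poly.ite (Poly.decide_bool (poly_cf hφ h7)) (Poly.cons h3 (Poly.cons
    (Poly.div h7 (hc 3)) (Poly.cons (Poly.mod h7 (hc 3)) hn))) ?_
  exact Poly.cons h3 (Poly.cons (Poly.add h3 (Poly.mul (hc 3) (hc 3))) hn)

theorem red_poly : Poly red := by
  have hm : UPoly (fun φ : List (Lit ℕ × Lit ℕ × Lit ℕ) => φ.length) := UPoly.length Poly.id
  have hc : ∀ c : ℕ, UPoly (fun φ : List (Lit ℕ × Lit ℕ × Lit ℕ) => c * φ.length) := fun c =>
    UPoly.mul (UPoly.const c) hm
  have hR : UPoly (fun φ : List (Lit ℕ × Lit ℕ × Lit ℕ) =>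
      7 * φ.length + 3 * φ.length * (3 * φ.length)) :=
    UPoly.add (hc 7) (UPoly.mul (hc 3) (hc 3))
  have hH : UPoly (fun φ : List (Lit ℕ × Lit ℕ × Lit ℕ) =>
      10 * φ.length + 2 * (3 * φ.length * (3 * φ.length))) :=
    UPoly.add (hc 10) (UPoly.mul (UPoly.const 2) (UPoly.mul (hc 3) (hc 3)))
  unfold red inst
  refine Poly.pair (Poly.pair ?_ (Poly.pair ?_ ?_)) hR.toPoly
  · exact NPC.Poly.map (F := fun (φ : List (Lit ℕ × Lit ℕ × Lit ℕ)) i =>
      rlist φ.length (vr φ) (sg φ) i) hR.range
      (poly_rlist (Poly.fst Poly.id) (Poly.snd Poly.id))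
  · refine NPC.Poly.map (F := fun (φ : List (Lit ℕ × Lit ℕ × Lit ℕ)) j =>
      (List.range (7 * φ.length + 3 * φ.length * (3 * φ.length))).filter
        (fun i => decide (j ∈ rlist φ.length (vr φ) (sg φ) i))) hH.range ?_
    refine Poly.filter (p := fun (x : List (Lit ℕ × Lit ℕ × Lit ℕ) × ℕ) i =>
      decide (x.2 ∈ rlist x.1.length (vr x.1) (sg x.1) i)) (hR.range.comp (Poly.fst Poly.id)) ?_
    exact Poly.decide_mem (Poly.snd (Poly.fst Poly.id))
      (poly_rlist (Poly.fst (Poly.fst Poly.id)) (Poly.snd Poly.id))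
  · refine NPC.Poly.map (F := fun (φ : List (Lit ℕ × Lit ℕ × Lit ℕ)) j =>
      (lql φ.length j, 7 * φ.length + 3 * φ.length * (3 * φ.length) + 1)) hH.range ?_
    have hφ : Poly (fun x : List (Lit ℕ × Lit ℕ × Lit ℕ) × ℕ => x.1) := Poly.fst Poly.id
    have hj : Poly (fun x : List (Lit ℕ × Lit ℕ × Lit ℕ) × ℕ => x.2) := Poly.snd Poly.id
    have hc' : ∀ c : ℕ, Poly (fun x : List (Lit ℕ × Lit ℕ × Lit ℕ) × ℕ => c * x.1.length) :=
      fun c => Poly.mul (NPC.Poly.const c) (Poly.length hφ)
    unfold lql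
    refine Poly.pair ?_ (Poly.succ (Poly.add (hc' 7) (Poly.mul (hc' 3) (hc' 3))))
    exact Poly.ite (Poly.decide_and (Poly.decide_le (hc' 4) hj) (Poly.decide_lt hj (hc' 7)))
      (NPC.Poly.const 1) (Poly.ite (Poly.decide_le (Poly.add (hc' 10)
        (Poly.mul (hc' 3) (hc' 3))) hj) (NPC.Poly.const 1) (NPC.Poly.const 2))

theorem npHardA : NPHardP ProblemA :=
  (HardPr.trans (Pr' := fun _ => True) hardPr_SAT3b red_poly (fun _ _ => trivial)
    (Q := ProblemA) (fun _ hφ => (problemA_red hφ.2.2).symm)).toHardI.toNPHardP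

theorem npHardB : NPHardP ProblemB :=
  (HardPr.trans (Pr' := fun _ => True) hardPr_SAT3b red_poly (fun _ _ => trivial)
    (Q := ProblemB) (fun _ hφ => (problemB_red hφ.2.2).symm)).toHardI.toNPHardP

end Pool.Agent.H420.HRLQ
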