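import Pool.Agent.H420.Gr

/-!
# Symmetrising a matrix by a permutation of its rows: the reduction
-/

namespace Pool.Agent.H420.MSym

open Pool.Agent.NPC Pool.Agent.H420.Gr

/-- Some permutation of the rows makes the matrix `A` of size `n` symmetric. -/
def Sym (n : ℕ) (A : ℕ → ℕ → Bool) : Prop :=
  ∃ σ : Equiv.Perm (Fin n), ∀ i j : Fin n, A (σ i) j = A (σ j) i

/-- The same with a permutation preserving the labels. -/
def LSym (n : ℕ) (w : ℕ → ℕ) (E : ℕ → ℕ → Bool) : Prop :=
  ∃ σ : Equiv.Perm (Fin n), (∀ i, w (σ i) = w i) ∧ ∀ i j : Fin n, E (σ i) j = E (σ j) i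

/-! ### Labels -/

/-- The matrix with private rows and columns: each row `i` gets `w i` columns of its own, and each
column `j` gets `w j` rows of its own. -/
def big (N W : ℕ) (w : ℕ → ℕ) (E : ℕ → ℕ → Bool) (i j : ℕ) : Bool :=
  if i < N then
    if j < N then E i j else decide ((j - N) / W = i) && decide ((j - N) % W < w i)
  else if j < N then decide ((i - N) / W = j) && decide ((i - N) % W < w j) else false

section label

variable {N W : ℕ} {w : ℕ → ℕ} {E : ℕ → ℕ → Bool}

theorem big_oo {i j : ℕ} (hi : i < N) (hj : j < N) : big N W w E i j = E i j := by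
  unfold big
  rw [if_pos hi, if_pos hj]

theorem big_op {i j : ℕ} (hi : i < N) (hj : ¬ j < N) :
    big N W w E i j = true ↔ (j - N) / W = i ∧ (j - N) % W < w i := by
  unfold big
  rw [if_pos hi, if_neg hj, Bool.and_eq_true, decide_eq_true_eq, decide_eq_true_eq]

theorem big_po {i j : ℕ} (hi : ¬ i < N) (hj : j < N) :
    big N W w E i j = true ↔ (i - N) / W = j ∧ (i - N) % W < w j := by
  unfold big
  rw [if_neg hi, if_pos hj, Bool.and_eq_true, decide_eq_true_eq, decide_eq_true_eq]

theorem big_pp {i j : ℕ} (hi : ¬ i < N) (hj : ¬ j < N) : big N W w E i j = false := by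
  unfold big
  rw [if_neg hi, if_neg hj]

theorem pad_lt {r k : ℕ} (hr : r < N) (hk : k < W) : N + (r * W + k) < N + N * W := by
  have : (r + 1) * W ≤ N * W := Nat.mul_le_mul_right _ (by omega)
  rw [Nat.add_mul] at this
  omega

theorem pad_div {r k : ℕ} (hk : k < W) : (N + (r * W + k) - N) / W = r := by
  rw [Nat.add_sub_cancel_left, Nat.add_comm, Nat.add_mul_div_right _ _ (by omega),
    Nat.div_eq_of_lt hk, Nat.zero_add]

theorem pad_mod {r k : ℕ} (hk : k < W) : (N + (r * W + k) - N) % W = k := by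
  rw [Nat.add_sub_cancel_left, Nat.add_comm, Nat.add_mul_mod_self_right, Nat.mod_eq_of_lt hk]

theorem div_lt_N {i : ℕ} (hi : i < N + N * W) (hi' : ¬ i < N) : (i - N) / W < N :=
  Nat.div_lt_of_lt_mul (by rw [Nat.mul_comm]; omega)

theorem pad_eq {i : ℕ} (hi : ¬ i < N) : N + ((i - N) / W * W + (i - N) % W) = i := by
  rw [Nat.div_add_mod']
  omega

theorem sym_to_lsym (hw : ∀ i < N, 2 ≤ w i ∧ w i ≤ W) (h : Sym (N + N * W) (big N W w E)) :
    LSym N w E := by
  obtain ⟨σ, hσ⟩ := h
  have hT : ∀ {c : ℕ}, c < N → c < N + N * W := fun h => by omega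
  -- ordinary columns go to ordinary rows
  have h1 : ∀ c : Fin (N + N * W), c.val < N → (σ c).val < N := by
    intro c hc
    by_contra hne
    obtain ⟨hw2, hwW⟩ := hw c.val hc
    have key : ∀ k, (hk : k < w c.val) → (σ c - N) / W =
        (σ.symm ⟨N + (c.val * W + k), pad_lt hc (by omega)⟩ : Fin (N + N * W)).val := by
      intro k hk
      have hkW : k < W := by omega
      set p : Fin (N + N * W) := ⟨N + (c.val * W + k), pad_lt hc hkW⟩ with hp
      have e1 : big N W w E (σ (σ.symm p)) c = true := by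
        rw [Equiv.apply_symm_apply]
        refine (big_po (by simp [hp]) hc).2 ⟨?_, ?_⟩
        · exact pad_div hkW
        · rw [hp]
          simp only
          rw [pad_mod hkW]
          exact hk
      rw [hσ] at e1
      by_cases hd : (σ.symm p).val < N
      · exact ((big_po hne hd).1 e1).1
      · rw [big_pp hne hd] at e1
        exact absurd e1 Bool.false_ne_true
    have e0 := key 0 (by omega)
    have e1 := key 1 (by omega)
    rw [e0] at e1
    have e2 := σ.symm.injective (Fin.val_injective e1)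
    rw [Fin.mk.injEq] at e2
    omega
  -- private columns go to private rows
  have h2 : ∀ c : Fin (N + N * W), ¬ c.val < N → ¬ (σ c).val < N := by
    have himg : (Finset.univ.filter (fun c : Fin (N + N * W) => c.val < N)).image σ =
        Finset.univ.filter (fun c : Fin (N + N * W) => c.val < N) := by
      apply Finset.eq_of_subset_of_card_le
      · intro d hd
        rw [Finset.mem_image] at hd
        obtain ⟨c, hc, rfl⟩ := hd
        rw [Finset.mem_filter] at hc ⊢
        exact ⟨Finset.mem_univ _, h1 c hc.2⟩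
      · rw [Finset.card_image_of_injective _ σ.injective]
    intro c hc hc'
    have : σ c ∈ (Finset.univ.filter (fun c : Fin (N + N * W) => c.val < N)).image σ := by
      rw [himg, Finset.mem_filter]
      exact ⟨Finset.mem_univ _, hc'⟩
    rw [Finset.mem_image] at this
    obtain ⟨d, hd, hd'⟩ := this
    rw [Finset.mem_filter] at hd
    rw [← σ.injective hd'] at hc
    exact hc hd.2
  -- labels
  have h3 : ∀ c : Fin (N + N * W), c.val < N → w (σ c) = w c := by
    intro c hc
    have hr := h1 c hc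
    obtain ⟨hw2, hwW⟩ := hw c.val hc
    obtain ⟨hw2', hwW'⟩ := hw _ hr
    apply le_antisymm
    · -- private columns of the row `σ c`
      have hf : ∀ k : Fin (w (σ c)), ∃ l : Fin (w c), (σ ⟨N + ((σ c).val * W + k.val),
          pad_lt hr (by omega)⟩).val = N + (c.val * W + l.val) := by
        intro k
        have hkW : k.val < W := by omega
        set p : Fin (N + N * W) := ⟨N + ((σ c).val * W + k.val), pad_lt hr hkW⟩ with hp
        have hpN : ¬ p.val < N := by simp [hp]
        have e1 : big N W w E (σ c) p = true := by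
          refine (big_op hr hpN).2 ⟨?_, ?_⟩
          · exact pad_div hkW
          · rw [hp]
            simp only
            rw [pad_mod hkW]
            exact k.2
        rw [hσ] at e1
        obtain ⟨e2, e3⟩ := (big_po (h2 p hpN) hc).1 e1
        refine ⟨⟨_, e3⟩, ?_⟩
        simp only
        conv_rhs => rw [← e2]
        exact (pad_eq (h2 p hpN)).symm
      choose f hf using hf
      have hinj : Function.Injective f := by
        intro k k' hkk
        have e1 := hf k
        rw [hkk, ← hf k'] at e1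
        have e2 := σ.injective (Fin.val_injective e1)
        rw [Fin.mk.injEq] at e2
        exact Fin.ext (by omega)
      simpa using Fintype.card_le_of_injective f hinj
    · have hf : ∀ k : Fin (w c), ∃ l : Fin (w (σ c)), (σ.symm ⟨N + (c.val * W + k.val),
          pad_lt hc (by omega)⟩).val = N + ((σ c).val * W + l.val) := by
        intro k
        have hkW : k.val < W := by omega
        set p : Fin (N + N * W) := ⟨N + (c.val * W + k.val), pad_lt hc hkW⟩ with hp
        have hpN : ¬ p.val < N := by simp [hp]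
        have hd : ¬ (σ.symm p).val < N := by
          intro hd
          have := h1 _ hd
          rw [Equiv.apply_symm_apply] at this
          exact hpN this
        have e1 : big N W w E (σ (σ.symm p)) c = true := by
          rw [Equiv.apply_symm_apply]
          refine (big_po hpN hc).2 ⟨?_, ?_⟩
          · exact pad_div hkW
          · rw [hp]
            simp only
            rw [pad_mod hkW]
            exact k.2
        rw [hσ] at e1
        obtain ⟨e2, e3⟩ := (big_op hr hd).1 e1
        refine ⟨⟨_, e3⟩, ?_⟩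
        simp only
        conv_rhs => rw [← e2]
        exact (pad_eq hd).symm
      choose f hf using hf
      have hinj : Function.Injective f := by
        intro k k' hkk
        have e1 := hf k
        rw [hkk, ← hf k'] at e1
        have e2 := σ.symm.injective (Fin.val_injective e1)
        rw [Fin.mk.injEq] at e2
        exact Fin.ext (by omega)
      simpa using Fintype.card_le_of_injective f hinj
  -- the permutation
  let g : Fin N → Fin N := fun i => ⟨σ ⟨i.val, hT i.2⟩, h1 _ i.2⟩
  have hg : ∀ i : Fin N, (g i).val = (σ ⟨i.val, hT i.2⟩).val := fun _ => rfl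
  have hinj : Function.Injective g := by
    intro i j hij
    have e1 := congrArg Fin.val hij
    rw [hg, hg] at e1
    have e2 := σ.injective (Fin.val_injective e1)
    rw [Fin.mk.injEq] at e2
    exact Fin.ext e2
  refine ⟨Equiv.ofBijective g (Finite.injective_iff_bijective.1 hinj), ?_, ?_⟩
  · intro i
    exact h3 _ i.2
  · intro i j
    have := hσ ⟨i.val, hT i.2⟩ ⟨j.val, hT j.2⟩
    rw [big_oo (h1 _ i.2) j.2, big_oo (h1 _ j.2) i.2] at this
    exact this

theorem lsym_to_sym (hw : ∀ i < N, 2 ≤ w i ∧ w i ≤ W) (h : LSym N w E) :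
    Sym (N + N * W) (big N W w E) := by
  obtain ⟨g, hgw, hg⟩ := h
  rcases Nat.eq_zero_or_pos N with h0 | hN
  · subst h0
    refine ⟨Equiv.refl _, fun i => ?_⟩
    exact absurd i.2 (by omega)
  have hW : 0 < W := by
    have := hw 0 hN
    omega
  have hmod : ∀ i, (i - N) % W < W := fun i => Nat.mod_lt _ hW
  let f : Fin (N + N * W) → Fin (N + N * W) := fun i =>
    if h : i.val < N then ⟨g ⟨i.val, h⟩, by omega⟩
    else ⟨N + ((g.symm ⟨(i.val - N) / W, div_lt_N i.2 h⟩).val * W + (i.val - N) % W),
      pad_lt (Fin.is_lt _) (hmod _)⟩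
  have hf1 : ∀ (i : Fin (N + N * W)) (h : i.val < N), (f i).val = (g ⟨i.val, h⟩).val := by
    intro i h
    simp only [f]
    rw [dif_pos h]
  have hf2 : ∀ (i : Fin (N + N * W)) (h : ¬ i.val < N), (f i).val =
      N + ((g.symm ⟨(i.val - N) / W, div_lt_N i.2 h⟩).val * W + (i.val - N) % W) := by
    intro i h
    simp only [f]
    rw [dif_neg h]
  have hf1' : ∀ (i : Fin (N + N * W)), i.val < N → (f i).val < N := by
    intro i h
    rw [hf1 i h]
    exact Fin.is_lt _
  have hf2' : ∀ (i : Fin (N + N * W)), ¬ i.val < N → ¬ (f i).val < N := by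
    intro i h
    rw [hf2 i h]
    omega
  have hinj : Function.Injective f := by
    intro i j hij
    have hv := congrArg Fin.val hij
    by_cases hi : i.val < N
    · have hj : j.val < N := by
        by_contra hj
        have h1 := hf1' i hi
        have h2 := hf2' j hj
        omega
      rw [hf1 i hi, hf1 j hj] at hv
      have := g.injective (Fin.val_injective hv)
      rw [Fin.mk.injEq] at this
      exact Fin.ext this
    · have hj : ¬ j.val < N := by
        intro hj
        have h1 := hf1' j hj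
        have h2 := hf2' i hi
        omega
      rw [hf2 i hi, hf2 j hj] at hv
      have e1 := congrArg (fun n => (n - N) / W) hv
      have e2 := congrArg (fun n => (n - N) % W) hv
      beta_reduce at e1 e2
      rw [pad_div (hmod _), pad_div (hmod _)] at e1
      rw [pad_mod (hmod _), pad_mod (hmod _)] at e2
      have e3 := g.symm.injective (Fin.val_injective e1)
      rw [Fin.mk.injEq] at e3
      have e4 := pad_eq (W := W) hi
      rw [e3, e2, pad_eq hj] at e4
      exact Fin.ext e4.symm
  refine ⟨Equiv.ofBijective f (Finite.injective_iff_bijective.1 hinj), ?_⟩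
  intro i j
  change big N W w E (f i) j = big N W w E (f j) i
  have key : ∀ i j : Fin (N + N * W), i.val < N → ¬ j.val < N →
      (big N W w E (f i) j = true ↔ big N W w E (f j) i = true) := by
    intro i j hi hj
    rw [big_op (hf1' i hi) hj, big_po (hf2' j hj) hi, hf2 j hj, pad_div (hmod _), pad_mod (hmod _),
      hf1 i hi]
    have e1 : w (g ⟨i.val, hi⟩) = w i := hgw ⟨i.val, hi⟩
    rw [e1]
    refine and_congr_left fun _ => ?_
    constructor
    · intro h
      have : (⟨(j.val - N) / W, div_lt_N j.2 hj⟩ : Fin N) = g ⟨i.val, hi⟩ := Fin.ext h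
      rw [this, Equiv.symm_apply_apply]
    · intro h
      have : g.symm ⟨(j.val - N) / W, div_lt_N j.2 hj⟩ = ⟨i.val, hi⟩ := Fin.ext h
      rw [← this, Equiv.apply_symm_apply]
  by_cases hi : i.val < N
  · by_cases hj : j.val < N
    · rw [big_oo (hf1' i hi) hj, big_oo (hf1' j hj) hi, hf1 i hi, hf1 j hj]
      exact hg ⟨i.val, hi⟩ ⟨j.val, hj⟩
    · exact Bool.eq_iff_iff.2 (key i j hi hj)
  · by_cases hj : j.val < N
    · exact (Bool.eq_iff_iff.2 (key j i hj hi)).symm
    · rw [big_pp (hf2' i hi) hj, big_pp (hf2' j hj) hi]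

theorem sym_iff (hw : ∀ i < N, 2 ≤ w i ∧ w i ≤ W) :
    Sym (N + N * W) (big N W w E) ↔ LSym N w E :=
  ⟨sym_to_lsym hw, lsym_to_sym hw⟩

end label

/-! ### The reduction -/

/-- The bit number `i` of the block of the clause element `c`. -/
def vb (c i : ℕ) : ℕ := if i = 0 then c / 2 % 2 else if i = 1 then c / 4 % 2 else c / 8 % 2

/-- Whether `x` is the variable of an occurrence `i` in the clause of the clause element `c`, and
the bit `i` of `c` is `a` plus the shift of the occurrence. -/
def occ (var : ℕ → ℕ) (f : ℕ → ℕ) (c x a : ℕ) : Bool :=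
  (List.range 3).any fun i => decide (var (3 * (c / 48) + i) = x) &&
    decide (vb c i = (a + f (3 * (c / 48) + i)) % 2)

/-- The twist. -/
def tw (p q : ℕ) : ℕ := if p = 2 ∧ q = 0 then 1 else 0

/-- Incidences between clause elements. -/
def blk (r c : ℕ) : Bool :=
  (decide (r / 48 = c / 48) && decide (r / 2 % 8 = c / 2 % 8)) &&
    (!decide (r / 16 % 3 = c / 16 % 3) &&
      decide (r % 2 = (c % 2 + tw (r / 16 % 3) (c / 16 % 3)) % 2))

/-- The shift of a negative occurrence is 1. -/
def ff (sgn : ℕ → Bool) (o : ℕ) : ℕ := if sgn o = true then 0 else 1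

/-- The labelled matrix of the reduction. -/
def EE (m : ℕ) (var : ℕ → ℕ) (sgn : ℕ → Bool) (r c : ℕ) : Bool :=
  if r < 6 * m then
    if c < 6 * m then false else occ var (fun _ => 0) (c - 6 * m) (r / 2) (r % 2)
  else if c < 6 * m then occ var (ff sgn) (r - 6 * m) (c / 2) (c % 2)
  else blk (r - 6 * m) (c - 6 * m)

/-- The labels. -/
def ww (m o : ℕ) : ℕ := if o < 6 * m then o / 2 + 2 else 3 * m + (o - 6 * m) / 16 + 2

variable {m : ℕ} {var : ℕ → ℕ} {sgn : ℕ → Bool}

theorem occ_iff {f : ℕ → ℕ} {c x a : ℕ} : occ var f c x a = true ↔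
    ∃ i < 3, var (3 * (c / 48) + i) = x ∧ vb c i = (a + f (3 * (c / 48) + i)) % 2 := by
  unfold occ
  simp only [List.any_eq_true, List.mem_range, Bool.and_eq_true, decide_eq_true_eq]

theorem blk_iff {r c : ℕ} : blk r c = true ↔ r / 48 = c / 48 ∧ r / 2 % 8 = c / 2 % 8 ∧
    r / 16 % 3 ≠ c / 16 % 3 ∧ r % 2 = (c % 2 + tw (r / 16 % 3) (c / 16 % 3)) % 2 := by
  unfold blk
  simp only [Bool.and_eq_true, decide_eq_true_eq, Bool.not_eq_true', decide_eq_false_iff_not,
    and_assoc, ne_eq]

theorem EE_vv {r c : ℕ} (hr : r < 6 * m) (hc : c < 6 * m) : EE m var sgn r c = false := by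
  unfold EE
  rw [if_pos hr, if_pos hc]

theorem EE_vc {r c : ℕ} (hr : r < 6 * m) (hc : ¬ c < 6 * m) :
    EE m var sgn r c = occ var (fun _ => 0) (c - 6 * m) (r / 2) (r % 2) := by
  unfold EE
  rw [if_pos hr, if_neg hc]

theorem EE_cv {r c : ℕ} (hr : ¬ r < 6 * m) (hc : c < 6 * m) :
    EE m var sgn r c = occ var (ff sgn) (r - 6 * m) (c / 2) (c % 2) := by
  unfold EE
  rw [if_neg hr, if_pos hc]

theorem EE_cc {r c : ℕ} (hr : ¬ r < 6 * m) (hc : ¬ c < 6 * m) :
    EE m var sgn r c = blk (r - 6 * m) (c - 6 * m) := by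
  unfold EE
  rw [if_neg hr, if_neg hc]

theorem ww_bound {o : ℕ} (ho : o < 54 * m) : 2 ≤ ww m o ∧ ww m o ≤ 6 * m + 2 := by
  unfold ww
  split_ifs <;> omega

/-- From a symmetrising permutation to a satisfying assignment. -/
theorem sat_of_lsym (hdist : ∀ j < m, ∀ i < 3, ∀ i' < 3, var (3 * j + i) = var (3 * j + i') →
    i = i') (hvar : ∀ o < 3 * m, var o < 3 * m) (h : LSym (54 * m) (ww m) (EE m var sgn)) :
    ∃ τ : ℕ → Bool, ∀ j < m, ∃ r < 3, τ (var (3 * j + r)) = sgn (3 * j + r) := by
  obtain ⟨σ, hw, hσ⟩ := h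
  have hs0 : ∀ x, x < 3 * m → ∃ s : ℕ, s < 2 ∧ ∀ h : 2 * x < 54 * m, (σ ⟨2 * x, h⟩).val = 2 * x + s := by
    intro x hx
    have hlt : 2 * x < 54 * m := by omega
    have h1 := hw ⟨2 * x, hlt⟩
    unfold ww at h1
    simp only at h1
    rw [if_pos (by omega : 2 * x < 6 * m)] at h1
    by_cases hy : (σ ⟨2 * x, hlt⟩).val < 6 * m
    · rw [if_pos hy] at h1
      exact ⟨(σ ⟨2 * x, hlt⟩).val - 2 * x, by omega, fun _ => by omega⟩
    · rw [if_neg hy] at h1
      omega
  refine ⟨fun x => decide (∃ h : 2 * x < 54 * m, (σ ⟨2 * x, h⟩).val = 2 * x + 1), ?_⟩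
  intro j hj
  by_contra hno
  push Not at hno
  -- the element number `p` of the block 0
  have hk : ∀ p < 3, ∃ k < 2, ∀ h : 6 * m + 48 * j + 16 * p < 54 * m,
      (σ ⟨6 * m + 48 * j + 16 * p, h⟩).val = 6 * m + 48 * j + 16 * p + k := by
    intro p hp
    have hlt : 6 * m + 48 * j + 16 * p < 54 * m := by omega
    set e : Fin (54 * m) := ⟨6 * m + 48 * j + 16 * p, hlt⟩ with he
    have hev : e.val = 6 * m + 48 * j + 16 * p := rfl
    have h1 := hw e
    unfold ww at h1
    rw [if_neg (by omega : ¬ e.val < 6 * m)] at h1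
    have hge : ¬ (σ e).val < 6 * m := by
      intro hy
      rw [if_pos hy] at h1
      omega
    rw [if_neg hge] at h1
    have hdiv : ((σ e).val - 6 * m) / 16 = 3 * j + p := by omega
    have hdiv48 : ((σ e).val - 6 * m) / 48 = j := by omega
    -- the bits are 0
    have hbit : ∀ i < 3, vb ((σ e).val - 6 * m) i = 0 := by
      intro i hi
      have hx := hvar (3 * j + i) (by omega)
      obtain ⟨s, hs2, hs⟩ := hs0 _ hx
      have hxlt : 2 * var (3 * j + i) < 54 * m := by omega
      have hs' := hs hxlt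
      have hfs : ff sgn (3 * j + i) = s := by
        have hno' := hno i hi
        unfold ff
        cases hsg : sgn (3 * j + i) with
        | true =>
          rw [hsg] at hno'
          rw [if_pos rfl]
          by_contra hne
          apply hno'
          exact decide_eq_true ⟨hxlt, by rw [hs']; omega⟩
        | false =>
          rw [hsg] at hno'
          rw [if_neg Bool.false_ne_true]
          by_contra hne
          apply hno'
          refine decide_eq_false ?_
          rintro ⟨_, h4⟩
          rw [hs'] at h4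
          omega
      have h2 := hσ e ⟨2 * var (3 * j + i), hxlt⟩
      rw [EE_cv hge (by simp only; omega), EE_vc (by rw [hs']; omega) (by omega)] at h2
      have h3 := Bool.eq_iff_iff.1 h2
      rw [occ_iff, occ_iff, hdiv48, hs'] at h3
      have hc48 : (e.val - 6 * m) / 48 = j := by omega
      rw [hc48] at h3
      simp only at h3
      have e1 : 2 * var (3 * j + i) / 2 = var (3 * j + i) := by omega
      have e2 : 2 * var (3 * j + i) % 2 = 0 := by omega
      have e3 : (2 * var (3 * j + i) + s) / 2 = var (3 * j + i) := by omega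
      have e4 : (2 * var (3 * j + i) + s) % 2 = s := by omega
      rw [e1, e2, e3, e4] at h3
      have e5 : ∀ i, vb (e.val - 6 * m) i = 0 := by
        intro i
        unfold vb
        split_ifs <;> omega
      have hv2 : vb ((σ e).val - 6 * m) i < 2 := by
        unfold vb
        split_ifs <;> omega
      have h4 : vb ((σ e).val - 6 * m) i = s ↔ s = 0 := by
        constructor
        · intro h5
          obtain ⟨i', hi', h6, h7⟩ := h3.1 ⟨i, hi, rfl, by rw [hfs]; omega⟩
          rw [e5] at h7
          omega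
        · intro h5
          obtain ⟨i', hi', h6, h7⟩ := h3.2 ⟨i, hi, rfl, by rw [e5]; omega⟩
          have := hdist j hj i' hi' i hi h6
          rw [this, hfs] at h7
          omega
      omega
    have b0 := hbit 0 (by norm_num)
    have b1 := hbit 1 (by norm_num)
    have b2 := hbit 2 (by norm_num)
    unfold vb at b0 b1 b2
    norm_num at b0 b1 b2
    exact ⟨(σ e).val - e.val, by omega, fun _ => by
      change (σ e).val = _
      omega⟩
  obtain ⟨k0, hk02, hk0⟩ := hk 0 (by norm_num)
  obtain ⟨k1, hk12, hk1⟩ := hk 1 (by norm_num)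
  obtain ⟨k2, hk22, hk2⟩ := hk 2 (by norm_num)
  have hl0 : 6 * m + 48 * j + 16 * 0 < 54 * m := by omega
  have hl1 : 6 * m + 48 * j + 16 * 1 < 54 * m := by omega
  have hl2 : 6 * m + 48 * j + 16 * 2 < 54 * m := by omega
  have q0 := hk0 hl0
  have q1 := hk1 hl1
  have q2 := hk2 hl2
  have key : ∀ (a b : Fin (54 * m)) (p q ka kb : ℕ), a.val = 6 * m + 48 * j + 16 * p →
      b.val = 6 * m + 48 * j + 16 * q → p < 3 → q < 3 → p ≠ q → ka < 2 → kb < 2 →
      (σ a).val = 6 * m + 48 * j + 16 * p + ka → (σ b).val = 6 * m + 48 * j + 16 * q + kb →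
      (ka = tw p q ↔ kb = tw q p) := by
    intro a b p q ka kb ha hb hp hq hpq hka hkb hsa hsb
    have h1 := hσ a b
    rw [EE_cc (by omega) (by omega), EE_cc (by omega) (by omega)] at h1
    have h2 := Bool.eq_iff_iff.1 h1
    rw [blk_iff, blk_iff, hsa, hsb, ha, hb] at h2
    have a1 : (6 * m + 48 * j + 16 * p + ka - 6 * m) / 48 = j := by omega
    have a2 : (6 * m + 48 * j + 16 * p + ka - 6 * m) / 2 % 8 = 0 := by omega
    have a3 : (6 * m + 48 * j + 16 * p + ka - 6 * m) / 16 % 3 = p := by omega
    have a4 : (6 * m + 48 * j + 16 * p + ka - 6 * m) % 2 = ka := by omega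
    have b1 : (6 * m + 48 * j + 16 * q + kb - 6 * m) / 48 = j := by omega
    have b2 : (6 * m + 48 * j + 16 * q + kb - 6 * m) / 2 % 8 = 0 := by omega
    have b3 : (6 * m + 48 * j + 16 * q + kb - 6 * m) / 16 % 3 = q := by omega
    have b4 : (6 * m + 48 * j + 16 * q + kb - 6 * m) % 2 = kb := by omega
    have c1 : (6 * m + 48 * j + 16 * p - 6 * m) / 48 = j := by omega
    have c2 : (6 * m + 48 * j + 16 * p - 6 * m) / 2 % 8 = 0 := by omega
    have c3 : (6 * m + 48 * j + 16 * p - 6 * m) / 16 % 3 = p := by omega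
    have c4 : (6 * m + 48 * j + 16 * p - 6 * m) % 2 = 0 := by omega
    have d1 : (6 * m + 48 * j + 16 * q - 6 * m) / 48 = j := by omega
    have d2 : (6 * m + 48 * j + 16 * q - 6 * m) / 2 % 8 = 0 := by omega
    have d3 : (6 * m + 48 * j + 16 * q - 6 * m) / 16 % 3 = q := by omega
    have d4 : (6 * m + 48 * j + 16 * q - 6 * m) % 2 = 0 := by omega
    rw [a1, a2, a3, a4, b1, b2, b3, b4, c1, c2, c3, c4, d1, d2, d3, d4] at h2
    have t1 : (0 + tw p q) % 2 = tw p q := by
      unfold tw
      split_ifs <;> rfl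
    have t2 : (0 + tw q p) % 2 = tw q p := by
      unfold tw
      split_ifs <;> rfl
    rw [t1, t2] at h2
    constructor
    · intro h
      exact (h2.1 ⟨rfl, rfl, hpq, h⟩).2.2.2
    · intro h
      exact (h2.2 ⟨rfl, rfl, Ne.symm hpq, h⟩).2.2.2
  have r01 := key ⟨_, hl0⟩ ⟨_, hl1⟩ 0 1 k0 k1 rfl rfl (by norm_num) (by norm_num) (by norm_num)
    hk02 hk12 q0 q1
  have r12 := key ⟨_, hl1⟩ ⟨_, hl2⟩ 1 2 k1 k2 rfl rfl (by norm_num) (by norm_num) (by norm_num)
    hk12 hk22 q1 q2
  have r20 := key ⟨_, hl2⟩ ⟨_, hl0⟩ 2 0 k2 k0 rfl rfl (by norm_num) (by norm_num) (by norm_num)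
    hk22 hk02 q2 q0
  unfold tw at r01 r12 r20
  norm_num at r01 r12 r20
  omega

/-! ### From a satisfying assignment to a permutation -/

/-- The shift of the class number 1. -/
def pp (p : ℕ) : ℕ := if p = 1 then 1 else 0

/-- The image of a clause element. -/
def imc (t : ℕ → ℕ) (I : ℕ → ℕ) (c : ℕ) : ℕ :=
  16 * (c / 16) + 8 * ((c / 8 % 2 + t (3 * (c / 48) + 2)) % 2) +
    4 * ((c / 4 % 2 + t (3 * (c / 48) + 1)) % 2) + 2 * ((c / 2 % 2 + t (3 * (c / 48) + 0)) % 2) +
    (c % 2 + vb c (I (c / 48)) + pp (c / 16 % 3)) % 2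

variable {t I : ℕ → ℕ}

theorem vb_lt (c i : ℕ) : vb c i < 2 := by
  unfold vb
  split_ifs <;> omega

theorem imc_parts (c : ℕ) : ∃ a2 a1 a0 k, imc t I c = 16 * (c / 16) + 8 * a2 + 4 * a1 + 2 * a0 + k ∧
    a2 < 2 ∧ a1 < 2 ∧ a0 < 2 ∧ k < 2 ∧ a2 = (c / 8 % 2 + t (3 * (c / 48) + 2)) % 2 ∧
    a1 = (c / 4 % 2 + t (3 * (c / 48) + 1)) % 2 ∧ a0 = (c / 2 % 2 + t (3 * (c / 48) + 0)) % 2 ∧
    k = (c % 2 + vb c (I (c / 48)) + pp (c / 16 % 3)) % 2 :=
  ⟨_, _, _, _, rfl, Nat.mod_lt _ (by norm_num), Nat.mod_lt _ (by norm_num),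
    Nat.mod_lt _ (by norm_num), Nat.mod_lt _ (by norm_num), rfl, rfl, rfl, rfl⟩

theorem imc_16 (c : ℕ) : imc t I c / 16 = c / 16 := by
  obtain ⟨a2, a1, a0, k, h, h2, h1, h0, hk, -⟩ := imc_parts (t := t) (I := I) c
  rw [h]
  omega

theorem imc_48 (c : ℕ) : imc t I c / 48 = c / 48 := by
  have := imc_16 (t := t) (I := I) c
  omega

theorem imc_2 (c : ℕ) : imc t I c % 2 = (c % 2 + vb c (I (c / 48)) + pp (c / 16 % 3)) % 2 := by
  obtain ⟨a2, a1, a0, k, h, h2, h1, h0, hk, -, -, -, e⟩ := imc_parts (t := t) (I := I) c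
  rw [h, ← e]
  omega

theorem vb_imc {i : ℕ} (hi : i < 3) (c : ℕ) :
    vb (imc t I c) i = (vb c i + t (3 * (c / 48) + i)) % 2 := by
  obtain ⟨a2, a1, a0, k, h, h2, h1, h0, hk, e2, e1, e0, -⟩ := imc_parts (t := t) (I := I) c
  have : i = 0 ∨ i = 1 ∨ i = 2 := by omega
  rcases this with rfl | rfl | rfl
  · unfold vb
    rw [if_pos rfl, if_pos rfl, ← e0, h]
    omega
  · unfold vb
    rw [if_neg (by norm_num), if_pos rfl, if_neg (by norm_num), if_pos rfl, ← e1, h]
    omega
  · unfold vb
    rw [if_neg (by norm_num), if_neg (by norm_num), if_neg (by norm_num), if_neg (by norm_num),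
      ← e2, h]
    omega

theorem vb_eq_iff (c d : ℕ) : c / 2 % 8 = d / 2 % 8 ↔ ∀ i < 3, vb c i = vb d i := by
  constructor
  · intro h i _
    unfold vb
    split_ifs <;> omega
  · intro h
    have h0 := h 0 (by norm_num)
    have h1 := h 1 (by norm_num)
    have h2 := h 2 (by norm_num)
    unfold vb at h0 h1 h2
    norm_num at h0 h1 h2
    omega

theorem imc_inj (hI : ∀ j, I j < 3) {c d : ℕ} (h : imc t I c = imc t I d) : c = d := by
  have h16 : c / 16 = d / 16 := by
    rw [← imc_16 (t := t) (I := I) c, h, imc_16]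
  have h48 : c / 48 = d / 48 := by omega
  have hb : ∀ i < 3, vb c i = vb d i := by
    intro i hi
    have e := congrArg (fun n => vb n i) h
    beta_reduce at e
    rw [vb_imc hi, vb_imc hi, h48] at e
    have := vb_lt c i
    have := vb_lt d i
    omega
  have h2 : c % 2 = d % 2 := by
    have e := congrArg (fun n => n % 2) h
    beta_reduce at e
    rw [imc_2, imc_2, h16, h48, hb _ (hI _)] at e
    omega
  have h3 := (vb_eq_iff c d).2 hb
  omega

theorem blk_imc (hI : ∀ j, I j < 3) {c d : ℕ} (ht : t (3 * (c / 48) + I (c / 48)) = 1)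
    (h : blk (imc t I c) d = true) : blk (imc t I d) c = true := by
  rw [blk_iff, imc_48, imc_16, imc_2, vb_eq_iff] at h
  obtain ⟨h1, h2, h3, h4⟩ := h
  rw [blk_iff, imc_48, imc_16, imc_2, vb_eq_iff]
  refine ⟨h1.symm, ?_, Ne.symm h3, ?_⟩
  · intro i hi
    have e := h2 i hi
    rw [vb_imc hi] at e ⊢
    rw [← h1]
    have := vb_lt c i
    have := vb_lt d i
    omega
  · have e := h2 _ (hI (c / 48))
    rw [vb_imc (hI _), ht] at e
    rw [← h1, ← e]
    have hp3 : c / 16 % 3 < 3 := Nat.mod_lt _ (by norm_num)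
    have hq3 : d / 16 % 3 < 3 := Nat.mod_lt _ (by norm_num)
    have := vb_lt c (I (c / 48))
    generalize c / 16 % 3 = p at *
    generalize d / 16 % 3 = q at *
    generalize vb c (I (c / 48)) = v at *
    have key : (pp p + pp q + tw p q + tw q p) % 2 = 1 := by
      interval_cases p <;> interval_cases q <;> first | (exact absurd rfl h3) | rfl
    omega

/-- The image of an element. -/
def img (m : ℕ) (s t I : ℕ → ℕ) (o : ℕ) : ℕ :=
  if o < 6 * m then 2 * (o / 2) + (o % 2 + s (o / 2)) % 2 else 6 * m + imc t I (o - 6 * m)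

/-- From a satisfying assignment to a symmetrising permutation. -/
theorem lsym_of_sat (τ : ℕ → Bool)
    (h : ∀ j < m, ∃ r < 3, τ (var (3 * j + r)) = sgn (3 * j + r)) :
    LSym (54 * m) (ww m) (EE m var sgn) := by
  have h' : ∀ j, ∃ r < 3, j < m → τ (var (3 * j + r)) = sgn (3 * j + r) := by
    intro j
    by_cases hj : j < m
    · obtain ⟨r, hr, h1⟩ := h j hj
      exact ⟨r, hr, fun _ => h1⟩
    · exact ⟨0, by norm_num, fun h => absurd h hj⟩
  choose I hI3 hI using h'
  obtain ⟨s, hs⟩ : ∃ s : ℕ → ℕ, ∀ x, s x = if τ x = true then 1 else 0 := ⟨_, fun _ => rfl⟩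
  obtain ⟨t, ht⟩ : ∃ t : ℕ → ℕ, ∀ o, t o = (s (var o) + ff sgn o) % 2 := ⟨_, fun _ => rfl⟩
  have hs2 : ∀ x, s x < 2 := by
    intro x
    rw [hs]
    split_ifs <;> norm_num
  have ht1 : ∀ j < m, t (3 * j + I j) = 1 := by
    intro j hj
    rw [ht, hs, hI j hj]
    unfold ff
    cases sgn (3 * j + I j) <;> rfl
  have himv : ∀ o, o < 6 * m → img m s t I o = 2 * (o / 2) + (o % 2 + s (o / 2)) % 2 := by
    intro o ho
    unfold img
    rw [if_pos ho]
  have himc : ∀ o, ¬ o < 6 * m → img m s t I o = 6 * m + imc t I (o - 6 * m) := by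
    intro o ho
    unfold img
    rw [if_neg ho]
  have hv : ∀ o, o < 6 * m → img m s t I o < 6 * m := by
    intro o ho
    rw [himv o ho]
    omega
  have hc : ∀ o, ¬ o < 6 * m → ¬ img m s t I o < 6 * m := by
    intro o ho
    rw [himc o ho]
    omega
  have hlt : ∀ o, o < 54 * m → img m s t I o < 54 * m := by
    intro o ho
    by_cases h6 : o < 6 * m
    · have := hv o h6
      omega
    · rw [himc o h6]
      have := imc_48 (t := t) (I := I) (o - 6 * m)
      omega
  let f : Fin (54 * m) → Fin (54 * m) := fun o => ⟨img m s t I o, hlt o.val o.2⟩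
  have hf : ∀ o, (f o).val = img m s t I o.val := fun _ => rfl
  have hinj : Function.Injective f := by
    intro o o' hoo
    have e := congrArg Fin.val hoo
    rw [hf, hf] at e
    apply Fin.ext
    by_cases h6 : o.val < 6 * m
    · have h6' : o'.val < 6 * m := by
        by_contra h6'
        have := hv _ h6
        have := hc _ h6'
        omega
      rw [himv _ h6, himv _ h6'] at e
      have e1 : o.val / 2 = o'.val / 2 := by omega
      rw [e1] at e
      omega
    · have h6' : ¬ o'.val < 6 * m := by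
        intro h6'
        have := hv _ h6'
        have := hc _ h6
        omega
      rw [himc _ h6, himc _ h6'] at e
      have := imc_inj hI3 (Nat.add_left_cancel e)
      omega
  refine ⟨Equiv.ofBijective f (Finite.injective_iff_bijective.1 hinj), ?_, ?_⟩
  · intro o
    change ww m (img m s t I o.val) = ww m o.val
    unfold ww
    by_cases h6 : o.val < 6 * m
    · rw [if_pos (hv _ h6), if_pos h6, himv _ h6]
      omega
    · rw [if_neg (hc _ h6), if_neg h6, himc _ h6, Nat.add_sub_cancel_left, imc_16]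
  · intro o o'
    change EE m var sgn (img m s t I o.val) o'.val = EE m var sgn (img m s t I o'.val) o.val
    have key : ∀ a b : ℕ, a < 6 * m → ¬ b < 6 * m →
        EE m var sgn (img m s t I a) b = EE m var sgn (img m s t I b) a := by
      intro a b ha hb
      rw [EE_vc (hv a ha) hb, EE_cv (hc b hb) ha, himv a ha, himc b hb, Nat.add_sub_cancel_left]
      apply Bool.eq_iff_iff.2
      rw [occ_iff, occ_iff, imc_48]
      refine exists_congr fun i => and_congr_right fun hi => ?_
      have e1 : (2 * (a / 2) + (a % 2 + s (a / 2)) % 2) / 2 = a / 2 := by omega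
      have e2 : (2 * (a / 2) + (a % 2 + s (a / 2)) % 2) % 2 = (a % 2 + s (a / 2)) % 2 := by omega
      rw [e1, e2, vb_imc hi, ht]
      refine and_congr_right fun hx => ?_
      rw [hx]
      have := vb_lt (b - 6 * m) i
      have := hs2 (a / 2)
      omega
    by_cases h6 : o.val < 6 * m
    · by_cases h6' : o'.val < 6 * m
      · rw [EE_vv (hv _ h6) h6', EE_vv (hv _ h6') h6]
      · exact key _ _ h6 h6'
    · by_cases h6' : o'.val < 6 * m
      · exact (key _ _ h6' h6).symm
      · rw [EE_cc (hc _ h6) h6', EE_cc (hc _ h6') h6, himc _ h6, himc _ h6',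
          Nat.add_sub_cancel_left, Nat.add_sub_cancel_left]
        apply Bool.eq_iff_iff.2
        exact ⟨blk_imc hI3 (ht1 _ (by omega)), blk_imc hI3 (ht1 _ (by omega))⟩

end Pool.Agent.H420.MSym
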