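import Pool.Agent.H420.TDSDefs

/-!
# Total domination equals sub-total domination: membership in NP
-/

namespace Pool.Agent.H420.TDS

open Pool.Agent.NPC Pool.Agent.H420.Gr

/-- Adjacency test. -/
def edgeB (M : List (List Bool)) (i j : ℕ) : Bool :=
  !decide (i = j) && (entry M i j || entry M j i)

/-- The degree of the vertex `i`, computed from the matrix. -/
def degN (M : List (List Bool)) (i : ℕ) : ℕ :=
  ((List.range M.length).filter (fun j => edgeB M i j)).length

theorem adj_edgeB {M : List (List Bool)} {i j : Fin M.length} :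
    (graphOf M).Adj i j ↔ edgeB M i j = true := by
  unfold edgeB
  rw [Bool.and_eq_true, Bool.not_eq_true', decide_eq_false_iff_not, Bool.or_eq_true]
  constructor
  · rintro ⟨h1, h2⟩
    exact ⟨fun e => h1 (Fin.ext e), h2⟩
  · rintro ⟨h1, h2⟩
    exact ⟨fun e => h1 (by rw [e]), h2⟩

theorem deg_eq_degN (M : List (List Bool)) (i : Fin M.length) :
    deg (graphOf M) i = degN M i := by
  classical
  unfold deg degN
  have h1 : (Fin.val '' (graphOf M).neighborSet i) =
      ((((List.range M.length).filter (fun j => edgeB M i j)).toFinset : Finset ℕ) : Set ℕ) := by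
    ext k
    simp only [Set.mem_image, SimpleGraph.mem_neighborSet, List.coe_toFinset, List.mem_filter,
      List.mem_range, Set.mem_ofPred_eq]
    constructor
    · rintro ⟨j, hj, rfl⟩
      exact ⟨j.2, adj_edgeB.1 hj⟩
    · rintro ⟨hk, h⟩
      exact ⟨⟨k, hk⟩, adj_edgeB.2 h, rfl⟩
  rw [← Set.ncard_image_of_injective _ Fin.val_injective, h1, Set.ncard_coe_finset,
    List.toFinset_card_of_nodup (List.nodup_range.filter _)]

/-- Test: the list of values of `f` on `L` is non-increasing. -/
def sortTest (f : ℕ → ℕ) (L : List ℕ) : Bool := (L.zip L.tail).all (fun p => decide (f p.2 ≤ f p.1))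

theorem sortTest_iff {f : ℕ → ℕ} : ∀ {L : List ℕ}, sortTest f L = true ↔
    (L.map f).Pairwise (fun a b => a ≥ b) := by
  intro L
  rw [← List.isChain_iff_pairwise]
  induction L with
  | nil => simp [sortTest]
  | cons a L ih =>
    cases L with
    | nil => simp [sortTest]
    | cons b L =>
      have e : sortTest f (a :: b :: L) = (decide (f b ≤ f a) && sortTest f (b :: L)) := by
        simp [sortTest]
      rw [e, Bool.and_eq_true, ih, decide_eq_true_eq]
      simp only [List.map_cons, List.isChain_cons_cons, ge_iff_le]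

/-- Test: the list enumerates `0, ..., n - 1`. -/
def permTest (n : ℕ) (l : List ℕ) : Bool :=
  decide (l.length = n) && (List.range l.length).all (fun v => decide (v ∈ l))

theorem permTest_iff {n : ℕ} {l : List ℕ} : permTest n l = true ↔ l.Perm (List.range n) := by
  unfold permTest
  simp only [Bool.and_eq_true, decide_eq_true_eq, List.all_eq_true, List.mem_range]
  constructor
  · rintro ⟨h, h'⟩
    have h1 : (List.range n).Subperm l :=
      List.nodup_range.subperm (fun v hv => h' v (by rw [h]; simpa using hv))
    exact (h1.perm_of_length_le (by simp [h])).symm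
  · intro h
    have hlen : l.length = n := by simpa using h.length_eq
    refine ⟨hlen, fun v hv => ?_⟩
    rw [h.mem_iff, List.mem_range]
    omega

theorem degSeq_eq {M : List (List Bool)} {l : List ℕ} (h : l.Perm (List.range M.length))
    (hs : (l.map (degN M)).Pairwise (fun a b => a ≥ b)) :
    degSeq (graphOf M) = l.map (degN M) := by
  have h1 : (degSeq (graphOf M)).Perm (l.map (degN M)) := by
    rw [← Multiset.coe_eq_coe, degSeq_coe]
    have h2 : (Finset.univ : Finset (Fin M.length)).val =
        ((List.finRange M.length : List (Fin M.length)) : Multiset (Fin M.length)) := rfl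
    rw [h2, Multiset.map_coe, Multiset.coe_eq_coe]
    have h3 : (List.finRange M.length).map (deg (graphOf M)) =
        (List.range M.length).map (degN M) := by
      rw [← List.map_coe_finRange_eq_range, List.map_map]
      exact List.map_congr_left fun i _ => deg_eq_degN M i
    rw [h3]
    exact (h.map _).symm
  exact h1.eq_of_pairwise' degSeq_pairwise hs

/-- The verifier: `w` is a total dominating set, `l₁ ++ l₂` lists all vertices by non-increasing
degree, and `l₁`, of length one less than that of `w`, has degree sum less than `n`. -/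
def ver (x : List (List Bool) × List ℕ × List ℕ × List ℕ) : Bool :=
  ((List.range x.1.length).all (fun v => x.2.1.any (fun u => decide (u < x.1.length) &&
    edgeB x.1 v u)) && (permTest x.1.length (x.2.2.1 ++ x.2.2.2) &&
      sortTest (degN x.1) (x.2.2.1 ++ x.2.2.2))) &&
    (decide (x.2.1.length = 0) || (decide (x.2.2.1.length + 1 = x.2.1.length) &&
      decide ((x.2.2.1.map (degN x.1)).sum < x.1.length)))

section PolyVer

variable {α : Type} [TEnc α]

theorem poly_edgeB {M : α → List (List Bool)} {i j : α → ℕ} (hM : Poly M) (hi : Poly i)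
    (hj : Poly j) : Poly (fun a => edgeB (M a) (i a) (j a)) :=
  NPC.Poly.and (NPC.Poly.not (Poly.decide_eq hi hj))
    (NPC.Poly.or (poly_entry hM hi hj) (poly_entry hM hj hi))

theorem poly_degN {M : α → List (List Bool)} {i : α → ℕ} (hM : Poly M) (hi : Poly i) :
    Poly (fun a => degN (M a) (i a)) := by
  unfold degN
  refine Poly.length (Poly.filter (p := fun a j => edgeB (M a) (i a) j) (Poly.range_length hM) ?_)
  exact poly_edgeB (hM.comp (Poly.fst Poly.id)) (hi.comp (Poly.fst Poly.id)) (Poly.snd Poly.id)

theorem poly_sortTest {M : α → List (List Bool)} {l : α → List ℕ} (hM : Poly M) (hl : Poly l) :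
    Poly (fun a => sortTest (degN (M a)) (l a)) := by
  unfold sortTest
  refine Poly.all (p := fun a (p : ℕ × ℕ) => decide (degN (M a) p.2 ≤ degN (M a) p.1))
    (Poly.zip hl (Poly.tail hl)) ?_
  exact Poly.decide_le (poly_degN (hM.comp (Poly.fst Poly.id)) (Poly.snd (Poly.snd Poly.id)))
    (poly_degN (hM.comp (Poly.fst Poly.id)) (Poly.fst (Poly.snd Poly.id)))

theorem poly_permTest {n : α → ℕ} {l : α → List ℕ} (hn : Poly n) (hl : Poly l) :
    Poly (fun a => permTest (n a) (l a)) :=
  NPC.Poly.and (Poly.decide_eq (Poly.length hl) hn)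
    (Poly.all (p := fun a v => decide (v ∈ l a)) (Poly.range_length hl)
      (Poly.decide_mem (Poly.snd Poly.id) (hl.comp (Poly.fst Poly.id))))

end PolyVer

theorem poly_ver : Poly ver := by
  unfold ver
  have hM : Poly (fun x : List (List Bool) × List ℕ × List ℕ × List ℕ => x.1) := Poly.fst Poly.id
  have hn : Poly (fun x : List (List Bool) × List ℕ × List ℕ × List ℕ => x.1.length) :=
    Poly.length hM
  have hw : Poly (fun x : List (List Bool) × List ℕ × List ℕ × List ℕ => x.2.1) :=
    Poly.fst (Poly.snd Poly.id)
  have hl1 : Poly (fun x : List (List Bool) × List ℕ × List ℕ × List ℕ => x.2.2.1) :=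
    Poly.fst (Poly.snd (Poly.snd Poly.id))
  have hl2 : Poly (fun x : List (List Bool) × List ℕ × List ℕ × List ℕ => x.2.2.2) :=
    Poly.snd (Poly.snd (Poly.snd Poly.id))
  refine NPC.Poly.and (NPC.Poly.and ?_ (NPC.Poly.and (poly_permTest hn (Poly.append hl1 hl2))
    (poly_sortTest hM (Poly.append hl1 hl2)))) (NPC.Poly.or
      (Poly.decide_eq (Poly.length hw) (NPC.Poly.const 0)) (NPC.Poly.and
        (Poly.decide_eq (Poly.add (Poly.length hl1) (NPC.Poly.const 1)) (Poly.length hw))
        (Poly.decide_lt (Poly.sum ?_) hn)))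
  · refine Poly.all (p := fun (x : List (List Bool) × List ℕ × List ℕ × List ℕ) v =>
      x.2.1.any (fun u => decide (u < x.1.length) && edgeB x.1 v u)) (Poly.range_length hM) ?_
    refine Poly.any (p := fun (x : (List (List Bool) × List ℕ × List ℕ × List ℕ) × ℕ) u =>
      decide (u < x.1.1.length) && edgeB x.1.1 x.2 u) (hw.comp (Poly.fst Poly.id)) ?_
    exact NPC.Poly.and (Poly.decide_lt (Poly.snd Poly.id)
      (hn.comp (Poly.fst (Poly.fst Poly.id))))
      (poly_edgeB (hM.comp (Poly.fst (Poly.fst Poly.id))) (Poly.snd (Poly.fst Poly.id))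
        (Poly.snd Poly.id))
  · exact NPC.Poly.map (F := fun (x : List (List Bool) × List ℕ × List ℕ × List ℕ) v =>
      degN x.1 v) hl1 (poly_degN (hM.comp (Poly.fst Poly.id)) (Poly.snd Poly.id))

theorem sz_list_lt {l : List ℕ} {n : ℕ} (h : ∀ x ∈ l, x < n) (hl : l.length ≤ n) :
    sz l ≤ n * (4 * n + 2) + 1 := by
  have h3 : sz l ≤ l.length * (4 * n + 1 + 1) + 1 := by
    refine sz_le_length_mul _ _ ?_
    intro v hv
    have e1 := sz_nat_le v
    have e2 := Poly.size_le_self v
    have e3 := h v hv
    omega
  exact h3.trans (Nat.add_le_add_right (Nat.mul_le_mul hl (by omega)) 1)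

theorem exists_sorted (f : ℕ → ℕ) (n : ℕ) :
    ∃ l : List ℕ, l.Perm (List.range n) ∧ (l.map f).Pairwise (fun a b => a ≥ b) := by
  refine ⟨(List.range n).insertionSort (fun a b => f a ≥ f b), List.perm_insertionSort _ _, ?_⟩
  rw [List.pairwise_map]
  have : Std.Total (fun a b : ℕ => f a ≥ f b) := ⟨fun a b => le_total (f b) (f a)⟩
  have : IsTrans ℕ (fun a b : ℕ => f a ≥ f b) := ⟨fun a b c h1 h2 => le_trans h2 h1⟩
  exact List.pairwise_insertionSort _ _

theorem ver_iff (M : List (List Bool)) : TDSEq M ↔ ∃ w : List ℕ × List ℕ × List ℕ,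
    sz w ≤ (Polynomial.C 3 * (Polynomial.X * (Polynomial.C 4 * Polynomial.X + 2) + 1) + 2 :
      Polynomial ℕ).eval (sz M) ∧ ver (M, w) = true := by
  classical
  constructor
  · rintro ⟨h1, h2⟩
    obtain ⟨S, hS, hc⟩ := exists_totalDom h1
    obtain ⟨l, hl, hls⟩ := exists_sorted (degN M) M.length
    have hseq := degSeq_eq hl hls
    have hlen : l.length = M.length := by simpa using hl.length_eq
    have hSn : S.card ≤ M.length := by simpa using S.card_le_univ
    refine ⟨(S.toList.map Fin.val, l.take (S.card - 1), l.drop (S.card - 1)), ?_, ?_⟩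
    · have hmem : ∀ x ∈ l, x < M.length := fun x hx => by simpa using hl.mem_iff.1 hx
      have e1 : sz (S.toList.map Fin.val) ≤ M.length * (4 * M.length + 2) + 1 := by
        refine sz_list_lt ?_ (by simpa using hSn)
        intro x hx
        rw [List.mem_map] at hx
        obtain ⟨i, _, rfl⟩ := hx
        exact i.2
      have e2 : sz (l.take (S.card - 1)) ≤ M.length * (4 * M.length + 2) + 1 :=
        sz_list_lt (fun x hx => hmem x (List.mem_of_mem_take hx)) (by
          rw [List.length_take]; omega)
      have e3 : sz (l.drop (S.card - 1)) ≤ M.length * (4 * M.length + 2) + 1 :=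
        sz_list_lt (fun x hx => hmem x (List.mem_of_mem_drop hx)) (by
          rw [List.length_drop]; omega)
      have e4 := length_lt_sz M
      have e5 : M.length * (4 * M.length + 2) ≤ sz M * (4 * sz M + 2) :=
        Nat.mul_le_mul (by omega) (by omega)
      simp only [sz_pair, Polynomial.eval_add, Polynomial.eval_mul, Polynomial.eval_X,
        Polynomial.eval_C, Polynomial.eval_one, Polynomial.eval_ofNat]
      omega
    · unfold ver
      simp only [Bool.and_eq_true, Bool.or_eq_true, decide_eq_true_eq, List.all_eq_true,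
        List.any_eq_true, List.take_append_drop, permTest_iff, sortTest_iff, List.mem_range,
        List.length_map, Finset.length_toList]
      refine ⟨⟨?_, hl, hls⟩, ?_⟩
      · intro v hv
        obtain ⟨u, hu, hadj⟩ := hS ⟨v, hv⟩
        exact ⟨u, List.mem_map.2 ⟨u, Finset.mem_toList.2 hu, rfl⟩, u.2, adj_edgeB.1 hadj⟩
      · rcases Nat.eq_zero_or_pos S.card with h0 | hpos
        · exact Or.inl h0
        · refine Or.inr ⟨by rw [List.length_take]; omega, ?_⟩
          have h3 : ¬ (Fintype.card (Fin M.length) ≤
              ((degSeq (graphOf M)).take (S.card - 1)).sum) := by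
            intro h
            have h4 : subT (graphOf M) ≤ S.card - 1 := Nat.sInf_le h
            omega
          rw [Fintype.card_fin, hseq, ← List.map_take] at h3
          omega
  · rintro ⟨⟨w, l1, l2⟩, -, h⟩
    unfold ver at h
    simp only [Bool.and_eq_true, Bool.or_eq_true, decide_eq_true_eq, List.all_eq_true,
      List.any_eq_true, permTest_iff, sortTest_iff, List.mem_range] at h
    obtain ⟨⟨hdom, hperm, hsort⟩, hk⟩ := h
    let S : Finset (Fin M.length) := Finset.univ.filter (fun u => u.val ∈ w)
    have hS : IsTotalDominating (graphOf M) S := by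
      intro v
      obtain ⟨u, hu, hlt, hadj⟩ := hdom v v.2
      exact ⟨⟨u, hlt⟩, by simpa [S] using hu, adj_edgeB.2 hadj⟩
    have hSc : S.card ≤ w.length := by
      have h1 : S.image Fin.val ⊆ w.toFinset := by
        intro x hx
        rw [Finset.mem_image] at hx
        obtain ⟨i, hi, rfl⟩ := hx
        simpa [S] using hi
      have h2 := Finset.card_le_card h1
      rw [Finset.card_image_of_injective _ Fin.val_injective] at h2
      exact h2.trans (List.toFinset_card_le w)
    have h1 : ∀ v, ∃ w, (graphOf M).Adj v w := by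
      intro v
      obtain ⟨u, _, hu⟩ := hS v
      exact ⟨u, hu⟩
    refine ⟨h1, le_antisymm ?_ (subT_le_totalDom h1)⟩
    have h2 := totalDom_le hS
    rcases hk with hk | ⟨hk, hsum⟩
    · omega
    · refine le_trans (h2.trans hSc) (le_subT hS fun j hj => ?_)
      rw [Fintype.card_fin]
      refine lt_of_le_of_lt (take_sum_mono (k := l1.length) (by omega)) ?_
      rw [degSeq_eq hperm hsort, List.map_append, List.take_left' (by simp)]
      exact hsum

theorem inNPP : InNPP TDSEq := inNPP_of poly_ver _ ver_iff

end Pool.Agent.H420.TDS
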