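import Pool.Agent.H420.MSym
import Pool.Agent.H420.TDSMem

/-!
# Matrix symmetry: the problem, NP-hardness and membership in NP
-/

namespace Pool.Agent.H420.MSym

open Pool.Agent.NPC Pool.Agent.H420.Gr Pool.Agent.H420.TDS

/-- The square matrix with entries 0 and 1 given by the list `M` of its rows. -/
def matOf (M : List (List Bool)) : Matrix (Fin M.length) (Fin M.length) ℕ :=
  fun i j => if entry M i j = true then 1 else 0

/-- **MS**: there is a permutation matrix `P` such that `P * A` is symmetric. -/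
def MatSym (M : List (List Bool)) : Prop :=
  ∃ σ : Equiv.Perm (Fin M.length),
    (σ.permMatrix ℕ * matOf M).transpose = σ.permMatrix ℕ * matOf M

/-- **GI**: the graphs given by two adjacency matrices are isomorphic. -/
def GraphIso (x : List (List Bool) × List (List Bool)) : Prop :=
  Nonempty (graphOf x.1 ≃g graphOf x.2)

theorem matSym_iff (M : List (List Bool)) : MatSym M ↔ Sym M.length (entry M) := by
  unfold MatSym Sym
  refine exists_congr fun σ => ?_
  have e : σ.permMatrix ℕ * matOf M = (matOf M).submatrix σ id :=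
    PEquiv.toMatrix_toPEquiv_mul σ (matOf M)
  rw [e]
  constructor
  · intro h i j
    have h1 := congrFun (congrFun h j) i
    simp only [Matrix.transpose_apply, Matrix.submatrix_apply, id, matOf] at h1
    cases h2 : entry M (σ i) j <;> cases h3 : entry M (σ j) i <;> simp [h2, h3] at h1 ⊢
  · intro h
    ext i j
    simp only [Matrix.transpose_apply, Matrix.submatrix_apply, id, matOf]
    simp only [h j i]

theorem sym_mat (n : ℕ) (A : ℕ → ℕ → Bool) :
    Sym (mat n A).length (entry (mat n A)) ↔ Sym n A := by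
  have key : ∀ k, k = n → ∀ E : ℕ → ℕ → Bool, (∀ i j, i < n → j < n → E i j = A i j) →
      (Sym k E ↔ Sym n A) := by
    rintro k rfl E hE
    unfold Sym
    refine exists_congr fun σ => forall_congr' fun i => forall_congr' fun j => ?_
    rw [hE _ _ (σ i).2 j.2, hE _ _ (σ j).2 i.2]
  exact key _ (length_mat n A) _ (fun i j hi hj => entry_mat hi hj)

/-! ### The reduction -/

/-- The reduction from 3SAT. -/
def red (φ : List (Lit ℕ × Lit ℕ × Lit ℕ)) : List (List Bool) :=
  mat (54 * φ.length + 54 * φ.length * (6 * φ.length + 2))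
    (big (54 * φ.length) (6 * φ.length + 2) (ww φ.length) (EE φ.length (vr φ) (sg φ)))

theorem red_iff {φ : List (Lit ℕ × Lit ℕ × Lit ℕ)} (hb : Bounded3 φ)
    (hd : ∀ j < φ.length, ∀ i < 3, ∀ i' < 3, vr φ (3 * j + i) = vr φ (3 * j + i') → i = i') :
    MatSym (red φ) ↔ SAT3 φ := by
  rw [matSym_iff, red, sym_mat, sym_iff (fun i hi => ww_bound hi), sat_iff]
  constructor
  · exact sat_of_lsym hd (fun o ho => vr_lt hb ho)
  · rintro ⟨τ, hτ⟩
    exact lsym_of_sat τ hτ

theorem poly_vb {α : Type} [TEnc α] {c i : α → ℕ} (hc : Poly c) (hi : Poly i) :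
    Poly (fun a => vb (c a) (i a)) := by
  unfold vb
  have h2 : Poly (fun _ : α => 2) := NPC.Poly.const 2
  refine Poly.ite (Poly.decide_eq hi (NPC.Poly.const 0)) (Poly.mod (Poly.div hc h2) h2) ?_
  exact Poly.ite (Poly.decide_eq hi (NPC.Poly.const 1))
    (Poly.mod (Poly.div hc (NPC.Poly.const 4)) h2) (Poly.mod (Poly.div hc (NPC.Poly.const 8)) h2)

theorem poly_occ {α : Type} [TEnc α] {φ : α → List (Lit ℕ × Lit ℕ × Lit ℕ)}
    {f : α → ℕ → ℕ} {c x b : α → ℕ} (hφ : Poly φ) (hf : Poly (fun y : α × ℕ => f y.1 y.2))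
    (hc : Poly c) (hx : Poly x) (hb : Poly b) :
    Poly (fun a => occ (vr (φ a)) (f a) (c a) (x a) (b a)) := by
  unfold occ
  refine Poly.any (p := fun a i => decide (vr (φ a) (3 * (c a / 48) + i) = x a) &&
    decide (vb (c a) i = (b a + f a (3 * (c a / 48) + i)) % 2))
    (UPoly.const 3).range ?_
  have h1 : Poly (fun y : α × ℕ => y.1) := Poly.fst Poly.id
  have h2 : Poly (fun y : α × ℕ => y.2) := Poly.snd Poly.id
  have ho : Poly (fun y : α × ℕ => 3 * (c y.1 / 48) + y.2) :=
    Poly.add (Poly.mul (NPC.Poly.const 3) (Poly.div (hc.comp h1) (NPC.Poly.const 48))) h2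
  refine NPC.Poly.and (Poly.decide_eq (poly_vr (hφ.comp h1) ho) (hx.comp h1))
    (Poly.decide_eq (poly_vb (hc.comp h1) h2)
      (Poly.mod (Poly.add (hb.comp h1) ?_) (NPC.Poly.const 2)))
  exact hf.comp (Poly.pair h1 ho)

theorem poly_blk {α : Type} [TEnc α] {r c : α → ℕ} (hr : Poly r) (hc : Poly c) :
    Poly (fun a => blk (r a) (c a)) := by
  unfold blk tw
  have k : ∀ n : ℕ, Poly (fun _ : α => n) := fun n => NPC.Poly.const n
  have hp : ∀ {u : α → ℕ}, Poly u → Poly (fun a => u a / 16 % 3) := fun h =>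
    Poly.mod (Poly.div h (k 16)) (k 3)
  refine NPC.Poly.and (NPC.Poly.and (Poly.decide_eq (Poly.div hr (k 48)) (Poly.div hc (k 48)))
    (Poly.decide_eq (Poly.mod (Poly.div hr (k 2)) (k 8)) (Poly.mod (Poly.div hc (k 2)) (k 8)))) ?_
  refine NPC.Poly.and (NPC.Poly.not (Poly.decide_eq (hp hr) (hp hc)))
    (Poly.decide_eq (Poly.mod hr (k 2)) (Poly.mod (Poly.add (Poly.mod hc (k 2)) ?_) (k 2)))
  exact Poly.ite (Poly.decide_and (Poly.decide_eq (hp hr) (k 2)) (Poly.decide_eq (hp hc) (k 0)))
    (k 1) (k 0)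

theorem poly_EE {α : Type} [TEnc α] {φ : α → List (Lit ℕ × Lit ℕ × Lit ℕ)} {r c : α → ℕ}
    (hφ : Poly φ) (hr : Poly r) (hc : Poly c) :
    Poly (fun a => EE (φ a).length (vr (φ a)) (sg (φ a)) (r a) (c a)) := by
  unfold EE
  have h6 : Poly (fun a => 6 * (φ a).length) := Poly.mul (NPC.Poly.const 6) (Poly.length hφ)
  have k2 : Poly (fun _ : α => 2) := NPC.Poly.const 2
  have h1 : Poly (fun y : α × ℕ => y.1) := Poly.fst Poly.id
  have h2 : Poly (fun y : α × ℕ => y.2) := Poly.snd Poly.id
  refine Poly.ite (Poly.decide_lt hr h6) ?_ ?_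
  · refine Poly.ite (Poly.decide_lt hc h6) (NPC.Poly.const _) ?_
    exact poly_occ (f := fun _ _ => 0) hφ (NPC.Poly.const 0) (Poly.sub hc h6) (Poly.div hr k2)
      (Poly.mod hr k2)
  · refine Poly.ite (Poly.decide_lt hc h6) ?_ (poly_blk (Poly.sub hr h6) (Poly.sub hc h6))
    refine poly_occ (f := fun a => ff (sg (φ a))) hφ ?_ (Poly.sub hr h6) (Poly.div hc k2)
      (Poly.mod hc k2)
    unfold ff
    exact Poly.ite (Poly.decide_bool (poly_sg (hφ.comp h1) h2)) (NPC.Poly.const 0)
      (NPC.Poly.const 1)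

theorem poly_ww {α : Type} [TEnc α] {m o : α → ℕ} (hm : Poly m) (ho : Poly o) :
    Poly (fun a => ww (m a) (o a)) := by
  unfold ww
  have k : ∀ n : ℕ, Poly (fun _ : α => n) := fun n => NPC.Poly.const n
  have h6 : Poly (fun a => 6 * m a) := Poly.mul (k 6) hm
  exact Poly.ite (Poly.decide_lt ho h6) (Poly.add (Poly.div ho (k 2)) (k 2))
    (Poly.add (Poly.add (Poly.mul (k 3) hm) (Poly.div (Poly.sub ho h6) (k 16))) (k 2))

theorem red_poly : Poly red := by
  have hm : UPoly (fun φ : List (Lit ℕ × Lit ℕ × Lit ℕ) => φ.length) := UPoly.length Poly.id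
  have hc : ∀ c : ℕ, UPoly (fun φ : List (Lit ℕ × Lit ℕ × Lit ℕ) => c * φ.length) := fun c =>
    UPoly.mul (UPoly.const c) hm
  unfold red
  refine poly_mat (n := fun φ : List (Lit ℕ × Lit ℕ × Lit ℕ) =>
      54 * φ.length + 54 * φ.length * (6 * φ.length + 2))
    (A := fun φ => big (54 * φ.length) (6 * φ.length + 2) (ww φ.length)
      (EE φ.length (vr φ) (sg φ)))
    (UPoly.add (hc 54) (UPoly.mul (hc 54) (UPoly.add (hc 6) (UPoly.const 2)))) ?_
  unfold big
  have hφ : Poly (fun x : (List (Lit ℕ × Lit ℕ × Lit ℕ) × ℕ) × ℕ => x.1.1) :=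
    Poly.fst (Poly.fst Poly.id)
  have hi : Poly (fun x : (List (Lit ℕ × Lit ℕ × Lit ℕ) × ℕ) × ℕ => x.1.2) :=
    Poly.snd (Poly.fst Poly.id)
  have hj : Poly (fun x : (List (Lit ℕ × Lit ℕ × Lit ℕ) × ℕ) × ℕ => x.2) := Poly.snd Poly.id
  have hl : Poly (fun x : (List (Lit ℕ × Lit ℕ × Lit ℕ) × ℕ) × ℕ => x.1.1.length) :=
    Poly.length hφ
  have hN : Poly (fun x : (List (Lit ℕ × Lit ℕ × Lit ℕ) × ℕ) × ℕ => 54 * x.1.1.length) :=
    Poly.mul (NPC.Poly.const 54) hl
  have hW : Poly (fun x : (List (Lit ℕ × Lit ℕ × Lit ℕ) × ℕ) × ℕ => 6 * x.1.1.length + 2) :=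
    Poly.add (Poly.mul (NPC.Poly.const 6) hl) (NPC.Poly.const 2)
  refine Poly.ite (Poly.decide_lt hi hN) ?_ ?_
  · refine Poly.ite (Poly.decide_lt hj hN) (poly_EE hφ hi hj) ?_
    exact NPC.Poly.and (Poly.decide_eq (Poly.div (Poly.sub hj hN) hW) hi)
      (Poly.decide_lt (Poly.mod (Poly.sub hj hN) hW) (poly_ww hl hi))
  · refine Poly.ite (Poly.decide_lt hj hN) ?_ (NPC.Poly.const _)
    exact NPC.Poly.and (Poly.decide_eq (Poly.div (Poly.sub hi hN) hW) hj)
      (Poly.decide_lt (Poly.mod (Poly.sub hi hN) hW) (poly_ww hl hj))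

theorem distinct_vr {φ : List (Lit ℕ × Lit ℕ × Lit ℕ)} (hd : Distinct3 φ) :
    ∀ j < φ.length, ∀ i < 3, ∀ i' < 3, vr φ (3 * j + i) = vr φ (3 * j + i') → i = i' := by
  intro j hj i hi i' hi' h
  obtain ⟨g0, g1, g2⟩ := lits_getD φ j hj
  have hd' := hd _ (List.getElem_mem hj)
  unfold vr at h
  have h3 : i = 0 ∨ i = 1 ∨ i = 2 := by omega
  have h4 : i' = 0 ∨ i' = 1 ∨ i' = 2 := by omega
  rcases h3 with rfl | rfl | rfl <;> rcases h4 with rfl | rfl | rfl <;>
    simp only [Nat.add_zero, g0, g1, g2] at h <;> first | rfl | (exfalso; tauto)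

theorem npHard : NPHardP MatSym :=
  (HardPr.trans (Pr' := fun _ => True) hardPr_SAT3b red_poly (fun _ _ => trivial)
    (Q := MatSym) (fun _ hφ =>
      (red_iff hφ.2.1 (distinct_vr hφ.1)).symm)).toHardI.toNPHardP

/-! ### Membership in NP -/

/-- The verifier: the list is a permutation of the row numbers that symmetrises the matrix. -/
def mver (x : List (List Bool) × List ℕ) : Bool :=
  permTest x.1.length x.2 && (List.range x.1.length).all fun i =>
    (List.range x.1.length).all fun j =>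
      decide (entry x.1 (x.2.getD i 0) j = entry x.1 (x.2.getD j 0) i)

theorem poly_mver : Poly mver := by
  unfold mver
  have hM : Poly (fun x : List (List Bool) × List ℕ => x.1) := Poly.fst Poly.id
  have hl : Poly (fun x : List (List Bool) × List ℕ => x.2) := Poly.snd Poly.id
  refine NPC.Poly.and (poly_permTest (Poly.length hM) hl) ?_
  refine Poly.all (p := fun (x : List (List Bool) × List ℕ) i =>
    (List.range x.1.length).all fun j =>
      decide (entry x.1 (x.2.getD i 0) j = entry x.1 (x.2.getD j 0) i)) (Poly.range_length hM) ?_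
  refine Poly.all (p := fun (x : (List (List Bool) × List ℕ) × ℕ) j =>
      decide (entry x.1.1 (x.1.2.getD x.2 0) j = entry x.1.1 (x.1.2.getD j 0) x.2))
    (Poly.range_length (hM.comp (Poly.fst Poly.id))) ?_
  have hx : Poly (fun y : ((List (List Bool) × List ℕ) × ℕ) × ℕ => y.1.1) :=
    Poly.fst (Poly.fst Poly.id)
  have hi : Poly (fun y : ((List (List Bool) × List ℕ) × ℕ) × ℕ => y.1.2) :=
    Poly.snd (Poly.fst Poly.id)
  have hj : Poly (fun y : ((List (List Bool) × List ℕ) × ℕ) × ℕ => y.2) := Poly.snd Poly.id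
  exact Poly.decide_eq
    (poly_entry (hM.comp hx) (Poly.getD (hl.comp hx) hi (NPC.Poly.const _)) hj)
    (poly_entry (hM.comp hx) (Poly.getD (hl.comp hx) hj (NPC.Poly.const _)) hi)

theorem mver_iff (M : List (List Bool)) : MatSym M ↔ ∃ w : List ℕ,
    sz w ≤ (Polynomial.X * (Polynomial.C 4 * Polynomial.X + 2) + 1 : Polynomial ℕ).eval (sz M) ∧
      mver (M, w) = true := by
  rw [matSym_iff]
  constructor
  · rintro ⟨σ, hσ⟩
    refine ⟨List.ofFn fun i => (σ i).val, ?_, ?_⟩
    · have e1 : sz (List.ofFn fun i : Fin M.length => (σ i).val) ≤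
          M.length * (4 * M.length + 2) + 1 := by
        refine sz_list_lt ?_ (by simp)
        intro x hx
        rw [List.mem_ofFn] at hx
        obtain ⟨i, rfl⟩ := hx
        exact (σ i).2
      have e4 := length_lt_sz M
      have e5 : M.length * (4 * M.length + 2) ≤ sz M * (4 * sz M + 2) :=
        Nat.mul_le_mul (by omega) (by omega)
      simp only [Polynomial.eval_add, Polynomial.eval_mul, Polynomial.eval_X,
        Polynomial.eval_C, Polynomial.eval_one, Polynomial.eval_ofNat]
      omega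
    · unfold mver
      simp only [Bool.and_eq_true, List.all_eq_true, List.mem_range, decide_eq_true_eq]
      refine ⟨?_, ?_⟩
      · unfold permTest
        simp only [Bool.and_eq_true, List.all_eq_true, List.mem_range, decide_eq_true_eq,
          List.length_ofFn, true_and]
        intro v hv
        rw [List.mem_ofFn]
        exact ⟨σ.symm ⟨v, hv⟩, by rw [Equiv.apply_symm_apply]⟩
      · intro i hi j hj
        have h1 : ∀ k, (hk : k < M.length) →
            (List.ofFn fun i : Fin M.length => (σ i).val).getD k 0 = (σ ⟨k, hk⟩).val := by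
          intro k hk
          simp [List.getD_eq_getElem?_getD, hk]
        rw [h1 i hi, h1 j hj]
        exact hσ ⟨i, hi⟩ ⟨j, hj⟩
  · rintro ⟨l, -, h⟩
    unfold mver at h
    simp only [Bool.and_eq_true, List.all_eq_true, List.mem_range, decide_eq_true_eq,
      permTest_iff] at h
    obtain ⟨hp, hs⟩ := h
    have hlen : l.length = M.length := by simpa using hp.length_eq
    have hnd : l.Nodup := hp.nodup_iff.2 List.nodup_range
    have hlt : ∀ i : Fin M.length, l.getD i.val 0 < M.length := by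
      intro i
      have h1 : l.getD i.val 0 ∈ l := by
        rw [List.getD_eq_getElem _ _ (by omega)]
        exact List.getElem_mem _
      have := hp.mem_iff.1 h1
      simpa using this
    let f : Fin M.length → Fin M.length := fun i => ⟨l.getD i.val 0, hlt i⟩
    have hinj : Function.Injective f := by
      intro i j hij
      have e := congrArg Fin.val hij
      change l.getD i.val 0 = l.getD j.val 0 at e
      rw [List.getD_eq_getElem _ _ (by omega), List.getD_eq_getElem _ _ (by omega)] at e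
      exact Fin.ext ((hnd.getElem_inj_iff).1 e)
    refine ⟨Equiv.ofBijective f (Finite.injective_iff_bijective.1 hinj), fun i j => ?_⟩
    exact hs i.val i.2 j.val j.2

theorem inNPP : InNPP MatSym := inNPP_of poly_mver _ mver_iff

end Pool.Agent.H420.MSym
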