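import Pool.Agent.H420.TDSMem

/-!
# Graphs all of whose maximal open packings have equal size: the reduction from 3SAT
-/

namespace Pool.Agent.H420.OPack

open Pool.Agent.NPC Pool.Agent.H420.Gr

section Defs

variable {V : Type} (G : SimpleGraph V)

/-- Open packings: sets of vertices with pairwise disjoint open neighbourhoods. -/
def IsOpenPacking (S : Finset V) : Prop :=
  ∀ u ∈ S, ∀ v ∈ S, u ≠ v → G.neighborSet u ∩ G.neighborSet v = ∅

/-- Open packings that are maximal under inclusion. -/
def IsMaximalOpenPacking (S : Finset V) : Prop :=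
  IsOpenPacking G S ∧ ∀ T : Finset V, IsOpenPacking G T → S ⊆ T → T = S

end Defs

/-- The class of graphs in which all maximal open packings have the same cardinality (the graph is
given by its adjacency matrix). -/
def EqualOpenPackings (M : List (List Bool)) : Prop :=
  ∀ S T : Finset (Fin M.length), IsMaximalOpenPacking (graphOf M) S →
    IsMaximalOpenPacking (graphOf M) T → S.card = T.card

/-! ### The auxiliary relation -/

/-- The vertex `v` is the literal number `o`. -/
def isLit (var : ℕ → ℕ) (sgn : ℕ → Bool) (v o : ℕ) : Bool :=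
  decide (v = 4 * var o + (if sgn o = true then 0 else 1))

/-- The adjacency of the auxiliary graph: the group `4 i, ..., 4 i + 3` of the variable `i` consists
of its two literals, a private vertex and a hub; then come the literal occurrences, the clauses and
a last vertex. -/
def qq (m : ℕ) (var : ℕ → ℕ) (sgn : ℕ → Bool) (v w : ℕ) : Bool :=
  ((decide (v < 12 * m) && decide (w < 12 * m)) && (decide (v / 4 = w / 4) &&
    decide (v % 4 = 3))) ||
  (((decide (v < 12 * m) && decide (12 * m ≤ w)) && (decide (w < 15 * m) &&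
    isLit var sgn v (w - 12 * m))) ||
  (((decide (12 * m ≤ v) && decide (v < 15 * m)) && ((decide (12 * m ≤ w) && decide (w < 15 * m)) ||
    (decide (15 * m ≤ w) && (decide (w < 16 * m) && decide ((v - 12 * m) / 3 = w - 15 * m))))) ||
  (decide (v = 16 * m) && decide (12 * m ≤ w))))

/-- Closed adjacency in the auxiliary graph. -/
def D (m : ℕ) (var : ℕ → ℕ) (sgn : ℕ → Bool) (v w : ℕ) : Prop :=
  v = w ∨ qq m var sgn v w = true ∨ qq m var sgn w v = true

theorem qq_iff {m : ℕ} {var : ℕ → ℕ} {sgn : ℕ → Bool} {v w : ℕ} : qq m var sgn v w = true ↔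
    ((v < 12 * m ∧ w < 12 * m) ∧ v / 4 = w / 4 ∧ v % 4 = 3) ∨
    (((v < 12 * m ∧ 12 * m ≤ w) ∧ w < 15 * m ∧ isLit var sgn v (w - 12 * m) = true) ∨
    (((12 * m ≤ v ∧ v < 15 * m) ∧ ((12 * m ≤ w ∧ w < 15 * m) ∨
      (15 * m ≤ w ∧ w < 16 * m ∧ (v - 12 * m) / 3 = w - 15 * m))) ∨
    (v = 16 * m ∧ 12 * m ≤ w))) := by
  unfold qq
  simp only [Bool.or_eq_true, Bool.and_eq_true, decide_eq_true_eq]

variable {m : ℕ} {var : ℕ → ℕ} {sgn : ℕ → Bool}

theorem D.symm {v w : ℕ} (h : D m var sgn v w) : D m var sgn w v := by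
  rcases h with h | h | h
  · exact Or.inl h.symm
  · exact Or.inr (Or.inr h)
  · exact Or.inr (Or.inl h)

theorem D.rfl' (v : ℕ) : D m var sgn v v := Or.inl rfl

/-- Closed neighbourhoods of literals. -/
theorem D_low {v w : ℕ} (hv : v < 12 * m) (h : D m var sgn v w) :
    (w < 12 * m ∧ v / 4 = w / 4 ∧ (v = w ∨ v % 4 = 3 ∨ w % 4 = 3)) ∨
    (12 * m ≤ w ∧ w < 15 * m ∧ isLit var sgn v (w - 12 * m) = true) := by
  rcases h with h | h | h
  · subst h
    left
    omega
  · rw [qq_iff] at h
    rcases h with h | h | h | h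
    · left; omega
    · right; exact ⟨h.1.2, h.2.1, h.2.2⟩
    · omega
    · omega
  · rw [qq_iff] at h
    rcases h with h | h | h | h
    · left; omega
    · omega
    · omega
    · omega

/-- The closed neighbourhood of a clause. -/
theorem D_clause {w j : ℕ} (hj : j < m) (h : D m var sgn (15 * m + j) w) :
    w = 15 * m + j ∨ w = 16 * m ∨ (12 * m ≤ w ∧ w < 15 * m ∧ (w - 12 * m) / 3 = j) := by
  rcases h with h | h | h
  · exact Or.inl h.symm
  · rw [qq_iff] at h
    rcases h with h | h | h | h <;> omega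
  · rw [qq_iff] at h
    rcases h with h | h | h | h <;> omega

theorem isLit_eq {v o : ℕ} (h : isLit var sgn v o = true) :
    v = 4 * var o + (if sgn o = true then 0 else 1) := by
  unfold isLit at h
  rwa [decide_eq_true_eq] at h

theorem D_lit {o : ℕ} (ho : o < 3 * m) (hv : var o < 3 * m) :
    D m var sgn (4 * var o + (if sgn o = true then 0 else 1)) (12 * m + o) := by
  refine Or.inr (Or.inl ?_)
  rw [qq_iff]
  refine Or.inr (Or.inl ⟨⟨?_, by omega⟩, by omega, ?_⟩)
  · split_ifs <;> omega
  · have e : 12 * m + o - 12 * m = o := by omega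
    rw [e]
    unfold isLit
    rw [decide_eq_true_eq]

/-- Everything in the last group is adjacent to its hub `16 m`. -/
theorem D_last {v : ℕ} (hv : 12 * m ≤ v) : D m var sgn v (16 * m) := by
  refine Or.inr (Or.inr ?_)
  rw [qq_iff]
  exact Or.inr (Or.inr (Or.inr ⟨rfl, hv⟩))

theorem D_hub {v : ℕ} (hv : v < 12 * m) : D m var sgn v (4 * (v / 4) + 3) := by
  refine Or.inr (Or.inr ?_)
  rw [qq_iff]
  exact Or.inl ⟨⟨by omega, hv⟩, by omega, by omega⟩

theorem D_occ {o o' : ℕ} (ho : o < 3 * m) (ho' : o' < 3 * m) :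
    D m var sgn (12 * m + o) (12 * m + o') := by
  refine Or.inr (Or.inl ?_)
  rw [qq_iff]
  exact Or.inr (Or.inr (Or.inl ⟨⟨by omega, by omega⟩, Or.inl ⟨by omega, by omega⟩⟩))

theorem D_cl {o : ℕ} (ho : o < 3 * m) : D m var sgn (15 * m + o / 3) (12 * m + o) := by
  refine Or.inr (Or.inr ?_)
  rw [qq_iff]
  refine Or.inr (Or.inr (Or.inl ⟨⟨by omega, by omega⟩, Or.inr ⟨by omega, by omega, ?_⟩⟩))
  omega

/-! ### The graph -/

/-- The adjacency of the graph of the reduction (two adjacent copies of each vertex). -/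
def adj (m : ℕ) (var : ℕ → ℕ) (sgn : ℕ → Bool) (a b : ℕ) : Bool :=
  decide (a / 2 = b / 2) || qq m var sgn (a / 2) (b / 2)

/-- The graph of the reduction. -/
abbrev KK (m : ℕ) (var : ℕ → ℕ) (sgn : ℕ → Bool) : SimpleGraph (Fin (2 * (16 * m + 1))) :=
  eGraph (2 * (16 * m + 1)) (adj m var sgn)

theorem kk_adj {a b : Fin (2 * (16 * m + 1))} :
    (KK m var sgn).Adj a b ↔ a ≠ b ∧ D m var sgn (a.val / 2) (b.val / 2) := by
  unfold D
  constructor
  · rintro ⟨h1, h2⟩
    refine ⟨h1, ?_⟩
    simp only [adj, Bool.or_eq_true, decide_eq_true_eq] at h2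
    rcases h2 with (h | h) | (h | h)
    · exact Or.inl h
    · exact Or.inr (Or.inl h)
    · exact Or.inl h.symm
    · exact Or.inr (Or.inr h)
  · rintro ⟨h1, h2⟩
    refine ⟨h1, ?_⟩
    simp only [adj, Bool.or_eq_true, decide_eq_true_eq]
    rcases h2 with h | h | h
    · exact Or.inl (Or.inl h)
    · exact Or.inl (Or.inr h)
    · exact Or.inr (Or.inr h)

/-- Two vertices with a common neighbour. -/
def Conf (m : ℕ) (var : ℕ → ℕ) (sgn : ℕ → Bool) (a b : Fin (2 * (16 * m + 1))) : Prop :=
  ∃ c, (KK m var sgn).Adj a c ∧ (KK m var sgn).Adj b c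

theorem conf_D {a b : Fin (2 * (16 * m + 1))} (h : Conf m var sgn a b) :
    ∃ w, D m var sgn (a.val / 2) w ∧ D m var sgn (b.val / 2) w := by
  obtain ⟨c, h1, h2⟩ := h
  rw [kk_adj] at h1 h2
  exact ⟨_, h1.2, h2.2⟩

variable {S : Finset (Fin (2 * (16 * m + 1)))}

theorem pack_iff : IsOpenPacking (KK m var sgn) S ↔
    ∀ u ∈ S, ∀ v ∈ S, u ≠ v → ¬ Conf m var sgn u v := by
  unfold IsOpenPacking Conf
  refine forall₂_congr fun u _ => forall₂_congr fun v _ => forall_congr' fun _ => ?_
  rw [Set.eq_empty_iff_forall_notMem]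
  simp only [Set.mem_inter_iff, SimpleGraph.mem_neighborSet, not_exists]

/-- Two different vertices adjacent (or equal) to a common hub `h` that has another neighbour. -/
theorem conf_of_hub {a b : Fin (2 * (16 * m + 1))} (hne : a ≠ b) {h w : ℕ} (hh : h < 16 * m + 1)
    (hw : w < 16 * m + 1) (hwh : w ≠ h) (hwD : D m var sgn h w)
    (ha : D m var sgn (a.val / 2) h) (hb : D m var sgn (b.val / 2) h) : Conf m var sgn a b := by
  have hab : a.val ≠ b.val := fun e => hne (Fin.ext e)
  by_cases h1 : a.val / 2 = h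
  · by_cases h2 : b.val / 2 = h
    · refine ⟨⟨2 * w, by omega⟩, kk_adj.2 ⟨?_, ?_⟩, kk_adj.2 ⟨?_, ?_⟩⟩
      · intro e
        have := congrArg Fin.val e
        simp only at this
        omega
      · rw [h1]
        have e : 2 * w / 2 = w := by omega
        simp only [e]
        exact hwD
      · intro e
        have := congrArg Fin.val e
        simp only at this
        omega
      · rw [h2]
        have e : 2 * w / 2 = w := by omega
        simp only [e]
        exact hwD
    · have e : (2 * h + (1 - a.val % 2)) / 2 = h := by omega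
      refine ⟨⟨2 * h + (1 - a.val % 2), by omega⟩, kk_adj.2 ⟨?_, ?_⟩, kk_adj.2 ⟨?_, ?_⟩⟩
      · intro e'
        have := congrArg Fin.val e'
        simp only at this
        omega
      · simp only [e]
        exact ha
      · intro e'
        have := congrArg Fin.val e'
        simp only at this
        omega
      · simp only [e]
        exact hb
  · have e : (2 * h + (1 - b.val % 2)) / 2 = h := by omega
    refine ⟨⟨2 * h + (1 - b.val % 2), by omega⟩, kk_adj.2 ⟨?_, ?_⟩, kk_adj.2 ⟨?_, ?_⟩⟩
    · intro e'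
      have := congrArg Fin.val e'
      simp only at this
      omega
    · simp only [e]
      exact ha
    · intro e'
      have := congrArg Fin.val e'
      simp only at this
      omega
    · simp only [e]
      exact hb

/-- The group of a vertex. -/
def grp (m : ℕ) (a : ℕ) : ℕ := if a / 2 < 12 * m then a / 2 / 4 else 3 * m

theorem grp_lt (a : Fin (2 * (16 * m + 1))) : grp m a.val < 3 * m + 1 := by
  unfold grp
  split_ifs <;> omega

theorem conf_of_grp (hm : 0 < m) {a b : Fin (2 * (16 * m + 1))} (hne : a ≠ b)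
    (h : grp m a.val = grp m b.val) : Conf m var sgn a b := by
  unfold grp at h
  by_cases ha : a.val / 2 < 12 * m
  · by_cases hb : b.val / 2 < 12 * m
    · rw [if_pos ha, if_pos hb] at h
      refine conf_of_hub hne (h := 4 * (a.val / 2 / 4) + 3) (w := 4 * (a.val / 2 / 4)) (by omega)
        (by omega) (by omega) ?_ (D_hub ha) ?_
      · have := (D_hub (m := m) (var := var) (sgn := sgn)
          (v := 4 * (a.val / 2 / 4)) (by omega)).symm
        have e : 4 * (4 * (a.val / 2 / 4) / 4) + 3 = 4 * (a.val / 2 / 4) + 3 := by omega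
        rwa [e] at this
      · rw [h]
        exact D_hub hb
    · rw [if_pos ha, if_neg hb] at h
      omega
  · by_cases hb : b.val / 2 < 12 * m
    · rw [if_neg ha, if_pos hb] at h
      omega
    · refine conf_of_hub hne (h := 16 * m) (w := 12 * m) (by omega) (by omega) (by omega) ?_
        (D_last (by omega)) (D_last (by omega))
      exact (D_last (by omega)).symm

theorem pack_inj (hm : 0 < m) (hS : IsOpenPacking (KK m var sgn) S) {a b} (ha : a ∈ S)
    (hb : b ∈ S) (h : grp m a.val = grp m b.val) : a = b := by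
  by_contra hne
  exact pack_iff.1 hS a ha b hb hne (conf_of_grp hm hne h)

theorem pack_card (hm : 0 < m) (hS : IsOpenPacking (KK m var sgn) S) :
    (S.image (fun a => grp m a.val)).card = S.card := by
  refine Finset.card_image_of_injOn fun a ha b hb h => ?_
  exact pack_inj hm hS (by simpa using ha) (by simpa using hb) h

theorem image_sub : S.image (fun a => grp m a.val) ⊆ Finset.range (3 * m + 1) := by
  intro g hg
  rw [Finset.mem_image] at hg
  obtain ⟨a, _, rfl⟩ := hg
  rw [Finset.mem_range]
  exact grp_lt a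

theorem card_le (hm : 0 < m) (hS : IsOpenPacking (KK m var sgn) S) : S.card ≤ 3 * m + 1 := by
  rw [← pack_card hm hS]
  simpa using Finset.card_le_card (image_sub (S := S))

/-- A vertex outside a maximal packing is in conflict with it. -/
theorem exists_conf (hS : IsMaximalOpenPacking (KK m var sgn) S) {a} (ha : a ∉ S) :
    ∃ b ∈ S, Conf m var sgn a b := by
  by_contra hcon
  push Not at hcon
  have h1 : IsOpenPacking (KK m var sgn) (insert a S) := by
    rw [pack_iff]
    intro u hu v hv hne hc
    rw [Finset.mem_insert] at hu hv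
    rcases hu with rfl | hu
    · rcases hv with rfl | hv
      · exact hne rfl
      · exact hcon v hv hc
    · rcases hv with rfl | hv
      · obtain ⟨c, h1, h2⟩ := hc
        exact hcon u hu ⟨c, h2, h1⟩
      · exact pack_iff.1 hS.1 u hu v hv hne hc
  have h2 := hS.2 _ h1 (Finset.subset_insert _ _)
  exact ha (h2 ▸ Finset.mem_insert_self a S)

/-- The conflicts of the private vertex of a variable. -/
theorem conf_private {a b : Fin (2 * (16 * m + 1))} {i : ℕ} (hi : i < 3 * m)
    (ha : a.val / 2 = 4 * i + 2) (h : Conf m var sgn a b) : b.val / 2 < 12 * m ∧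
      b.val / 2 / 4 = i := by
  obtain ⟨w, h1, h2⟩ := conf_D h
  rw [ha] at h1
  have h3 : w < 12 * m ∧ w / 4 = i := by
    rcases D_low (by omega) h1 with h | ⟨_, _, h⟩
    · omega
    · have := isLit_eq h
      split_ifs at this <;> omega
  rcases D_low h3.1 h2.symm with h | ⟨h4, h5, h6⟩
  · omega
  · exfalso
    have h7 := isLit_eq h6
    rcases D_low (by omega) h1 with h | ⟨_, _, h⟩
    · split_ifs at h7 <;> omega
    · omega

theorem meets_group (hS : IsMaximalOpenPacking (KK m var sgn) S) {i : ℕ} (hi : i < 3 * m) :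
    ∃ b ∈ S, b.val / 2 < 12 * m ∧ b.val / 2 / 4 = i := by
  by_cases h : (⟨2 * (4 * i + 2), by omega⟩ : Fin (2 * (16 * m + 1))) ∈ S
  · refine ⟨_, h, ?_, ?_⟩ <;> simp only <;> omega
  · obtain ⟨b, hb, hc⟩ := exists_conf hS h
    exact ⟨b, hb, conf_private hi (by simp only; omega) hc⟩

/-- A maximal packing missing the last group gives a satisfying assignment. -/
theorem sat_of_miss (hm : 0 < m) (hS : IsMaximalOpenPacking (KK m var sgn) S)
    (hmiss : ∀ b ∈ S, b.val / 2 < 12 * m) :
    ∃ τ : ℕ → Bool, ∀ j < m, ∃ r < 3, τ (var (3 * j + r)) = sgn (3 * j + r) := by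
  classical
  refine ⟨fun x => decide (∃ b ∈ S, b.val / 2 = 4 * x), fun j hj => ?_⟩
  have hnot : (⟨2 * (15 * m + j), by omega⟩ : Fin (2 * (16 * m + 1))) ∉ S := by
    intro h
    have := hmiss _ h
    simp only at this
    omega
  obtain ⟨b, hb, hc⟩ := exists_conf hS hnot
  obtain ⟨w, h1, h2⟩ := conf_D hc
  have e : 2 * (15 * m + j) / 2 = 15 * m + j := by omega
  simp only [e] at h1
  have hblt := hmiss b hb
  obtain ⟨hw1, hw2, hl⟩ : 12 * m ≤ w ∧ w < 15 * m ∧ isLit var sgn (b.val / 2) (w - 12 * m) = true := by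
    rcases D_clause hj h1 with h | h | h
    · rcases D_low hblt h2 with h' | h' <;> omega
    · rcases D_low hblt h2 with h' | h' <;> omega
    · rcases D_low hblt h2 with h' | h'
      · omega
      · exact h'
  have hdiv : (w - 12 * m) / 3 = j := by
    rcases D_clause hj h1 with h | h | h
    · omega
    · omega
    · exact h.2.2
  refine ⟨(w - 12 * m) - 3 * j, by omega, ?_⟩
  have e2 : 3 * j + ((w - 12 * m) - 3 * j) = w - 12 * m := by omega
  rw [e2]
  have hv := isLit_eq hl
  cases hs : sgn (w - 12 * m) with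
  | true =>
    rw [hs] at hv
    simp only [if_true, add_zero] at hv
    rw [decide_eq_true_eq]
    exact ⟨b, hb, hv⟩
  | false =>
    rw [hs] at hv
    simp only [Bool.false_eq_true, if_false] at hv
    rw [decide_eq_false_iff_not]
    rintro ⟨b', hb', h'⟩
    have hblt' := hmiss b' hb'
    have : b' = b := pack_inj hm hS.1 hb' hb (by
      unfold grp
      rw [if_pos hblt, if_pos hblt']
      omega)
    rw [this] at h'
    omega

/-- Without a satisfying assignment all maximal packings have size `3 m + 1`. -/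
theorem card_eq_of_unsat (hm : 0 < m) (hS : IsMaximalOpenPacking (KK m var sgn) S)
    (h : ¬ ∃ τ : ℕ → Bool, ∀ j < m, ∃ r < 3, τ (var (3 * j + r)) = sgn (3 * j + r)) :
    S.card = 3 * m + 1 := by
  refine le_antisymm (card_le hm hS.1) ?_
  rw [← pack_card hm hS.1, ← Finset.card_range (3 * m + 1)]
  refine Finset.card_le_card fun g hg => ?_
  rw [Finset.mem_range] at hg
  rw [Finset.mem_image]
  rcases Nat.lt_or_ge g (3 * m) with hlt | hge
  · obtain ⟨b, hb, h1, h2⟩ := meets_group hS hlt
    refine ⟨b, hb, ?_⟩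
    unfold grp
    rw [if_pos h1]
    exact h2
  · by_contra hcon
    refine h (sat_of_miss hm hS fun b hb => ?_)
    by_contra hlt
    refine hcon ⟨b, hb, ?_⟩
    unfold grp
    rw [if_neg hlt]
    omega

/-- The packing of private vertices and the last vertex. -/
theorem exists_big (hm : 0 < m) :
    ∃ S, IsMaximalOpenPacking (KK m var sgn) S ∧ S.card = 3 * m + 1 := by
  classical
  let F : Fin (3 * m + 1) → Fin (2 * (16 * m + 1)) := fun i =>
    ⟨if i.val < 3 * m then 2 * (4 * i.val + 2) else 2 * (16 * m), by split_ifs <;> omega⟩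
  have hF0 : ∀ i : Fin (3 * m + 1), (F i).val = if i.val < 3 * m then 2 * (4 * i.val + 2) else
    2 * (16 * m) := fun _ => rfl
  have hF : Function.Injective F := by
    intro i j h
    have h1 : (F i).val = (F j).val := congrArg Fin.val h
    rw [hF0, hF0] at h1
    have h2 := i.2
    have h3 := j.2
    refine Fin.ext ?_
    split_ifs at h1 <;> omega
  have hcard : (Finset.univ.image F).card = 3 * m + 1 := by
    rw [Finset.card_image_of_injective _ hF, Finset.card_univ, Fintype.card_fin]
  have key : ∀ i j : Fin (3 * m + 1), i.val < 3 * m → i ≠ j → ¬ Conf m var sgn (F i) (F j) := by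
    intro i j hi hne hc
    have h1 := conf_private (i := i.val) hi (by rw [hF0, if_pos hi]; omega) hc
    rw [hF0] at h1
    have h2 := j.2
    apply hne
    refine Fin.ext ?_
    split_ifs at h1 <;> omega
  refine ⟨Finset.univ.image F, ⟨?_, ?_⟩, hcard⟩
  · rw [pack_iff]
    intro u hu v hv hne hc
    rw [Finset.mem_image] at hu hv
    obtain ⟨i, _, rfl⟩ := hu
    obtain ⟨j, _, rfl⟩ := hv
    have hij : i ≠ j := fun e => hne (by rw [e])
    by_cases hi : i.val < 3 * m
    · exact key i j hi hij hc
    · have hj : j.val < 3 * m := by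
        by_contra hj
        exact hij (Fin.ext (by omega))
      obtain ⟨c, h1, h2⟩ := hc
      exact key j i hj (Ne.symm hij) ⟨c, h2, h1⟩
  · intro T hT hsub
    refine (Finset.eq_of_subset_of_card_le hsub ?_).symm
    rw [hcard]
    exact card_le hm hT

/-- The packing of the true literals of a satisfying assignment. -/
theorem exists_small (hm : 0 < m) (hvar : ∀ o < 3 * m, var o < 3 * m)
    (h : ∃ τ : ℕ → Bool, ∀ j < m, ∃ r < 3, τ (var (3 * j + r)) = sgn (3 * j + r)) :
    ∃ S, IsMaximalOpenPacking (KK m var sgn) S ∧ S.card = 3 * m := by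
  classical
  obtain ⟨τ, hτ⟩ := h
  let F : Fin (3 * m) → Fin (2 * (16 * m + 1)) := fun i =>
    ⟨2 * (4 * i.val + (if τ i.val = true then 0 else 1)), by split_ifs <;> omega⟩
  have hF0 : ∀ i : Fin (3 * m), (F i).val / 2 = 4 * i.val + (if τ i.val = true then 0 else 1) := by
    intro i
    show 2 * (4 * i.val + (if τ i.val = true then 0 else 1)) / 2 = _
    omega
  have hlow : ∀ i : Fin (3 * m), (F i).val / 2 < 12 * m := by
    intro i
    rw [hF0]
    have := i.2
    split_ifs <;> omega
  have hgrp : ∀ i : Fin (3 * m), grp m (F i).val = i.val := by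
    intro i
    unfold grp
    rw [if_pos (hlow i), hF0]
    split_ifs <;> omega
  have hF : Function.Injective F := by
    intro i j h
    have h1 := hgrp i
    rw [h, hgrp j] at h1
    exact Fin.ext h1.symm
  refine ⟨Finset.univ.image F, ⟨?_, ?_⟩, ?_⟩
  · rw [pack_iff]
    intro u hu v hv hne hc
    rw [Finset.mem_image] at hu hv
    obtain ⟨i, _, rfl⟩ := hu
    obtain ⟨j, _, rfl⟩ := hv
    have hij : i.val ≠ j.val := fun e => hne (by rw [Fin.ext e])
    obtain ⟨w, h1, h2⟩ := conf_D hc
    have h3 := D_low (hlow i) h1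
    have h4 := D_low (hlow j) h2
    rw [hF0] at h3 h4
    rcases h3 with h3 | ⟨_, _, h3⟩
    · rcases h4 with h4 | ⟨_, _, h4⟩
      · split_ifs at h3 h4 <;> omega
      · omega
    · rcases h4 with h4 | ⟨_, _, h4⟩
      · omega
      · have e1 := isLit_eq h3
        have e2 := isLit_eq h4
        split_ifs at e1 e2 <;> omega
  · intro T hT hsub
    refine (Finset.Subset.antisymm hsub fun b hb => ?_).symm
    by_contra hbS
    by_cases hb1 : b.val / 2 < 12 * m
    · -- same group
      let i : Fin (3 * m) := ⟨b.val / 2 / 4, by omega⟩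
      have h1 : F i ∈ Finset.univ.image F := Finset.mem_image_of_mem _ (Finset.mem_univ _)
      have h2 : b = F i := pack_inj hm hT hb (hsub h1) (by
        rw [hgrp]
        unfold grp
        rw [if_pos hb1])
      exact hbS (h2 ▸ h1)
    · obtain ⟨o, ho, hto, hD⟩ : ∃ o < 3 * m, τ (var o) = sgn o ∧
          D m var sgn (b.val / 2) (12 * m + o) := by
        by_cases hb2 : 15 * m ≤ b.val / 2 ∧ b.val / 2 < 16 * m
        · obtain ⟨r, hr, hr'⟩ := hτ (b.val / 2 - 15 * m) (by omega)
          refine ⟨3 * (b.val / 2 - 15 * m) + r, by omega, hr', ?_⟩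
          have := D_cl (m := m) (var := var) (sgn := sgn)
            (o := 3 * (b.val / 2 - 15 * m) + r) (by omega)
          have e : 15 * m + (3 * (b.val / 2 - 15 * m) + r) / 3 = b.val / 2 := by omega
          rwa [e] at this
        · obtain ⟨r, hr, hr'⟩ := hτ 0 hm
          refine ⟨3 * 0 + r, by omega, hr', ?_⟩
          by_cases hb3 : b.val / 2 < 15 * m
          · have := D_occ (m := m) (var := var) (sgn := sgn) (o := b.val / 2 - 12 * m)
              (o' := 3 * 0 + r) (by omega) (by omega)
            have e : 12 * m + (b.val / 2 - 12 * m) = b.val / 2 := by omega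
            rwa [e] at this
          · have hb4 := b.2
            have e : b.val / 2 = 16 * m := by omega
            rw [e]
            exact (D_last (by omega)).symm
      let i : Fin (3 * m) := ⟨var o, hvar o ho⟩
      have h1 : F i ∈ Finset.univ.image F := Finset.mem_image_of_mem _ (Finset.mem_univ _)
      have hDi : D m var sgn ((F i).val / 2) (12 * m + o) := by
        rw [hF0]
        have := D_lit (var := var) (sgn := sgn) ho (hvar o ho)
        rw [← hto] at this
        exact this
      have hne : F i ≠ b := by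
        intro e
        have := hlow i
        rw [e] at this
        exact hb1 this
      refine pack_iff.1 hT _ (hsub h1) b hb hne ?_
      have e : (2 * (12 * m + o) + (1 - b.val % 2)) / 2 = 12 * m + o := by omega
      refine ⟨⟨2 * (12 * m + o) + (1 - b.val % 2), by omega⟩, kk_adj.2 ⟨?_, ?_⟩,
        kk_adj.2 ⟨?_, ?_⟩⟩
      · intro e'
        have h2 := congrArg Fin.val e'
        have h3 := hlow i
        rw [h2] at h3
        simp only at h3
        omega
      · simp only [e]
        exact hDi
      · intro e'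
        have := congrArg Fin.val e'
        simp only at this
        omega
      · simp only [e]
        exact hD
  · rw [Finset.card_image_of_injective _ hF, Finset.card_univ, Fintype.card_fin]

theorem main_iff (hm : 0 < m) (hvar : ∀ o < 3 * m, var o < 3 * m) :
    (∀ S T, IsMaximalOpenPacking (KK m var sgn) S → IsMaximalOpenPacking (KK m var sgn) T →
      S.card = T.card) ↔
    ¬ ∃ τ : ℕ → Bool, ∀ j < m, ∃ r < 3, τ (var (3 * j + r)) = sgn (3 * j + r) := by
  constructor
  · intro h hsat
    obtain ⟨S, hS, hc⟩ := exists_big (var := var) (sgn := sgn) hm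
    obtain ⟨T, hT, hc'⟩ := exists_small hm hvar hsat
    have := h S T hS hT
    omega
  · intro h S T hS hT
    rw [card_eq_of_unsat hm hS h, card_eq_of_unsat hm hT h]

/-! ### The reduction is computable in polynomial time -/

/-- The reduction. -/
def red (φ : List (Lit ℕ × Lit ℕ × Lit ℕ)) : List (List Bool) :=
  mat (2 * (16 * φ.length + 1)) (adj φ.length (vr φ) (sg φ))

theorem poly_isLit {α : Type} [TEnc α] {φ : α → List (Lit ℕ × Lit ℕ × Lit ℕ)} {v o : α → ℕ}
    (hφ : Poly φ) (hv : Poly v) (ho : Poly o) :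
    Poly (fun a => isLit (vr (φ a)) (sg (φ a)) (v a) (o a)) := by
  unfold isLit
  refine Poly.decide_eq hv (Poly.add (Poly.mul (NPC.Poly.const 4) (poly_vr hφ ho)) ?_)
  exact Poly.ite (Poly.decide_bool (poly_sg hφ ho)) (NPC.Poly.const 0) (NPC.Poly.const 1)

theorem poly_qq {α : Type} [TEnc α] {φ : α → List (Lit ℕ × Lit ℕ × Lit ℕ)} {v w : α → ℕ}
    (hφ : Poly φ) (hv : Poly v) (hw : Poly w) :
    Poly (fun a => qq (φ a).length (vr (φ a)) (sg (φ a)) (v a) (w a)) := by
  have hm : Poly (fun a => (φ a).length) := Poly.length hφ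
  have hc : ∀ c : ℕ, Poly (fun a => c * (φ a).length) := fun c => Poly.mul (NPC.Poly.const c) hm
  unfold qq
  refine NPC.Poly.or (NPC.Poly.and (NPC.Poly.and (Poly.decide_lt hv (hc 12))
    (Poly.decide_lt hw (hc 12))) (NPC.Poly.and (Poly.decide_eq (Poly.div hv (NPC.Poly.const 4))
      (Poly.div hw (NPC.Poly.const 4))) (Poly.decide_eq (Poly.mod hv (NPC.Poly.const 4))
        (NPC.Poly.const 3)))) ?_
  refine NPC.Poly.or (NPC.Poly.and (NPC.Poly.and (Poly.decide_lt hv (hc 12))
    (Poly.decide_le (hc 12) hw)) (NPC.Poly.and (Poly.decide_lt hw (hc 15))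
      (poly_isLit hφ hv (Poly.sub hw (hc 12))))) ?_
  refine NPC.Poly.or (NPC.Poly.and (NPC.Poly.and (Poly.decide_le (hc 12) hv)
    (Poly.decide_lt hv (hc 15))) (NPC.Poly.or (NPC.Poly.and (Poly.decide_le (hc 12) hw)
      (Poly.decide_lt hw (hc 15))) (NPC.Poly.and (Poly.decide_le (hc 15) hw)
        (NPC.Poly.and (Poly.decide_lt hw (hc 16)) (Poly.decide_eq
          (Poly.div (Poly.sub hv (hc 12)) (NPC.Poly.const 3)) (Poly.sub hw (hc 15))))))) ?_
  exact NPC.Poly.and (Poly.decide_eq hv (hc 16)) (Poly.decide_le (hc 12) hw)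

theorem red_poly : Poly red := by
  unfold red
  refine poly_mat (n := fun φ : List (Lit ℕ × Lit ℕ × Lit ℕ) => 2 * (16 * φ.length + 1))
    (A := fun φ i j => adj φ.length (vr φ) (sg φ) i j)
    (UPoly.mul (UPoly.const 2) (UPoly.add (UPoly.mul (UPoly.const 16) (UPoly.length Poly.id))
      (UPoly.const 1))) ?_
  unfold adj
  have hφ : Poly (fun x : (List (Lit ℕ × Lit ℕ × Lit ℕ) × ℕ) × ℕ => x.1.1) :=
    Poly.fst (Poly.fst Poly.id)
  have hi : Poly (fun x : (List (Lit ℕ × Lit ℕ × Lit ℕ) × ℕ) × ℕ => x.1.2 / 2) :=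
    Poly.div (Poly.snd (Poly.fst Poly.id)) (NPC.Poly.const 2)
  have hj : Poly (fun x : (List (Lit ℕ × Lit ℕ × Lit ℕ) × ℕ) × ℕ => x.2 / 2) :=
    Poly.div (Poly.snd Poly.id) (NPC.Poly.const 2)
  exact NPC.Poly.or (Poly.decide_eq hi hj) (poly_qq hφ hi hj)

theorem coNPHard : CoNPHardP EqualOpenPackings :=
  (HardPr.trans (Pr' := fun _ => True) hardPr_SAT3b red_poly (fun _ _ => trivial)
    (Q := fun M => ¬ EqualOpenPackings M) (fun φ hφ => by
      obtain ⟨-, hb, hne⟩ := hφ
      have hm : 0 < φ.length := List.length_pos_iff.2 hne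
      have h := graphOf_mat (fun k G => ∀ S T : Finset (Fin k), IsMaximalOpenPacking G S →
        IsMaximalOpenPacking G T → S.card = T.card) (2 * (16 * φ.length + 1))
        (adj φ.length (vr φ) (sg φ))
      unfold EqualOpenPackings red
      rw [h, main_iff hm (fun o ho => vr_lt hb ho), not_not, sat_iff])).toHardI.toCoNPHardP

end Pool.Agent.H420.OPack
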