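import Pool.Agent.H420.OPack

/-!
# Graphs all of whose maximal open packings have equal size: membership in coNP
-/

namespace Pool.Agent.H420.OPack

open Pool.Agent.NPC Pool.Agent.H420.Gr Pool.Agent.H420.TDS

/-- Test: `i` and `j` have a common neighbour. -/
def confB (M : List (List Bool)) (i j : ℕ) : Bool :=
  (List.range M.length).any (fun k => edgeB M i k && edgeB M j k)

/-- Test: the entries of `S` less than `n` form a maximal open packing. -/
def maxB (M : List (List Bool)) (S : List ℕ) : Bool :=
  (List.range M.length).all (fun u => (!decide (u ∈ S) ||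
    (List.range M.length).all (fun v => !decide (v ∈ S) || (decide (u = v) || !confB M u v))) &&
    (decide (u ∈ S) ||
      (List.range M.length).any (fun v => decide (v ∈ S) && confB M u v)))

/-- The number of entries of `S` less than `n`. -/
def cardB (M : List (List Bool)) (S : List ℕ) : ℕ :=
  ((List.range M.length).filter (fun u => decide (u ∈ S))).length

/-- The set coded by a list. -/
def toSet (n : ℕ) (S : List ℕ) : Finset (Fin n) := Finset.univ.filter (fun u => u.val ∈ S)

theorem mem_toSet {n : ℕ} {S : List ℕ} {u : Fin n} : u ∈ toSet n S ↔ u.val ∈ S := by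
  simp [toSet]

theorem card_toSet {M : List (List Bool)} {S : List ℕ} :
    (toSet M.length S).card = cardB M S := by
  classical
  unfold cardB
  have h1 : (toSet M.length S).image Fin.val =
      ((List.range M.length).filter (fun u => decide (u ∈ S))).toFinset := by
    ext k
    simp only [Finset.mem_image, mem_toSet, List.mem_toFinset, List.mem_filter, List.mem_range,
      decide_eq_true_eq]
    constructor
    · rintro ⟨u, hu, rfl⟩
      exact ⟨u.2, hu⟩
    · rintro ⟨hk, h⟩
      exact ⟨⟨k, hk⟩, h, rfl⟩
  rw [← Finset.card_image_of_injective _ Fin.val_injective, h1,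
    List.toFinset_card_of_nodup (List.nodup_range.filter _)]

theorem confB_iff {M : List (List Bool)} {u v : Fin M.length} : confB M u v = true ↔
    ((graphOf M).neighborSet u ∩ (graphOf M).neighborSet v).Nonempty := by
  unfold confB
  simp only [List.any_eq_true, List.mem_range, Bool.and_eq_true]
  constructor
  · rintro ⟨k, hk, h1, h2⟩
    exact ⟨⟨k, hk⟩, adj_edgeB.2 h1, adj_edgeB.2 h2⟩
  · rintro ⟨k, h1, h2⟩
    exact ⟨k, k.2, adj_edgeB.1 h1, adj_edgeB.1 h2⟩

theorem maxB_iff {M : List (List Bool)} {S : List ℕ} : maxB M S = true ↔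
    IsMaximalOpenPacking (graphOf M) (toSet M.length S) := by
  classical
  unfold maxB
  simp only [List.all_eq_true, List.mem_range, Bool.and_eq_true, Bool.or_eq_true,
    Bool.not_eq_true', decide_eq_false_iff_not, decide_eq_true_eq, List.any_eq_true]
  constructor
  · intro h
    refine ⟨?_, ?_⟩
    · intro u hu v hv hne
      rw [mem_toSet] at hu hv
      have h1 := ((h u u.2).1.resolve_left (not_not.2 hu) v v.2).resolve_left (not_not.2 hv)
      have h2 := h1.resolve_left (fun e => hne (Fin.ext e))
      rw [← Set.not_nonempty_iff_eq_empty, ← confB_iff, h2]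
      simp
    · intro T hT hsub
      refine (Finset.Subset.antisymm hsub fun u hu => ?_).symm
      by_contra hn
      obtain ⟨v, hv, hvS, hc⟩ := (h u u.2).2.resolve_left (fun h => hn (mem_toSet.2 h))
      have hc' : confB M u (⟨v, hv⟩ : Fin M.length) = true := hc
      rw [confB_iff] at hc'
      have hvT : (⟨v, hv⟩ : Fin M.length) ∈ T := hsub (mem_toSet.2 hvS)
      rw [hT u hu _ hvT (fun e => hn (e ▸ mem_toSet.2 hvS))] at hc'
      exact Set.not_nonempty_empty hc'
  · rintro ⟨h1, h2⟩ u hu
    refine ⟨?_, ?_⟩
    · by_cases huS : u ∈ S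
      · right
        intro v hv
        by_cases hvS : v ∈ S
        · right
          by_cases hne : u = v
          · exact Or.inl hne
          · right
            have h3 := h1 ⟨u, hu⟩ (mem_toSet.2 huS) ⟨v, hv⟩ (mem_toSet.2 hvS)
              (fun e => hne (congrArg Fin.val e))
            rw [← Bool.not_eq_true]
            intro hc
            have hc' : confB M (⟨u, hu⟩ : Fin M.length) (⟨v, hv⟩ : Fin M.length) = true := hc
            rw [confB_iff, h3] at hc'
            exact Set.not_nonempty_empty hc'
        · exact Or.inl hvS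
      · exact Or.inl huS
    · by_cases huS : u ∈ S
      · exact Or.inl huS
      · right
        by_contra hcon
        push Not at hcon
        have h3 : IsOpenPacking (graphOf M) (insert ⟨u, hu⟩ (toSet M.length S)) := by
          intro a ha b hb hne
          rw [Finset.mem_insert] at ha hb
          have key : ∀ c ∈ toSet M.length S,
              (graphOf M).neighborSet ⟨u, hu⟩ ∩ (graphOf M).neighborSet c = ∅ := by
            intro c hc
            rw [← Set.not_nonempty_iff_eq_empty, ← confB_iff]
            exact hcon c c.2 (mem_toSet.1 hc)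
          rcases ha with rfl | ha
          · rcases hb with rfl | hb
            · exact absurd rfl hne
            · exact key b hb
          · rcases hb with rfl | hb
            · rw [Set.inter_comm]
              exact key a ha
            · exact h1 a ha b hb hne
        have h4 := h2 _ h3 (Finset.subset_insert _ _)
        exact huS (mem_toSet.1 (h4 ▸ Finset.mem_insert_self (⟨u, hu⟩ : Fin M.length) _))

/-- The verifier of the complement. -/
def ver (x : List (List Bool) × List ℕ × List ℕ) : Bool :=
  (maxB x.1 x.2.1 && maxB x.1 x.2.2) && !decide (cardB x.1 x.2.1 = cardB x.1 x.2.2)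

section PolyVer

variable {α : Type} [TEnc α]

theorem poly_confB {M : α → List (List Bool)} {i j : α → ℕ} (hM : Poly M) (hi : Poly i)
    (hj : Poly j) : Poly (fun a => confB (M a) (i a) (j a)) := by
  unfold confB
  refine Poly.any (p := fun a k => edgeB (M a) (i a) k && edgeB (M a) (j a) k)
    (Poly.range_length hM) ?_
  exact NPC.Poly.and
    (poly_edgeB (hM.comp (Poly.fst Poly.id)) (hi.comp (Poly.fst Poly.id)) (Poly.snd Poly.id))
    (poly_edgeB (hM.comp (Poly.fst Poly.id)) (hj.comp (Poly.fst Poly.id)) (Poly.snd Poly.id))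

theorem poly_maxB {M : α → List (List Bool)} {S : α → List ℕ} (hM : Poly M) (hS : Poly S) :
    Poly (fun a => maxB (M a) (S a)) := by
  unfold maxB
  refine Poly.all (p := fun a u => (!decide (u ∈ S a) ||
    (List.range (M a).length).all (fun v => !decide (v ∈ S a) ||
      (decide (u = v) || !confB (M a) u v))) && (decide (u ∈ S a) ||
      (List.range (M a).length).any (fun v => decide (v ∈ S a) && confB (M a) u v)))
    (Poly.range_length hM) ?_
  have hM1 : Poly (fun x : α × ℕ => M x.1) := hM.comp (Poly.fst Poly.id)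
  have hS1 : Poly (fun x : α × ℕ => S x.1) := hS.comp (Poly.fst Poly.id)
  have hu1 : Poly (fun x : α × ℕ => x.2) := Poly.snd Poly.id
  have hM2 : Poly (fun x : (α × ℕ) × ℕ => M x.1.1) := hM1.comp (Poly.fst Poly.id)
  have hS2 : Poly (fun x : (α × ℕ) × ℕ => S x.1.1) := hS1.comp (Poly.fst Poly.id)
  have hu2 : Poly (fun x : (α × ℕ) × ℕ => x.1.2) := hu1.comp (Poly.fst Poly.id)
  have hv2 : Poly (fun x : (α × ℕ) × ℕ => x.2) := Poly.snd Poly.id
  refine NPC.Poly.and (NPC.Poly.or (NPC.Poly.not (Poly.decide_mem hu1 hS1)) ?_)
    (NPC.Poly.or (Poly.decide_mem hu1 hS1) ?_)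
  · refine Poly.all (p := fun (x : α × ℕ) v => !decide (v ∈ S x.1) ||
      (decide (x.2 = v) || !confB (M x.1) x.2 v)) (Poly.range_length hM1) ?_
    exact NPC.Poly.or (NPC.Poly.not (Poly.decide_mem hv2 hS2)) (NPC.Poly.or
      (Poly.decide_eq hu2 hv2) (NPC.Poly.not (poly_confB hM2 hu2 hv2)))
  · refine Poly.any (p := fun (x : α × ℕ) v => decide (v ∈ S x.1) && confB (M x.1) x.2 v)
      (Poly.range_length hM1) ?_
    exact NPC.Poly.and (Poly.decide_mem hv2 hS2) (poly_confB hM2 hu2 hv2)

theorem poly_cardB {M : α → List (List Bool)} {S : α → List ℕ} (hM : Poly M) (hS : Poly S) :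
    Poly (fun a => cardB (M a) (S a)) := by
  unfold cardB
  refine Poly.length (Poly.filter (p := fun a u => decide (u ∈ S a)) (Poly.range_length hM) ?_)
  exact Poly.decide_mem (Poly.snd Poly.id) (hS.comp (Poly.fst Poly.id))

end PolyVer

theorem poly_ver : Poly ver := by
  unfold ver
  have hM : Poly (fun x : List (List Bool) × List ℕ × List ℕ => x.1) := Poly.fst Poly.id
  have hS : Poly (fun x : List (List Bool) × List ℕ × List ℕ => x.2.1) :=
    Poly.fst (Poly.snd Poly.id)
  have hT : Poly (fun x : List (List Bool) × List ℕ × List ℕ => x.2.2) :=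
    Poly.snd (Poly.snd Poly.id)
  exact NPC.Poly.and (NPC.Poly.and (poly_maxB hM hS) (poly_maxB hM hT))
    (NPC.Poly.not (Poly.decide_eq (poly_cardB hM hS) (poly_cardB hM hT)))

/-- The list of the elements of a set. -/
theorem exists_list {n : ℕ} (S : Finset (Fin n)) : ∃ l : List ℕ, toSet n l = S ∧
    sz l ≤ n * (4 * n + 2) + 1 := by
  refine ⟨S.toList.map Fin.val, ?_, ?_⟩
  · ext u
    rw [mem_toSet, List.mem_map]
    constructor
    · rintro ⟨v, hv, h⟩
      rw [← Fin.ext h]
      exact Finset.mem_toList.1 hv
    · intro h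
      exact ⟨u, Finset.mem_toList.2 h, rfl⟩
  · refine sz_list_lt ?_ ?_
    · intro x hx
      rw [List.mem_map] at hx
      obtain ⟨i, _, rfl⟩ := hx
      exact i.2
    · rw [List.length_map, Finset.length_toList]
      simpa using S.card_le_univ

theorem ver_iff (M : List (List Bool)) : ¬ EqualOpenPackings M ↔ ∃ w : List ℕ × List ℕ,
    sz w ≤ (Polynomial.C 2 * (Polynomial.X * (Polynomial.C 4 * Polynomial.X + 2) + 1) + 1 :
      Polynomial ℕ).eval (sz M) ∧ ver (M, w) = true := by
  constructor
  · intro h
    unfold EqualOpenPackings at h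
    push Not at h
    obtain ⟨S, T, hS, hT, hne⟩ := h
    obtain ⟨l, rfl, hl⟩ := exists_list S
    obtain ⟨l', rfl, hl'⟩ := exists_list T
    refine ⟨(l, l'), ?_, ?_⟩
    · have e4 := length_lt_sz M
      have e5 : M.length * (4 * M.length + 2) ≤ sz M * (4 * sz M + 2) :=
        Nat.mul_le_mul (by omega) (by omega)
      simp only [sz_pair, Polynomial.eval_add, Polynomial.eval_mul, Polynomial.eval_X,
        Polynomial.eval_C, Polynomial.eval_one, Polynomial.eval_ofNat]
      omega
    · unfold ver
      rw [card_toSet, card_toSet] at hne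
      simp only [Bool.and_eq_true, Bool.not_eq_true', decide_eq_false_iff_not]
      exact ⟨⟨maxB_iff.2 hS, maxB_iff.2 hT⟩, hne⟩
  · rintro ⟨⟨l, l'⟩, -, h⟩ heq
    unfold ver at h
    simp only [Bool.and_eq_true, Bool.not_eq_true', decide_eq_false_iff_not] at h
    obtain ⟨⟨h1, h2⟩, h3⟩ := h
    have := heq _ _ (maxB_iff.1 h1) (maxB_iff.1 h2)
    rw [card_toSet, card_toSet] at this
    exact h3 this

theorem inCoNP : InCoNPP EqualOpenPackings := inCoNPP_of poly_ver _ ver_iff

end Pool.Agent.H420.OPack
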