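import Pool.Agent.H420.Gr

/-!
# Total domination and sub-total domination numbers
-/

namespace Pool.Agent.H420.TDS

open Pool.Agent.NPC Pool.Agent.H420.Gr

section Defs

variable {V : Type} [Fintype V] (G : SimpleGraph V)

/-- Total dominating sets: every vertex has a neighbour in `S`. -/
def IsTotalDominating (S : Finset V) : Prop := ∀ v, ∃ u ∈ S, G.Adj v u

/-- The total domination number: the least size of a total dominating set. -/
noncomputable def totalDom : ℕ := sInf {k | ∃ S : Finset V, IsTotalDominating G S ∧ S.card = k}

/-- The degree of a vertex. -/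
noncomputable def deg (v : V) : ℕ := (G.neighborSet v).ncard

/-- The degree sequence, in non-increasing order. -/
noncomputable def degSeq : List ℕ :=
  ((Finset.univ : Finset V).val.map (deg G)).sort (fun a b => a ≥ b)

/-- The sub-total domination number: the least `k` such that the `k` largest degrees add up to at
least the number of vertices. -/
noncomputable def subT : ℕ := sInf {k | Fintype.card V ≤ ((degSeq G).take k).sum}

end Defs

/-- The first `k` entries of a non-increasing list have a sum at least that of any `k` entries. -/
theorem sum_le_take {l L : List ℕ} (h : l.Sublist L) (hL : L.Pairwise (fun a b => a ≥ b)) :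
    l.sum ≤ (L.take l.length).sum := by
  have key : ∀ (L : List ℕ) (a : ℕ), (a :: L).Pairwise (fun a b => a ≥ b) → ∀ k,
      (L.take k).sum ≤ ((a :: L).take k).sum := by
    intro L
    induction L with
    | nil => intro a _ k; simp
    | cons b L ih =>
      intro a h k
      cases k with
      | zero => simp
      | succ k =>
        have h1 := ih b (List.pairwise_cons.1 h).2 k
        have h2 : a ≥ b := (List.pairwise_cons.1 h).1 b (by simp)
        simp only [List.take_succ_cons, List.sum_cons]
        omega
  induction h with
  | slnil => simp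
  | @cons l L a h ih =>
    have h1 := ih (List.pairwise_cons.1 hL).2
    exact h1.trans (key L a hL _)
  | @cons_cons l L a h ih =>
    have h1 := ih (List.pairwise_cons.1 hL).2
    simp only [List.length_cons, List.take_succ_cons, List.sum_cons]
    omega

variable {V : Type} [Fintype V] {G : SimpleGraph V}

theorem degSeq_pairwise : (degSeq G).Pairwise (fun a b => a ≥ b) :=
  Multiset.pairwise_sort _ _

theorem degSeq_coe : ((degSeq G : List ℕ) : Multiset ℕ) = (Finset.univ : Finset V).val.map (deg G) :=
  Multiset.sort_eq _ _

theorem sum_deg_le (S : Finset V) : ∑ v ∈ S, deg G v ≤ ((degSeq G).take S.card).sum := by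
  have h1 : S.val.map (deg G) ≤ (degSeq G : Multiset ℕ) := by
    rw [degSeq_coe]
    exact Multiset.map_le_map (Finset.val_le_iff.2 (Finset.subset_univ S))
  obtain ⟨l, hl⟩ := Quot.exists_rep (S.val.map (deg G))
  have hl' : (l : Multiset ℕ) = S.val.map (deg G) := hl
  rw [← hl', Multiset.coe_le] at h1
  obtain ⟨l', hp, hs⟩ := h1
  have h2 := sum_le_take hs degSeq_pairwise
  have h3 : l'.sum = ∑ v ∈ S, deg G v := by
    rw [hp.sum_eq, ← Multiset.sum_coe, hl']
    rfl
  have h4 : l'.length = S.card := by
    rw [hp.length_eq, ← Multiset.coe_card, hl', Multiset.card_map]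
    rfl
  rwa [h3, h4] at h2

theorem take_sum_mono {l : List ℕ} {j k : ℕ} (h : j ≤ k) : (l.take j).sum ≤ (l.take k).sum := by
  have : (l.take k).take j = l.take j := by rw [List.take_take, Nat.min_eq_left h]
  rw [← this]
  exact (List.take_sublist j (l.take k)).sum_le_sum (fun _ _ => Nat.zero_le _)

/-- A total dominating set has degree sum at least the number of vertices. -/
theorem card_le_sum_deg {S : Finset V} (hS : IsTotalDominating G S) :
    Fintype.card V ≤ ∑ v ∈ S, deg G v := by
  classical
  have h1 : (Finset.univ : Finset V) ⊆ S.biUnion (fun u => (G.neighborSet u).toFinset) := by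
    intro v _
    obtain ⟨u, hu, h⟩ := hS v
    rw [Finset.mem_biUnion]
    exact ⟨u, hu, by simpa using h.symm⟩
  calc Fintype.card V = (Finset.univ : Finset V).card := rfl
    _ ≤ _ := Finset.card_le_card h1
    _ ≤ ∑ u ∈ S, ((G.neighborSet u).toFinset).card := Finset.card_biUnion_le
    _ = _ := Finset.sum_congr rfl fun u _ => by rw [deg, Set.ncard_eq_toFinset_card']

theorem subT_le_card {S : Finset V} (hS : IsTotalDominating G S) : subT G ≤ S.card :=
  Nat.sInf_le ((card_le_sum_deg hS).trans (sum_deg_le S))

theorem le_subT {S : Finset V} (hS : IsTotalDominating G S) {k : ℕ}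
    (h : ∀ j, j < k → ((degSeq G).take j).sum < Fintype.card V) : k ≤ subT G := by
  by_contra hlt
  have hne : {k | Fintype.card V ≤ ((degSeq G).take k).sum}.Nonempty :=
    ⟨_, (card_le_sum_deg hS).trans (sum_deg_le S)⟩
  have h1 : Fintype.card V ≤ ((degSeq G).take (subT G)).sum := Nat.sInf_mem hne
  have h2 := h (subT G) (by omega)
  omega

omit [Fintype V] in
theorem totalDom_le {S : Finset V} (hS : IsTotalDominating G S) : totalDom G ≤ S.card :=
  Nat.sInf_le ⟨S, hS, rfl⟩

theorem exists_totalDom (h : ∀ v, ∃ w, G.Adj v w) :
    ∃ S : Finset V, IsTotalDominating G S ∧ S.card = totalDom G := by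
  have hne : {k | ∃ S : Finset V, IsTotalDominating G S ∧ S.card = k}.Nonempty :=
    ⟨_, Finset.univ, fun v => by obtain ⟨w, hw⟩ := h v; exact ⟨w, Finset.mem_univ _, hw⟩, rfl⟩
  exact Nat.sInf_mem hne

theorem subT_le_totalDom (h : ∀ v, ∃ w, G.Adj v w) : subT G ≤ totalDom G := by
  obtain ⟨S, hS, hc⟩ := exists_totalDom h
  rw [← hc]
  exact subT_le_card hS

/-- The decision problem: a graph without isolated vertices in which the total domination number
equals the sub-total domination number. -/
def TDSEq (M : List (List Bool)) : Prop :=
  (∀ v, ∃ w, (graphOf M).Adj v w) ∧ totalDom (graphOf M) = subT (graphOf M)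

end Pool.Agent.H420.TDS
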