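import Pool.Agent.H420.TDSDefs

/-!
# Total domination equals sub-total domination: the reduction from 3SAT

The literal vertices are `0, ..., 2 v - 1` (`2 x` for the variable `x`, `2 x + 1` for its
negation), they form a clique; the clause vertices are `2 v, ..., 2 v + m - 1`; then come `D` leaves
for each variable, each adjacent to the two literals of the variable.
-/

namespace Pool.Agent.H420.TDS

open Pool.Agent.NPC Pool.Agent.H420.Gr

/-- The literal vertex `i` is the literal number `o` of the formula. -/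
def isLit (var : ℕ → ℕ) (sgn : ℕ → Bool) (i o : ℕ) : Bool :=
  decide (var o = i / 2) && decide (sgn o = decide (i % 2 = 0))

theorem isLit_iff {var : ℕ → ℕ} {sgn : ℕ → Bool} {i o : ℕ} :
    isLit var sgn i o = true ↔ i = 2 * var o + (if sgn o = true then 0 else 1) := by
  unfold isLit
  rw [Bool.and_eq_true, decide_eq_true_eq, decide_eq_true_eq]
  cases h : sgn o with
  | true =>
    rw [eq_comm (a := true), decide_eq_true_eq]
    simp only [if_true]
    omega
  | false =>
    rw [eq_comm (a := false), decide_eq_false_iff_not]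
    simp only [Bool.false_eq_true, if_false]
    omega

/-- The adjacency of the graph of the reduction. -/
def adj (v m D : ℕ) (var : ℕ → ℕ) (sgn : ℕ → Bool) (i j : ℕ) : Bool :=
  decide (i < 2 * v) && (decide (j < 2 * v) ||
    ((decide (2 * v ≤ j) && (decide (j < 2 * v + m) && (isLit var sgn i (3 * (j - 2 * v)) ||
      (isLit var sgn i (3 * (j - 2 * v) + 1) || isLit var sgn i (3 * (j - 2 * v) + 2))))) ||
    (decide (2 * v + m ≤ j) && decide ((j - (2 * v + m)) / D = i / 2))))

theorem adj_iff {v m D : ℕ} {var : ℕ → ℕ} {sgn : ℕ → Bool} {i j : ℕ} :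
    adj v m D var sgn i j = true ↔ i < 2 * v ∧ (j < 2 * v ∨
      ((2 * v ≤ j ∧ j < 2 * v + m ∧ ∃ r < 3, isLit var sgn i (3 * (j - 2 * v) + r) = true) ∨
      (2 * v + m ≤ j ∧ (j - (2 * v + m)) / D = i / 2))) := by
  unfold adj
  simp only [Bool.or_eq_true, Bool.and_eq_true, decide_eq_true_eq]
  refine and_congr_right fun _ => or_congr_right (or_congr_left (and_congr_right fun _ =>
    and_congr_right fun _ => ?_))
  constructor
  · rintro (h | h | h)
    · exact ⟨0, by norm_num, h⟩
    · exact ⟨1, by norm_num, h⟩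
    · exact ⟨2, by norm_num, h⟩
  · rintro ⟨r, hr, h⟩
    have : r = 0 ∨ r = 1 ∨ r = 2 := by omega
    rcases this with rfl | rfl | rfl
    · exact Or.inl h
    · exact Or.inr (Or.inl h)
    · exact Or.inr (Or.inr h)

variable {v m D : ℕ} {var : ℕ → ℕ} {sgn : ℕ → Bool}

/-- The graph of the reduction. -/
abbrev HH (v m D : ℕ) (var : ℕ → ℕ) (sgn : ℕ → Bool) : SimpleGraph (Fin (2 * v + m + v * D)) :=
  eGraph (2 * v + m + v * D) (adj v m D var sgn)

theorem hh_lit {i j : Fin (2 * v + m + v * D)} (hi : i.val < 2 * v) (hj : j.val < 2 * v)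
    (hne : i ≠ j) : (HH v m D var sgn).Adj i j :=
  ⟨hne, Or.inl (adj_iff.2 ⟨hi, Or.inl hj⟩)⟩

theorem hh_leaf {i j : Fin (2 * v + m + v * D)} (hi : i.val < 2 * v) (hj : 2 * v + m ≤ j.val)
    (h : (j.val - (2 * v + m)) / D = i.val / 2) : (HH v m D var sgn).Adj i j :=
  ⟨fun e => by rw [e] at hi; omega, Or.inl (adj_iff.2 ⟨hi, Or.inr (Or.inr ⟨hj, h⟩)⟩)⟩

theorem hh_clause {i j : Fin (2 * v + m + v * D)} (hi : i.val < 2 * v) (hj : 2 * v ≤ j.val)
    (hj' : j.val < 2 * v + m)
    (h : ∃ r < 3, isLit var sgn i.val (3 * (j.val - 2 * v) + r) = true) :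
    (HH v m D var sgn).Adj i j :=
  ⟨fun e => by rw [e] at hi; omega, Or.inl (adj_iff.2 ⟨hi, Or.inr (Or.inl ⟨hj, hj', h⟩)⟩)⟩

/-- The neighbours of a vertex that is not a literal. -/
theorem hh_inv {i j : Fin (2 * v + m + v * D)} (hj : 2 * v ≤ j.val)
    (h : (HH v m D var sgn).Adj j i) : i.val < 2 * v ∧
      ((j.val < 2 * v + m ∧ ∃ r < 3, isLit var sgn i.val (3 * (j.val - 2 * v) + r) = true) ∨
      (2 * v + m ≤ j.val ∧ (j.val - (2 * v + m)) / D = i.val / 2)) := by
  obtain ⟨-, h | h⟩ := h
  · rw [adj_iff] at h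
    omega
  · rw [adj_iff] at h
    obtain ⟨h1, h2 | h2 | h2⟩ := h
    · omega
    · exact ⟨h1, Or.inl ⟨h2.2.1, h2.2.2⟩⟩
    · exact ⟨h1, Or.inr h2⟩

/-- The leaf number `y` of the variable `x`. -/
theorem leaf_lt {x y : ℕ} (hx : x < v) (hy : y < D) :
    2 * v + m + (x * D + y) < 2 * v + m + v * D := by
  have : (x + 1) * D ≤ v * D := Nat.mul_le_mul_right D hx
  rw [Nat.add_mul, one_mul] at this
  omega

theorem leaf_div {x y : ℕ} (hy : y < D) : (x * D + y) / D = x := by
  rw [mul_comm, Nat.mul_add_div (by omega), Nat.div_eq_of_lt hy, add_zero]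

/-! ### Degrees -/

theorem deg_le (hD : 1 ≤ D) (i : Fin (2 * v + m + v * D)) :
    deg (HH v m D var sgn) i ≤ D + (2 * v - 1) + m := by
  classical
  unfold deg
  by_cases hi : i.val < 2 * v
  · -- literal
    let A : Set (Fin (2 * v + m + v * D)) := {j | j.val < 2 * v + m ∧ j ≠ i}
    let B : Set (Fin (2 * v + m + v * D)) := {j | 2 * v + m ≤ j.val ∧
      (j.val - (2 * v + m)) / D = i.val / 2}
    have h1 : (HH v m D var sgn).neighborSet i ⊆ A ∪ B := by
      intro j hj
      rw [SimpleGraph.mem_neighborSet] at hj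
      by_cases hj' : j.val < 2 * v + m
      · exact Or.inl ⟨hj', fun e => by rw [e] at hj; exact (HH v m D var sgn).loopless.irrefl _ hj⟩
      · have := hh_inv (i := i) (j := j) (by omega) hj.symm
        exact Or.inr ⟨by omega, (this.2.resolve_left (by omega)).2⟩
    have hA : A.ncard ≤ 2 * v - 1 + m := by
      have h2 : (Fin.val '' A) ⊆ (((Finset.range (2 * v + m)).erase i.val : Finset ℕ) : Set ℕ) := by
        rintro _ ⟨j, ⟨hj, hne⟩, rfl⟩
        simp only [Finset.coe_erase, Finset.coe_range, Set.mem_sdiff, Set.mem_Iio,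
          Set.mem_singleton_iff]
        exact ⟨hj, fun e => hne (Fin.ext e)⟩
      have h3 := Set.ncard_le_ncard h2 (Finset.finite_toSet _)
      rw [Set.ncard_image_of_injective _ Fin.val_injective, Set.ncard_coe_finset,
        Finset.card_erase_of_mem (by simp; omega), Finset.card_range] at h3
      omega
    have hB : B.ncard ≤ D := by
      have h2 : (Fin.val '' B) ⊆ (((Finset.range D).image
          (fun y => 2 * v + m + ((i.val / 2) * D + y)) : Finset ℕ) : Set ℕ) := by
        rintro _ ⟨j, ⟨hj, he⟩, rfl⟩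
        simp only [Finset.coe_image, Finset.coe_range, Set.mem_image, Set.mem_Iio]
        refine ⟨(j.val - (2 * v + m)) % D, Nat.mod_lt _ (by omega), ?_⟩
        rw [← he]
        have := Nat.div_add_mod (j.val - (2 * v + m)) D
        rw [mul_comm] at this
        omega
      have h3 := Set.ncard_le_ncard h2 (Finset.finite_toSet _)
      rw [Set.ncard_image_of_injective _ Fin.val_injective, Set.ncard_coe_finset] at h3
      exact h3.trans (Finset.card_image_le.trans (by simp))
    calc _ ≤ (A ∪ B).ncard := Set.ncard_le_ncard h1 (Set.toFinite _)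
      _ ≤ A.ncard + B.ncard := Set.ncard_union_le _ _
      _ ≤ _ := by omega
  · have h1 : (Fin.val '' ((HH v m D var sgn).neighborSet i)) ⊆
        ((Finset.range (2 * v) : Finset ℕ) : Set ℕ) := by
      rintro _ ⟨j, hj, rfl⟩
      rw [SimpleGraph.mem_neighborSet] at hj
      have := hh_inv (i := j) (j := i) (by omega) hj
      simpa using this.1
    have h3 := Set.ncard_le_ncard h1 (Finset.finite_toSet _)
    rw [Set.ncard_image_of_injective _ Fin.val_injective, Set.ncard_coe_finset,
      Finset.card_range] at h3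
    omega

theorem le_deg (i : Fin (2 * v + m + v * D)) (hi : i.val < 2 * v) :
    D + (2 * v - 1) ≤ deg (HH v m D var sgn) i := by
  classical
  unfold deg
  let F : Fin D → Fin (2 * v + m + v * D) := fun y =>
    ⟨2 * v + m + ((i.val / 2) * D + y.val), leaf_lt (by omega) y.2⟩
  have hF : Function.Injective F := by
    intro y y' h
    have h1 : 2 * v + m + ((i.val / 2) * D + y.val) = 2 * v + m + ((i.val / 2) * D + y'.val) :=
      congrArg Fin.val h
    exact Fin.ext (by omega)
  let A : Set (Fin (2 * v + m + v * D)) := {j | j.val < 2 * v ∧ j ≠ i}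
  have hA : 2 * v - 1 ≤ A.ncard := by
    have h2 : (((Finset.range (2 * v)).erase i.val : Finset ℕ) : Set ℕ) ⊆ (Fin.val '' A) := by
      intro k hk
      simp only [Finset.coe_erase, Finset.coe_range, Set.mem_sdiff, Set.mem_Iio,
        Set.mem_singleton_iff] at hk
      refine ⟨⟨k, by omega⟩, ⟨hk.1, fun e => hk.2 ?_⟩, rfl⟩
      rw [← e]
    have h3 := Set.ncard_le_ncard h2 (Set.toFinite _)
    rw [Set.ncard_image_of_injective _ Fin.val_injective, Set.ncard_coe_finset,
      Finset.card_erase_of_mem (by simpa using hi), Finset.card_range] at h3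
    exact h3
  have hR : (Set.range F).ncard = D := by
    rw [← Set.image_univ, Set.ncard_image_of_injective _ hF, Set.ncard_univ,
      Nat.card_eq_fintype_card, Fintype.card_fin]
  have hdis : Disjoint (Set.range F) A := by
    rw [Set.disjoint_left]
    rintro _ ⟨y, rfl⟩ ⟨h, _⟩
    have e : (F y).val = 2 * v + m + ((i.val / 2) * D + y.val) := rfl
    omega
  have h1 : Set.range F ∪ A ⊆ (HH v m D var sgn).neighborSet i := by
    rintro j (⟨y, rfl⟩ | ⟨hj, hne⟩)
    · rw [SimpleGraph.mem_neighborSet]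
      refine hh_leaf hi ?_ ?_
      · have e : (F y).val = 2 * v + m + ((i.val / 2) * D + y.val) := rfl
        omega
      · have e : (F y).val - (2 * v + m) = (i.val / 2) * D + y.val := by
          have e : (F y).val = 2 * v + m + ((i.val / 2) * D + y.val) := rfl
          omega
        rw [e, leaf_div y.2]
    · rw [SimpleGraph.mem_neighborSet]
      exact hh_lit hi hj (Ne.symm hne)
  calc _ ≤ (Set.range F).ncard + A.ncard := by omega
    _ = (Set.range F ∪ A).ncard := (Set.ncard_union_eq hdis (Set.toFinite _) (Set.toFinite _)).symm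
    _ ≤ _ := Set.ncard_le_ncard h1 (Set.toFinite _)

/-! ### Total dominating sets -/

variable {S : Finset (Fin (2 * v + m + v * D))}

/-- Every pair of opposite literals is met. -/
theorem meets (hD : 1 ≤ D) (hS : IsTotalDominating (HH v m D var sgn) S) {x : ℕ} (hx : x < v) :
    ∃ i ∈ S, i.val / 2 = x := by
  obtain ⟨i, hi, h⟩ := hS ⟨2 * v + m + (x * D + 0), leaf_lt hx (by omega)⟩
  have h1 := hh_inv (i := i) (by simp only; omega) h
  have h2 := (h1.2.resolve_left (by simp only; omega)).2
  have e : 2 * v + m + (x * D + 0) - (2 * v + m) = x * D + 0 := by omega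
  simp only [e] at h2
  rw [leaf_div (by omega)] at h2
  exact ⟨i, hi, h2.symm⟩

theorem le_card (hD : 1 ≤ D) (hS : IsTotalDominating (HH v m D var sgn) S) : v ≤ S.card := by
  classical
  have h1 : Finset.range v ⊆ S.image (fun i => i.val / 2) := by
    intro x hx
    obtain ⟨i, hi, h⟩ := meets hD hS (by simpa using hx)
    exact Finset.mem_image.2 ⟨i, hi, h⟩
  have := (Finset.card_le_card h1).trans Finset.card_image_le
  simpa using this

theorem sat_of_card (hD : 1 ≤ D) (hS : IsTotalDominating (HH v m D var sgn) S)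
    (hc : S.card = v) :
    ∃ τ : ℕ → Bool, ∀ j < m, ∃ r < 3, τ (var (3 * j + r)) = sgn (3 * j + r) := by
  classical
  have h1 : Finset.range v ⊆ S.image (fun i => i.val / 2) := by
    intro x hx
    obtain ⟨i, hi, h⟩ := meets hD hS (by simpa using hx)
    exact Finset.mem_image.2 ⟨i, hi, h⟩
  have h2 : (S.image (fun i => i.val / 2)).card = S.card := by
    refine le_antisymm Finset.card_image_le ?_
    have := Finset.card_le_card h1
    rw [Finset.card_range] at this
    omega
  have hinj := Finset.card_image_iff.1 h2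
  refine ⟨fun x => decide (∃ i ∈ S, i.val = 2 * x), fun j hj => ?_⟩
  obtain ⟨i, hi, h⟩ := hS ⟨2 * v + j, by omega⟩
  have h3 := hh_inv (i := i) (by simp only; omega) h
  obtain ⟨r, hr, hl⟩ := (h3.2.resolve_right (by simp only; omega)).2
  refine ⟨r, hr, ?_⟩
  have e : 2 * v + j - 2 * v = j := by omega
  simp only [e] at hl
  rw [isLit_iff] at hl
  cases hs : sgn (3 * j + r) with
  | true =>
    rw [decide_eq_true_eq]
    refine ⟨i, hi, ?_⟩
    rw [hl, hs]
    simp
  | false =>
    rw [decide_eq_false_iff_not]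
    rintro ⟨i', hi', h'⟩
    rw [hs] at hl
    simp only [Bool.false_eq_true, if_false] at hl
    have : i' = i := hinj (by simpa using hi') (by simpa using hi) (by simp only; omega)
    rw [this] at h'
    omega

theorem exists_of_sat (hv : 2 ≤ v) (hD : 1 ≤ D) (hvar : ∀ o < 3 * m, var o < v)
    (h : ∃ τ : ℕ → Bool, ∀ j < m, ∃ r < 3, τ (var (3 * j + r)) = sgn (3 * j + r)) :
    ∃ S : Finset (Fin (2 * v + m + v * D)), IsTotalDominating (HH v m D var sgn) S ∧
      S.card = v := by
  classical
  obtain ⟨τ, hτ⟩ := h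
  let F : Fin v → Fin (2 * v + m + v * D) := fun x =>
    ⟨2 * x.val + (if τ x.val = true then 0 else 1), by split_ifs <;> omega⟩
  have hF0 : ∀ x : Fin v, (F x).val = 2 * x.val + (if τ x.val = true then 0 else 1) :=
    fun _ => rfl
  have hF1 : ∀ x : Fin v, (F x).val / 2 = x.val := by
    intro x
    rw [hF0]
    split_ifs <;> omega
  have hF2 : ∀ x : Fin v, (F x).val < 2 * v := by
    intro x
    rw [hF0]
    split_ifs <;> omega
  have hF : Function.Injective F := by
    intro x y h
    have h1 := hF1 x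
    rw [h, hF1 y] at h1
    exact Fin.ext h1.symm
  refine ⟨Finset.univ.image F, ?_, ?_⟩
  · intro j
    by_cases hj : j.val < 2 * v
    · -- literal: choose another variable
      by_cases hx : j.val / 2 = 0
      · refine ⟨F ⟨1, by omega⟩, Finset.mem_image_of_mem _ (Finset.mem_univ _), ?_⟩
        refine hh_lit hj (hF2 _) (fun e => ?_)
        have := hF1 ⟨1, by omega⟩
        rw [← e, hx] at this
        simp at this
      · refine ⟨F ⟨0, by omega⟩, Finset.mem_image_of_mem _ (Finset.mem_univ _), ?_⟩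
        refine hh_lit hj (hF2 _) (fun e => ?_)
        have := hF1 ⟨0, by omega⟩
        rw [← e] at this
        exact hx this
    · by_cases hj' : j.val < 2 * v + m
      · -- clause
        obtain ⟨r, hr, hr'⟩ := hτ (j.val - 2 * v) (by omega)
        refine ⟨F ⟨var (3 * (j.val - 2 * v) + r), hvar _ (by omega)⟩,
          Finset.mem_image_of_mem _ (Finset.mem_univ _), ?_⟩
        refine (hh_clause (hF2 _) (by omega) hj' ⟨r, hr, ?_⟩).symm
        rw [isLit_iff, hF0]
        simp only
        rw [hr']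
      · -- leaf
        have hlt : (j.val - (2 * v + m)) / D < v := by
          rw [Nat.div_lt_iff_lt_mul (by omega)]
          have := j.2
          omega
        refine ⟨F ⟨(j.val - (2 * v + m)) / D, hlt⟩,
          Finset.mem_image_of_mem _ (Finset.mem_univ _), ?_⟩
        refine (hh_leaf (hF2 _) (by omega) ?_).symm
        rw [hF1]
  · rw [Finset.card_image_of_injective _ hF, Finset.card_univ, Fintype.card_fin]

/-! ### The sub-total domination number -/

theorem subT_eq (hD : D = v * (2 * v + m)) (hv : 2 ≤ v) (hm : 2 * v + m ≤ v * (2 * v - 1)) :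
    subT (HH v m D var sgn) = v := by
  classical
  have hcard : Fintype.card (Fin (2 * v + m + v * D)) = 2 * v + m + v * D := Fintype.card_fin _
  have hD1 : 1 ≤ D := by rw [hD]; exact Nat.mul_pos (by omega) (by omega)
  -- the first `v` degrees suffice
  let F : Fin v → Fin (2 * v + m + v * D) := fun x => ⟨2 * x.val, by omega⟩
  have hF : Function.Injective F := by
    intro x y h
    have h1 : 2 * x.val = 2 * y.val := congrArg Fin.val h
    exact Fin.ext (by omega)
  have hin : Fintype.card (Fin (2 * v + m + v * D)) ≤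
      ((degSeq (HH v m D var sgn)).take v).sum := by
    have h1 := sum_deg_le (G := HH v m D var sgn) (Finset.univ.image F)
    rw [Finset.card_image_of_injective _ hF, Finset.card_univ, Fintype.card_fin,
      Finset.sum_image (fun x _ y _ h => hF h)] at h1
    refine le_trans ?_ h1
    have h2 : ∑ x : Fin v, (D + (2 * v - 1)) ≤ ∑ x : Fin v, deg (HH v m D var sgn) (F x) :=
      Finset.sum_le_sum fun x _ => le_deg _ (by
        have : (F x).val = 2 * x.val := rfl
        omega)
    refine le_trans ?_ h2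
    simp only [Finset.sum_const, Finset.card_univ, Fintype.card_fin, smul_eq_mul, Nat.mul_add]
    omega
  have hub : subT (HH v m D var sgn) ≤ v := Nat.sInf_le hin
  refine le_antisymm hub ?_
  by_contra hlt
  have hne : {k | Fintype.card (Fin (2 * v + m + v * D)) ≤
      ((degSeq (HH v m D var sgn)).take k).sum}.Nonempty := ⟨v, hin⟩
  have h1 : Fintype.card (Fin (2 * v + m + v * D)) ≤
      ((degSeq (HH v m D var sgn)).take (subT (HH v m D var sgn))).sum := Nat.sInf_mem hne
  have h2 : ((degSeq (HH v m D var sgn)).take (v - 1)).sum ≤ (v - 1) * (D + (2 * v - 1) + m) := by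
    have h3 : ∀ d ∈ (degSeq (HH v m D var sgn)).take (v - 1), d ≤ D + (2 * v - 1) + m := by
      intro d hd
      have h4 := List.mem_of_mem_take hd
      have h5 : d ∈ ((degSeq (HH v m D var sgn) : List ℕ) : Multiset ℕ) := h4
      rw [degSeq_coe, Multiset.mem_map] at h5
      obtain ⟨i, _, rfl⟩ := h5
      exact deg_le hD1 i
    have h4 := List.sum_le_card_nsmul _ _ h3
    rw [smul_eq_mul] at h4
    exact h4.trans (Nat.mul_le_mul_right _ (by simp))
  have h3 := take_sum_mono (l := degSeq (HH v m D var sgn))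
    (j := subT (HH v m D var sgn)) (k := v - 1) (by omega)
  have h4 := h1.trans (h3.trans h2)
  rw [hcard] at h4
  obtain ⟨u, rfl⟩ : ∃ u, v = u + 1 := ⟨v - 1, by omega⟩
  have e : u + 1 - 1 = u := by omega
  rw [e] at h4
  have h5 : u * (D + (2 * (u + 1) - 1) + m) = u * D + u * (2 * (u + 1) - 1 + m) := by ring
  have h6 : (u + 1) * D = u * D + D := by ring
  have h7 : u * (2 * (u + 1) - 1 + m) ≤ D := by
    rw [hD]
    exact Nat.mul_le_mul (by omega) (by omega)
  rw [h5, h6] at h4
  omega

/-- The reduction is correct. -/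
theorem main_iff (hD : D = v * (2 * v + m)) (hv : 2 ≤ v) (hm : 2 * v + m ≤ v * (2 * v - 1))
    (hvar : ∀ o < 3 * m, var o < v) :
    ((∀ i, ∃ j, (HH v m D var sgn).Adj i j) ∧
      totalDom (HH v m D var sgn) = subT (HH v m D var sgn)) ↔
    ∃ τ : ℕ → Bool, ∀ j < m, ∃ r < 3, τ (var (3 * j + r)) = sgn (3 * j + r) := by
  have hD1 : 1 ≤ D := by rw [hD]; exact Nat.mul_pos (by omega) (by omega)
  rw [subT_eq hD hv hm]
  constructor
  · rintro ⟨h1, h2⟩
    obtain ⟨S, hS, hc⟩ := exists_totalDom h1
    exact sat_of_card hD1 hS (by omega)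
  · intro h
    obtain ⟨S, hS, hc⟩ := exists_of_sat (sgn := sgn) hv hD1 hvar h
    have h1 : ∀ i, ∃ j, (HH v m D var sgn).Adj i j := by
      intro i
      obtain ⟨j, _, hj⟩ := hS i
      exact ⟨j, hj⟩
    refine ⟨h1, le_antisymm ?_ ?_⟩
    · exact (totalDom_le hS).trans hc.le
    · obtain ⟨T, hT, hcT⟩ := exists_totalDom h1
      rw [← hcT]
      exact le_card hD1 hT

/-! ### The reduction is computable in polynomial time -/

/-- The reduction. -/
def red (φ : List (Lit ℕ × Lit ℕ × Lit ℕ)) : List (List Bool) :=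
  mat (2 * (3 * φ.length) + φ.length + 3 * φ.length * (3 * φ.length * (2 * (3 * φ.length) +
    φ.length))) (adj (3 * φ.length) φ.length (3 * φ.length * (2 * (3 * φ.length) + φ.length))
      (vr φ) (sg φ))

theorem poly_isLit {α : Type} [TEnc α] {φ : α → List (Lit ℕ × Lit ℕ × Lit ℕ)} {i o : α → ℕ}
    (hφ : Poly φ) (hi : Poly i) (ho : Poly o) :
    Poly (fun a => isLit (vr (φ a)) (sg (φ a)) (i a) (o a)) := by
  unfold isLit
  exact NPC.Poly.and (Poly.decide_eq (poly_vr hφ ho) (Poly.div hi (NPC.Poly.const 2)))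
    (Poly.decide_eq (poly_sg hφ ho)
      (Poly.decide_eq (Poly.mod hi (NPC.Poly.const 2)) (NPC.Poly.const 0)))

theorem red_poly : Poly red := by
  have hl : UPoly (fun φ : List (Lit ℕ × Lit ℕ × Lit ℕ) => φ.length) := UPoly.length Poly.id
  have h3 : UPoly (fun φ : List (Lit ℕ × Lit ℕ × Lit ℕ) => 3 * φ.length) :=
    UPoly.mul (UPoly.const 3) hl
  have h6 : UPoly (fun φ : List (Lit ℕ × Lit ℕ × Lit ℕ) => 2 * (3 * φ.length)) :=
    UPoly.mul (UPoly.const 2) h3
  have h7 : UPoly (fun φ : List (Lit ℕ × Lit ℕ × Lit ℕ) => 2 * (3 * φ.length) + φ.length) :=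
    UPoly.add h6 hl
  have hD : UPoly (fun φ : List (Lit ℕ × Lit ℕ × Lit ℕ) =>
      3 * φ.length * (2 * (3 * φ.length) + φ.length)) := UPoly.mul h3 h7
  unfold red
  refine poly_mat (n := fun φ : List (Lit ℕ × Lit ℕ × Lit ℕ) => 2 * (3 * φ.length) + φ.length +
      3 * φ.length * (3 * φ.length * (2 * (3 * φ.length) + φ.length)))
    (A := fun φ i j => adj (3 * φ.length) φ.length (3 * φ.length * (2 * (3 * φ.length) + φ.length))
      (vr φ) (sg φ) i j) (UPoly.add h7 (UPoly.mul h3 hD)) ?_
  unfold adj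
  have hφ : Poly (fun x : (List (Lit ℕ × Lit ℕ × Lit ℕ) × ℕ) × ℕ => x.1.1) :=
    Poly.fst (Poly.fst Poly.id)
  have hi : Poly (fun x : (List (Lit ℕ × Lit ℕ × Lit ℕ) × ℕ) × ℕ => x.1.2) :=
    Poly.snd (Poly.fst Poly.id)
  have hj : Poly (fun x : (List (Lit ℕ × Lit ℕ × Lit ℕ) × ℕ) × ℕ => x.2) := Poly.snd Poly.id
  have g6 : Poly (fun x : (List (Lit ℕ × Lit ℕ × Lit ℕ) × ℕ) × ℕ => 2 * (3 * x.1.1.length)) :=
    h6.toPoly.comp hφ
  have g7 : Poly (fun x : (List (Lit ℕ × Lit ℕ × Lit ℕ) × ℕ) × ℕ =>
    2 * (3 * x.1.1.length) + x.1.1.length) := h7.toPoly.comp hφ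
  have gD : Poly (fun x : (List (Lit ℕ × Lit ℕ × Lit ℕ) × ℕ) × ℕ =>
    3 * x.1.1.length * (2 * (3 * x.1.1.length) + x.1.1.length)) := hD.toPoly.comp hφ
  have ho : Poly (fun x : (List (Lit ℕ × Lit ℕ × Lit ℕ) × ℕ) × ℕ =>
    3 * (x.2 - 2 * (3 * x.1.1.length))) := Poly.mul (NPC.Poly.const 3) (Poly.sub hj g6)
  refine NPC.Poly.and (Poly.decide_lt hi g6) (NPC.Poly.or (Poly.decide_lt hj g6)
    (NPC.Poly.or (NPC.Poly.and (Poly.decide_le g6 hj) (NPC.Poly.and (Poly.decide_lt hj g7)
      (NPC.Poly.or (poly_isLit hφ hi ho) (NPC.Poly.or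
        (poly_isLit hφ hi (Poly.add ho (NPC.Poly.const 1)))
        (poly_isLit hφ hi (Poly.add ho (NPC.Poly.const 2)))))))
    (NPC.Poly.and (Poly.decide_le g7 hj) (Poly.decide_eq (Poly.div (Poly.sub hj g7) gD)
      (Poly.div hi (NPC.Poly.const 2))))))

theorem npHard : NPHardP TDSEq :=
  (HardPr.trans (Pr' := fun _ => True) hardPr_SAT3b red_poly (fun _ _ => trivial)
    (Q := TDSEq) (fun φ hφ => by
      obtain ⟨-, hb, hne⟩ := hφ
      have hm : 1 ≤ φ.length := List.length_pos_iff.2 hne
      have h := graphOf_mat (fun k G => (∀ v, ∃ w, G.Adj v w) ∧ totalDom G = subT G)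
        (2 * (3 * φ.length) + φ.length + 3 * φ.length * (3 * φ.length * (2 * (3 * φ.length) +
          φ.length))) (adj (3 * φ.length) φ.length
          (3 * φ.length * (2 * (3 * φ.length) + φ.length)) (vr φ) (sg φ))
      unfold TDSEq red
      rw [h, main_iff rfl (by omega) ?_ (fun o ho => vr_lt hb ho), sat_iff]
      generalize φ.length = m at *
      obtain ⟨k, rfl⟩ : ∃ k, m = k + 1 := ⟨m - 1, by omega⟩
      have e : 2 * (3 * (k + 1)) - 1 = 6 * k + 5 := by omega
      rw [e]
      nlinarith)).toHardI.toNPHardP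

end Pool.Agent.H420.TDS
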